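import Pool.Agent.PP5P.Pf
import Pool.Agent.PP5P.Cv
import Pool.Agent.PP5P.Zb
import Pool.Agent.PP5P.Sl
import Pool.Agent.PP5N.Lat
import Pool.Agent.PP5N.Res
import Pool.Agent.PP5N.SnD
import Pool.Agent.FTA.DivB

/-!
# PP5 (D'), sums over the dual vectors `m`: definitions

`nw l m = max |m i| / l i` (PP5/DB), `D2`, `sl`, `mnQ`, `Pr4` of PP5B, `mi2`, `mi3` of PP5N,
`Ph`, `Ev` of PP5P.
-/

set_option autoImplicit false

namespace Pool.Agent.PP5Q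

open Matrix Finset Pool.Agent.PP5B

/-- `l` positive and nondecreasing, `G` symmetric, even, of real size `C0 l i l j / T` -/
structure GH (C0 T : ℝ) (G : Matrix (Fin 4) (Fin 4) ℤ) (l : Fin 4 → ℝ) : Prop where
  sym : ∀ i j, G i j = G j i
  ev : ∀ i, 2 ∣ G i i
  dn : G.det ≠ 0
  lp : ∀ i, 0 < l i
  m01 : l 0 ≤ l 1
  m12 : l 1 ≤ l 2
  m23 : l 2 ≤ l 3
  T0 : 0 < T
  gram : ∀ i j, |(G i j : ℝ)| ≤ C0 * l i * l j / T

theorem GH.l0_le {C0 T : ℝ} {G : Matrix (Fin 4) (Fin 4) ℤ} {l : Fin 4 → ℝ} (h : GH C0 T G l)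
    (i : Fin 4) : l 0 ≤ l i := by
  have h1 := h.m01
  have h2 := h.m12
  have h3 := h.m23
  fin_cases i
  · exact le_refl _
  · exact h1
  · exact h1.trans h2
  · exact (h1.trans h2).trans h3

theorem GH.le_l3 {C0 T : ℝ} {G : Matrix (Fin 4) (Fin 4) ℤ} {l : Fin 4 → ℝ} (h : GH C0 T G l)
    (i : Fin 4) : l i ≤ l 3 := by
  have h1 := h.m01
  have h2 := h.m12
  have h3 := h.m23
  fin_cases i
  · exact (h1.trans h2).trans h3
  · exact h2.trans h3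
  · exact h3
  · exact le_refl _

/-- the data of a good `x`, normalised: all sizes up to the factor `E` -/
structure NG (C0 T N E : ℝ) (G : Matrix (Fin 4) (Fin 4) ℤ) (l : Fin 4 → ℝ) : Prop where
  gh : GH C0 T G l
  N1 : 1 ≤ N
  E1 : 1 ≤ E
  llo : ∀ i, N ^ 2 / E ≤ l i
  lup : ∀ i, l i ≤ E * N ^ 2
  Tlo : N ^ 2 / E ≤ T
  Tup : T ≤ E * N ^ 2
  dlo : N ^ 8 / E ≤ |(G.det : ℝ)|
  A : (PP5N.mi2 G : ℝ) ≤ E

end Pool.Agent.PP5Q
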