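import Pool.Agent.PP5Q.Defs

set_option autoImplicit false

namespace Pool.Agent.PP5Q

open Matrix Finset Pool.Agent.PP5B

private theorem vx_key {G : Matrix (Fin 4) (Fin 4) ℤ} (hsym : ∀ i j, G i j = G j i)
    {r v : Fin 4 → ℤ} (hrr : r ⬝ᵥ (G *ᵥ r) = 0) (hvv : v ⬝ᵥ (G *ᵥ v) = 0) (hrv : r ⬝ᵥ (G *ᵥ v) = 0)
    (e f : Fin 4 → ℤ) (hM : (Matrix.of ![r, v, e, f]).det ≠ 0) : IsSquare G.det := by
  set M : Matrix (Fin 4) (Fin 4) ℤ := Matrix.of ![r, v, e, f] with hMd
  have hs : ∀ x y : Fin 4 → ℤ, x ⬝ᵥ (G *ᵥ y) = y ⬝ᵥ (G *ᵥ x) := by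
    intro x y
    have hT : Gᵀ = G := by
      ext i j
      exact hsym j i
    rw [Matrix.dotProduct_mulVec, ← Matrix.mulVec_transpose, hT, dotProduct_comm]
  have hA : ∀ a b, (M * G * Mᵀ) a b = (M a) ⬝ᵥ (G *ᵥ (M b)) := by
    intro a b
    rw [Matrix.mul_assoc, Matrix.mul_apply]
    simp only [dotProduct, Matrix.mulVec, Matrix.mul_apply, Matrix.transpose_apply]
  have h0 : M 0 = r := rfl
  have h1 : M 1 = v := rfl
  have h2 : M 2 = e := rfl
  have h3 : M 3 = f := rfl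
  have hvr : v ⬝ᵥ (G *ᵥ r) = 0 := by rw [hs]; exact hrv
  have hdet : (M * G * Mᵀ).det = ((r ⬝ᵥ (G *ᵥ e)) * (v ⬝ᵥ (G *ᵥ f)) - (r ⬝ᵥ (G *ᵥ f)) * (v ⬝ᵥ (G *ᵥ e))) ^ 2 := by
    have hE : M * G * Mᵀ = !![0, 0, r ⬝ᵥ (G *ᵥ e), r ⬝ᵥ (G *ᵥ f);
        0, 0, v ⬝ᵥ (G *ᵥ e), v ⬝ᵥ (G *ᵥ f);
        r ⬝ᵥ (G *ᵥ e), v ⬝ᵥ (G *ᵥ e), e ⬝ᵥ (G *ᵥ e), e ⬝ᵥ (G *ᵥ f);
        r ⬝ᵥ (G *ᵥ f), v ⬝ᵥ (G *ᵥ f), e ⬝ᵥ (G *ᵥ f), f ⬝ᵥ (G *ᵥ f)] := by
      ext a b
      rw [hA]
      fin_cases a <;> fin_cases b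
      · exact hrr
      · exact hrv
      · rfl
      · rfl
      · exact hvr
      · exact hvv
      · rfl
      · rfl
      · exact hs e r
      · exact hs e v
      · rfl
      · rfl
      · exact hs f r
      · exact hs f v
      · exact hs f e
      · rfl
    rw [hE, Matrix.det_succ_row_zero]
    simp only [Fin.sum_univ_succ, Matrix.det_fin_three, Matrix.submatrix_apply]
    simp [Fin.succAbove]
    ring
  rw [Matrix.det_mul, Matrix.det_mul, Matrix.det_transpose] at hdet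
  set B := (r ⬝ᵥ (G *ᵥ e)) * (v ⬝ᵥ (G *ᵥ f)) - (r ⬝ᵥ (G *ᵥ f)) * (v ⬝ᵥ (G *ᵥ e)) with hB
  have hd : M.det ∣ B := by
    have : M.det ^ 2 ∣ B ^ 2 := ⟨G.det, by rw [← hdet]; ring⟩
    exact (Int.pow_dvd_pow_iff (by norm_num)).mp this
  obtain ⟨c, hc⟩ := hd
  refine ⟨c, ?_⟩
  have hM2 : M.det * M.det ≠ 0 := mul_ne_zero hM hM
  apply mul_left_cancel₀ hM2
  have := hdet
  rw [hc] at this
  linear_combination this

/-- size 2.  An isotropic plane makes the determinant a square.  Proof: choose `i < j` with `r i * v j - r j * v i ≠ 0` and the two unit vectors `e, f` of the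
other two indices; `M` = matrix with columns `r, v, e, f` (or rows), `det M = ± (r i v j - r j v i) ≠ 0`;
`M^T G M = [[0, B], [B^T, C]]` has determinant `(det B) ^ 2`.  So `(det M) ^ 2 det G = (det B) ^ 2`, and an integer which is the
square of a rational is a square (`Int.pow_dvd_pow_iff`: `det M ∣ det B`). -/
theorem iso_square {G : Matrix (Fin 4) (Fin 4) ℤ} (hsym : ∀ i j, G i j = G j i)
    {r v : Fin 4 → ℤ} (hrr : r ⬝ᵥ (G *ᵥ r) = 0) (hvv : v ⬝ᵥ (G *ᵥ v) = 0) (hrv : r ⬝ᵥ (G *ᵥ v) = 0)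
    (hne : ∃ i j, r i * v j - r j * v i ≠ 0) : IsSquare G.det := by
  have hK := vx_key hsym hrr hvv hrv
  have det4 : ∀ e f : Fin 4 → ℤ, (Matrix.of ![r, v, e, f]).det =
      (r 0 * v 1 - r 1 * v 0) * (e 2 * f 3 - e 3 * f 2)
      - (r 0 * v 2 - r 2 * v 0) * (e 1 * f 3 - e 3 * f 1)
      + (r 0 * v 3 - r 3 * v 0) * (e 1 * f 2 - e 2 * f 1)
      + (r 1 * v 2 - r 2 * v 1) * (e 0 * f 3 - e 3 * f 0)
      - (r 1 * v 3 - r 3 * v 1) * (e 0 * f 2 - e 2 * f 0)
      + (r 2 * v 3 - r 3 * v 2) * (e 0 * f 1 - e 1 * f 0) := by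
    intro e f
    rw [Matrix.det_succ_row_zero]
    simp only [Fin.sum_univ_succ, Matrix.det_fin_three, Matrix.submatrix_apply]
    simp [Fin.succAbove]
    ring
  by_contra hcon
  have key : ∀ e f : Fin 4 → ℤ, (r 0 * v 1 - r 1 * v 0) * (e 2 * f 3 - e 3 * f 2)
      - (r 0 * v 2 - r 2 * v 0) * (e 1 * f 3 - e 3 * f 1)
      + (r 0 * v 3 - r 3 * v 0) * (e 1 * f 2 - e 2 * f 1)
      + (r 1 * v 2 - r 2 * v 1) * (e 0 * f 3 - e 3 * f 0)
      - (r 1 * v 3 - r 3 * v 1) * (e 0 * f 2 - e 2 * f 0)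
      + (r 2 * v 3 - r 3 * v 2) * (e 0 * f 1 - e 1 * f 0) = 0 := by
    intro e f
    rw [← det4]
    by_contra h
    exact hcon (hK e f h)
  have k01 : r 0 * v 1 - r 1 * v 0 = 0 := by
    have := key ![0, 0, 1, 0] ![0, 0, 0, 1]
    simpa using this
  have k02 : r 0 * v 2 - r 2 * v 0 = 0 := by
    have := key ![0, 0, 0, 1] ![0, 1, 0, 0]
    simpa using this
  have k03 : r 0 * v 3 - r 3 * v 0 = 0 := by
    have := key ![0, 1, 0, 0] ![0, 0, 1, 0]
    simpa using this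
  have k12 : r 1 * v 2 - r 2 * v 1 = 0 := by
    have := key ![1, 0, 0, 0] ![0, 0, 0, 1]
    simpa using this
  have k13 : r 1 * v 3 - r 3 * v 1 = 0 := by
    have := key ![0, 0, 1, 0] ![1, 0, 0, 0]
    simpa using this
  have k23 : r 2 * v 3 - r 3 * v 2 = 0 := by
    have := key ![1, 0, 0, 0] ![0, 1, 0, 0]
    simpa using this
  obtain ⟨i, j, hij⟩ := hne
  apply hij
  fin_cases i <;> fin_cases j <;> simp <;> linarith

private theorem vx_bez (c : Fin 4 → ℤ) (hc : Pr4 c) : ∃ a : Fin 4 → ℤ, ∑ i, c i * a i = 1 := by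
  obtain ⟨U, -, hU⟩ := ex_U c hc
  refine ⟨fun i => U i 3, ?_⟩
  have := congrFun hU 3
  simpa [vecMul, dotProduct] using this

private theorem vx_pm {v w : Fin 4 → ℤ} (hv : Pr4 v) (hw : Pr4 w)
    (h : ∀ j k, v j * w k = v k * w j) : w = v ∨ w = -v := by
  obtain ⟨a, ha⟩ := vx_bez v hv
  obtain ⟨b, hb⟩ := vx_bez w hw
  set t := ∑ i, w i * a i with ht
  set s := ∑ i, v i * b i with hs
  have hwt : ∀ k, w k = t * v k := by
    intro k
    calc w k = (∑ i, v i * a i) * w k := by rw [ha, one_mul]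
      _ = ∑ i, (v i * w k) * a i := by
          rw [Finset.sum_mul]
          exact Finset.sum_congr rfl fun i _ => by ring
      _ = ∑ i, (w i * a i) * v k := by
          exact Finset.sum_congr rfl fun i _ => by rw [h i k]; ring
      _ = t * v k := by rw [ht, Finset.sum_mul]
  have hvs : ∀ k, v k = s * w k := by
    intro k
    calc v k = (∑ i, w i * b i) * v k := by rw [hb, one_mul]
      _ = ∑ i, (w i * v k) * b i := by
          rw [Finset.sum_mul]
          exact Finset.sum_congr rfl fun i _ => by ring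
      _ = ∑ i, (v i * b i) * w k := by
          refine Finset.sum_congr rfl fun i _ => ?_
          have := h i k
          linear_combination (-b i) * this
      _ = s * w k := by rw [hs, Finset.sum_mul]
  have hst : s * t = 1 := by
    calc s * t = s * t * ∑ i, v i * a i := by rw [ha, mul_one]
      _ = ∑ i, (s * (t * v i)) * a i := by
          rw [Finset.mul_sum]
          exact Finset.sum_congr rfl fun i _ => by ring
      _ = ∑ i, v i * a i := by
          refine Finset.sum_congr rfl fun i _ => ?_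
          rw [← hwt i, ← hvs i]
      _ = 1 := ha
  have htu : t = 1 ∨ t = -1 := by
    have : IsUnit t := IsUnit.of_mul_eq_one s (by rw [mul_comm]; exact hst)
    exact Int.isUnit_iff.mp this
  rcases htu with h1 | h1
  · left
    funext k
    rw [hwt k, h1, one_mul]
  · right
    funext k
    rw [hwt k, h1]
    simp

/-- size 2-3.  If `D2 G m = 0` and `det G` is not a square then `m^perp` contains at most two primitive zeros of `G`.
Proof: let `r = adj G m` (`r ≠ 0` as `det G ≠ 0`, `m ≠ 0`): `G r = det G m`, so for `z` with `m.z = 0`: `z G r = 0`, and `r G r = det G (m . r) = det G D2 G m = 0`.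
A zero `v` in `m^perp` has `v G r = 0`; by `iso_square` all `r i v j - r j v i = 0`: `v` is proportional to `r`.  Primitive vectors proportional to the same nonzero vector:
two of them agree up to sign. -/
theorem vx {G : Matrix (Fin 4) (Fin 4) ℤ} (hsym : ∀ i j, G i j = G j i) (hdn : G.det ≠ 0)
    (hsq : ¬ IsSquare G.det) {m : Fin 4 → ℤ} (hm : m ≠ 0) (hD : D2 G m = 0)
    (V : Finset (Fin 4 → ℤ)) (hV : ∀ v ∈ V, Pr4 v ∧ v ⬝ᵥ (G *ᵥ v) = 0 ∧ m ⬝ᵥ v = 0) :
    V.card ≤ 2 := by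
  classical
  set r : Fin 4 → ℤ := G.adjugate *ᵥ m with hr
  have hGr : G *ᵥ r = G.det • m := by
    rw [hr, Matrix.mulVec_mulVec, Matrix.mul_adjugate, Matrix.smul_mulVec, Matrix.one_mulVec]
  have hr0 : r ≠ 0 := by
    intro h
    rw [h, Matrix.mulVec_zero] at hGr
    rcases smul_eq_zero.mp hGr.symm with h1 | h1
    · exact hdn h1
    · exact hm h1
  have hrr : r ⬝ᵥ (G *ᵥ r) = 0 := by
    rw [hGr, dotProduct_smul, dotProduct_comm]
    have : m ⬝ᵥ r = 0 := hD
    rw [this, smul_zero]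
  obtain ⟨i0, hi0⟩ : ∃ i, r i ≠ 0 := by
    by_contra hcon
    push Not at hcon
    exact hr0 (funext hcon)
  have hprop : ∀ v ∈ V, ∀ i j, r i * v j = r j * v i := by
    intro v hv
    obtain ⟨-, hvv, hmv⟩ := hV v hv
    have hvr : v ⬝ᵥ (G *ᵥ r) = 0 := by
      rw [hGr, dotProduct_smul, dotProduct_comm, hmv, smul_zero]
    have hrv : r ⬝ᵥ (G *ᵥ v) = 0 := by
      have hT : Gᵀ = G := by
        ext i j
        exact hsym j i
      rw [Matrix.dotProduct_mulVec, ← Matrix.mulVec_transpose, hT, dotProduct_comm]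
      exact hvr
    by_contra hcon
    push Not at hcon
    obtain ⟨i, j, hij⟩ := hcon
    exact hsq (iso_square hsym hrr hvv hrv ⟨i, j, sub_ne_zero.mpr hij⟩)
  have hpm : ∀ v ∈ V, ∀ w ∈ V, w = v ∨ w = -v := by
    intro v hv w hw
    refine vx_pm (hV v hv).1 (hV w hw).1 ?_
    intro j k
    have e1 := hprop v hv i0 j
    have e2 := hprop w hw i0 k
    have e3 := hprop v hv i0 k
    have e4 := hprop w hw i0 j
    have hne : r i0 * r i0 ≠ 0 := mul_ne_zero hi0 hi0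
    apply mul_left_cancel₀ hne
    calc r i0 * r i0 * (v j * w k) = (r i0 * v j) * (r i0 * w k) := by ring
      _ = (r j * v i0) * (r k * w i0) := by rw [e1, e2]
      _ = (r k * v i0) * (r j * w i0) := by ring
      _ = (r i0 * v k) * (r i0 * w j) := by rw [e3, e4]
      _ = r i0 * r i0 * (v k * w j) := by ring
  rcases V.eq_empty_or_nonempty with h | ⟨v, hv⟩
  · rw [h]; simp
  · have hsub : V ⊆ {v, -v} := by
      intro w hw
      rcases hpm v hv w hw with h | h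
      · rw [h]; simp
      · rw [h]; simp
    exact (Finset.card_le_card hsub).trans Finset.card_le_two

end Pool.Agent.PP5Q
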