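import Pool.Agent.PP5Q.Nx
import Pool.Agent.PP5P.Nd

/-!
# PP5 (D'): theorem nx1 in the form of the exceptional part
-/

set_option autoImplicit false

namespace Pool.Agent.PP5Q

open Matrix Finset Pool.Agent.PP5B Pool.Agent.PP5P Pool.Agent.PP5

theorem nx1_iff : NX1 := by
  intro c hc C0 hC0
  obtain ⟨C, hC, h⟩ := nx1 c hc C0 hC0
  refine ⟨C, hC, ?_⟩
  intro G hsym hev hsq l T Y H U p hY hlo hup hm hT1 hT2 hH0 hHY hU1 hU2 hG hp hmr V hV
  have hY0 : 0 < Y := by linarith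
  have hT0 : 0 < T := lt_of_lt_of_le (by positivity) hT1
  have hU0 : 0 < U := lt_of_lt_of_le (by positivity) hU1
  have hlp : ∀ i, 0 < l i := fun i => lt_of_lt_of_le (by positivity) (hlo i)
  have hdn : G.det ≠ 0 := by
    intro h0
    exact hsq ⟨0, by rw [h0]; ring⟩
  have hgh : GH C0 T G l := ⟨hsym, hev, hdn, hlp, hm.1, hm.2.1, hm.2.2, hT0, hG⟩
  have hlam : 0 < ∏ i, l i := Finset.prod_pos fun i _ => hlp i
  have hdp : 0 < |(G.det : ℝ)| := abs_pos.mpr (by exact_mod_cast hdn)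
  have hg : √(|((G.det : ℤ) : ℝ)| * T ^ 4 / (∏ i, l i) ^ 2) = √|(G.det : ℝ)| * T ^ 2 / ∏ i, l i := by
    rw [Real.sqrt_div' _ (by positivity), Real.sqrt_mul' _ (by positivity), Real.sqrt_sq hlam.le,
      show T ^ 4 = (T ^ 2) ^ 2 by ring, Real.sqrt_sq (by positivity)]
  have hfac : H * T / ((∏ i, l i) * √(|((G.det : ℤ) : ℝ)| * T ^ 4 / (∏ i, l i) ^ 2))
      = H / (T * √|(G.det : ℝ)|) := by
    have h2 : 0 < √|(G.det : ℝ)| := Real.sqrt_pos.mpr hdp
    rw [hg]
    field_simp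
  rcases hH0.eq_or_lt with h0 | h0
  · have hVe : V = ∅ := by
      by_contra hne
      obtain ⟨v, hv⟩ := Finset.nonempty_iff_ne_empty.mpr hne
      obtain ⟨h1, _, h3⟩ := hV v hv
      apply h1 2 Nat.prime_two
      intro i
      have h4 := h3 i
      rw [← h0] at h4
      have h5 : |(v i : ℝ)| = 0 := by
        by_contra h6
        have h7 : 0 < |(v i : ℝ)| := lt_of_le_of_ne (abs_nonneg _) (Ne.symm h6)
        have := mul_pos h7 (hlp i)
        linarith
      have h6 : v i = 0 := by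
        rw [abs_eq_zero] at h5
        exact_mod_cast h5
      rw [h6]; exact dvd_zero _
    rw [hVe]
    simp only [Finset.card_empty, Nat.cast_zero]
    have hA : (0 : ℝ) ≤ (PP5N.mi2 G : ℝ) := Nat.cast_nonneg _
    have hl3 := (hlp 3).le
    have hl2 := (hlp 2).le
    have hl0 := (hlp 0).le
    unfold Mp
    have h7 : 0 ≤ ∏ i, (1 + √(H / ((∏ i, l i) * U)) * l i) := Finset.prod_nonneg fun i _ => by
      have := (hlp i).le
      positivity
    positivity
  · have h1 := h G l T Y H U p hgh hsq hY hup hlo hT1 h0 hHY hU1 hU2 hp hmr V hV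
    refine h1.trans (le_of_eq ?_)
    unfold Mp
    rw [hfac]
    ring

end Pool.Agent.PP5Q
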