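import Pool.Agent.PP5Q.Defs

set_option autoImplicit false
set_option linter.unusedSimpArgs false

namespace Pool.Agent.PP5Q

open Matrix Finset Pool.Agent.PP5B

/-- the 2 x 2 minor (rows `i, j`, columns `k, l`) -/
private def mn2 {R : Type*} [CommRing R] {ι κ : Type*} (A : Matrix ι κ R) (i j : ι) (k l : κ) : R :=
  A i k * A j l - A i l * A j k

section

variable {R : Type*} [CommRing R] (A : Matrix (Fin 4) (Fin 4) R)

private theorem det4 : A.det =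
    A 0 0 * (A 1 1 * (A 2 2 * A 3 3 - A 2 3 * A 3 2) - A 1 2 * (A 2 1 * A 3 3 - A 2 3 * A 3 1) +
      A 1 3 * (A 2 1 * A 3 2 - A 2 2 * A 3 1)) -
    A 0 1 * (A 1 0 * (A 2 2 * A 3 3 - A 2 3 * A 3 2) - A 1 2 * (A 2 0 * A 3 3 - A 2 3 * A 3 0) +
      A 1 3 * (A 2 0 * A 3 2 - A 2 2 * A 3 0)) +
    A 0 2 * (A 1 0 * (A 2 1 * A 3 3 - A 2 3 * A 3 1) - A 1 1 * (A 2 0 * A 3 3 - A 2 3 * A 3 0) +
      A 1 3 * (A 2 0 * A 3 1 - A 2 1 * A 3 0)) -
    A 0 3 * (A 1 0 * (A 2 1 * A 3 2 - A 2 2 * A 3 1) - A 1 1 * (A 2 0 * A 3 2 - A 2 2 * A 3 0) +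
      A 1 2 * (A 2 0 * A 3 1 - A 2 1 * A 3 0)) := by
  simp [Matrix.det_succ_row_zero, Fin.sum_univ_succ, Fin.succAbove]
  ring

private theorem a00 : A.adjugate 0 0 =
    (A 1 1 * (A 2 2 * A 3 3 - A 2 3 * A 3 2) - A 1 2 * (A 2 1 * A 3 3 - A 2 3 * A 3 1) + A 1 3 * (A 2 1 * A 3 2 - A 2 2 * A 3 1)) := by
  rw [Matrix.adjugate_fin_succ_eq_det_submatrix, Matrix.det_fin_three]
  simp [Fin.succAbove]
  ring

private theorem a01 : A.adjugate 0 1 =
    -(A 0 1 * (A 2 2 * A 3 3 - A 2 3 * A 3 2) - A 0 2 * (A 2 1 * A 3 3 - A 2 3 * A 3 1) + A 0 3 * (A 2 1 * A 3 2 - A 2 2 * A 3 1)) := by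
  rw [Matrix.adjugate_fin_succ_eq_det_submatrix, Matrix.det_fin_three]
  simp [Fin.succAbove]
  ring

private theorem a02 : A.adjugate 0 2 =
    (A 0 1 * (A 1 2 * A 3 3 - A 1 3 * A 3 2) - A 0 2 * (A 1 1 * A 3 3 - A 1 3 * A 3 1) + A 0 3 * (A 1 1 * A 3 2 - A 1 2 * A 3 1)) := by
  rw [Matrix.adjugate_fin_succ_eq_det_submatrix, Matrix.det_fin_three]
  simp [Fin.succAbove]
  ring

private theorem a03 : A.adjugate 0 3 =
    -(A 0 1 * (A 1 2 * A 2 3 - A 1 3 * A 2 2) - A 0 2 * (A 1 1 * A 2 3 - A 1 3 * A 2 1) + A 0 3 * (A 1 1 * A 2 2 - A 1 2 * A 2 1)) := by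
  rw [Matrix.adjugate_fin_succ_eq_det_submatrix, Matrix.det_fin_three]
  simp [Fin.succAbove]
  ring

private theorem a10 : A.adjugate 1 0 =
    -(A 1 0 * (A 2 2 * A 3 3 - A 2 3 * A 3 2) - A 1 2 * (A 2 0 * A 3 3 - A 2 3 * A 3 0) + A 1 3 * (A 2 0 * A 3 2 - A 2 2 * A 3 0)) := by
  rw [Matrix.adjugate_fin_succ_eq_det_submatrix, Matrix.det_fin_three]
  simp [Fin.succAbove]
  ring

private theorem a11 : A.adjugate 1 1 =
    (A 0 0 * (A 2 2 * A 3 3 - A 2 3 * A 3 2) - A 0 2 * (A 2 0 * A 3 3 - A 2 3 * A 3 0) + A 0 3 * (A 2 0 * A 3 2 - A 2 2 * A 3 0)) := by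
  rw [Matrix.adjugate_fin_succ_eq_det_submatrix, Matrix.det_fin_three]
  simp [Fin.succAbove]
  ring

private theorem a12 : A.adjugate 1 2 =
    -(A 0 0 * (A 1 2 * A 3 3 - A 1 3 * A 3 2) - A 0 2 * (A 1 0 * A 3 3 - A 1 3 * A 3 0) + A 0 3 * (A 1 0 * A 3 2 - A 1 2 * A 3 0)) := by
  rw [Matrix.adjugate_fin_succ_eq_det_submatrix, Matrix.det_fin_three]
  simp [Fin.succAbove]
  ring

private theorem a13 : A.adjugate 1 3 =
    (A 0 0 * (A 1 2 * A 2 3 - A 1 3 * A 2 2) - A 0 2 * (A 1 0 * A 2 3 - A 1 3 * A 2 0) + A 0 3 * (A 1 0 * A 2 2 - A 1 2 * A 2 0)) := by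
  rw [Matrix.adjugate_fin_succ_eq_det_submatrix, Matrix.det_fin_three]
  simp [Fin.succAbove]
  ring

private theorem a20 : A.adjugate 2 0 =
    (A 1 0 * (A 2 1 * A 3 3 - A 2 3 * A 3 1) - A 1 1 * (A 2 0 * A 3 3 - A 2 3 * A 3 0) + A 1 3 * (A 2 0 * A 3 1 - A 2 1 * A 3 0)) := by
  rw [Matrix.adjugate_fin_succ_eq_det_submatrix, Matrix.det_fin_three]
  simp [Fin.succAbove]
  ring

private theorem a21 : A.adjugate 2 1 =
    -(A 0 0 * (A 2 1 * A 3 3 - A 2 3 * A 3 1) - A 0 1 * (A 2 0 * A 3 3 - A 2 3 * A 3 0) + A 0 3 * (A 2 0 * A 3 1 - A 2 1 * A 3 0)) := by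
  rw [Matrix.adjugate_fin_succ_eq_det_submatrix, Matrix.det_fin_three]
  simp [Fin.succAbove]
  ring

private theorem a22 : A.adjugate 2 2 =
    (A 0 0 * (A 1 1 * A 3 3 - A 1 3 * A 3 1) - A 0 1 * (A 1 0 * A 3 3 - A 1 3 * A 3 0) + A 0 3 * (A 1 0 * A 3 1 - A 1 1 * A 3 0)) := by
  rw [Matrix.adjugate_fin_succ_eq_det_submatrix, Matrix.det_fin_three]
  simp [Fin.succAbove]
  ring

private theorem a23 : A.adjugate 2 3 =
    -(A 0 0 * (A 1 1 * A 2 3 - A 1 3 * A 2 1) - A 0 1 * (A 1 0 * A 2 3 - A 1 3 * A 2 0) + A 0 3 * (A 1 0 * A 2 1 - A 1 1 * A 2 0)) := by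
  rw [Matrix.adjugate_fin_succ_eq_det_submatrix, Matrix.det_fin_three]
  simp [Fin.succAbove]
  ring

private theorem a30 : A.adjugate 3 0 =
    -(A 1 0 * (A 2 1 * A 3 2 - A 2 2 * A 3 1) - A 1 1 * (A 2 0 * A 3 2 - A 2 2 * A 3 0) + A 1 2 * (A 2 0 * A 3 1 - A 2 1 * A 3 0)) := by
  rw [Matrix.adjugate_fin_succ_eq_det_submatrix, Matrix.det_fin_three]
  simp [Fin.succAbove]
  ring

private theorem a31 : A.adjugate 3 1 =
    (A 0 0 * (A 2 1 * A 3 2 - A 2 2 * A 3 1) - A 0 1 * (A 2 0 * A 3 2 - A 2 2 * A 3 0) + A 0 2 * (A 2 0 * A 3 1 - A 2 1 * A 3 0)) := by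
  rw [Matrix.adjugate_fin_succ_eq_det_submatrix, Matrix.det_fin_three]
  simp [Fin.succAbove]
  ring

private theorem a32 : A.adjugate 3 2 =
    -(A 0 0 * (A 1 1 * A 3 2 - A 1 2 * A 3 1) - A 0 1 * (A 1 0 * A 3 2 - A 1 2 * A 3 0) + A 0 2 * (A 1 0 * A 3 1 - A 1 1 * A 3 0)) := by
  rw [Matrix.adjugate_fin_succ_eq_det_submatrix, Matrix.det_fin_three]
  simp [Fin.succAbove]
  ring

private theorem a33 : A.adjugate 3 3 =
    (A 0 0 * (A 1 1 * A 2 2 - A 1 2 * A 2 1) - A 0 1 * (A 1 0 * A 2 2 - A 1 2 * A 2 0) + A 0 2 * (A 1 0 * A 2 1 - A 1 1 * A 2 0)) := by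
  rw [Matrix.adjugate_fin_succ_eq_det_submatrix, Matrix.det_fin_three]
  simp [Fin.succAbove]
  ring

private theorem m0101 : mn2 A.adjugate 0 1 0 1 =
    A.det * (mn2 A 2 3 2 3) := by
  unfold mn2
  rw [det4, a00, a01, a10, a11]
  ring

private theorem m0102 : mn2 A.adjugate 0 1 0 2 =
    A.det * (-mn2 A 1 3 2 3) := by
  unfold mn2
  rw [det4, a00, a02, a10, a12]
  ring

private theorem m0103 : mn2 A.adjugate 0 1 0 3 =
    A.det * (mn2 A 1 2 2 3) := by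
  unfold mn2
  rw [det4, a00, a03, a10, a13]
  ring

private theorem m0112 : mn2 A.adjugate 0 1 1 2 =
    A.det * (mn2 A 0 3 2 3) := by
  unfold mn2
  rw [det4, a01, a02, a11, a12]
  ring

private theorem m0113 : mn2 A.adjugate 0 1 1 3 =
    A.det * (-mn2 A 0 2 2 3) := by
  unfold mn2
  rw [det4, a01, a03, a11, a13]
  ring

private theorem m0123 : mn2 A.adjugate 0 1 2 3 =
    A.det * (mn2 A 0 1 2 3) := by
  unfold mn2
  rw [det4, a02, a03, a12, a13]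
  ring

private theorem m0201 : mn2 A.adjugate 0 2 0 1 =
    A.det * (-mn2 A 2 3 1 3) := by
  unfold mn2
  rw [det4, a00, a01, a20, a21]
  ring

private theorem m0202 : mn2 A.adjugate 0 2 0 2 =
    A.det * (mn2 A 1 3 1 3) := by
  unfold mn2
  rw [det4, a00, a02, a20, a22]
  ring

private theorem m0203 : mn2 A.adjugate 0 2 0 3 =
    A.det * (-mn2 A 1 2 1 3) := by
  unfold mn2
  rw [det4, a00, a03, a20, a23]
  ring

private theorem m0212 : mn2 A.adjugate 0 2 1 2 =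
    A.det * (-mn2 A 0 3 1 3) := by
  unfold mn2
  rw [det4, a01, a02, a21, a22]
  ring

private theorem m0213 : mn2 A.adjugate 0 2 1 3 =
    A.det * (mn2 A 0 2 1 3) := by
  unfold mn2
  rw [det4, a01, a03, a21, a23]
  ring

private theorem m0223 : mn2 A.adjugate 0 2 2 3 =
    A.det * (-mn2 A 0 1 1 3) := by
  unfold mn2
  rw [det4, a02, a03, a22, a23]
  ring

private theorem m0301 : mn2 A.adjugate 0 3 0 1 =
    A.det * (mn2 A 2 3 1 2) := by
  unfold mn2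
  rw [det4, a00, a01, a30, a31]
  ring

private theorem m0302 : mn2 A.adjugate 0 3 0 2 =
    A.det * (-mn2 A 1 3 1 2) := by
  unfold mn2
  rw [det4, a00, a02, a30, a32]
  ring

private theorem m0303 : mn2 A.adjugate 0 3 0 3 =
    A.det * (mn2 A 1 2 1 2) := by
  unfold mn2
  rw [det4, a00, a03, a30, a33]
  ring

private theorem m0312 : mn2 A.adjugate 0 3 1 2 =
    A.det * (mn2 A 0 3 1 2) := by
  unfold mn2
  rw [det4, a01, a02, a31, a32]
  ring

private theorem m0313 : mn2 A.adjugate 0 3 1 3 =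
    A.det * (-mn2 A 0 2 1 2) := by
  unfold mn2
  rw [det4, a01, a03, a31, a33]
  ring

private theorem m0323 : mn2 A.adjugate 0 3 2 3 =
    A.det * (mn2 A 0 1 1 2) := by
  unfold mn2
  rw [det4, a02, a03, a32, a33]
  ring

private theorem m1201 : mn2 A.adjugate 1 2 0 1 =
    A.det * (mn2 A 2 3 0 3) := by
  unfold mn2
  rw [det4, a10, a11, a20, a21]
  ring

private theorem m1202 : mn2 A.adjugate 1 2 0 2 =
    A.det * (-mn2 A 1 3 0 3) := by
  unfold mn2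
  rw [det4, a10, a12, a20, a22]
  ring

private theorem m1203 : mn2 A.adjugate 1 2 0 3 =
    A.det * (mn2 A 1 2 0 3) := by
  unfold mn2
  rw [det4, a10, a13, a20, a23]
  ring

private theorem m1212 : mn2 A.adjugate 1 2 1 2 =
    A.det * (mn2 A 0 3 0 3) := by
  unfold mn2
  rw [det4, a11, a12, a21, a22]
  ring

private theorem m1213 : mn2 A.adjugate 1 2 1 3 =
    A.det * (-mn2 A 0 2 0 3) := by
  unfold mn2
  rw [det4, a11, a13, a21, a23]
  ring

private theorem m1223 : mn2 A.adjugate 1 2 2 3 =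
    A.det * (mn2 A 0 1 0 3) := by
  unfold mn2
  rw [det4, a12, a13, a22, a23]
  ring

private theorem m1301 : mn2 A.adjugate 1 3 0 1 =
    A.det * (-mn2 A 2 3 0 2) := by
  unfold mn2
  rw [det4, a10, a11, a30, a31]
  ring

private theorem m1302 : mn2 A.adjugate 1 3 0 2 =
    A.det * (mn2 A 1 3 0 2) := by
  unfold mn2
  rw [det4, a10, a12, a30, a32]
  ring

private theorem m1303 : mn2 A.adjugate 1 3 0 3 =
    A.det * (-mn2 A 1 2 0 2) := by
  unfold mn2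
  rw [det4, a10, a13, a30, a33]
  ring

private theorem m1312 : mn2 A.adjugate 1 3 1 2 =
    A.det * (-mn2 A 0 3 0 2) := by
  unfold mn2
  rw [det4, a11, a12, a31, a32]
  ring

private theorem m1313 : mn2 A.adjugate 1 3 1 3 =
    A.det * (mn2 A 0 2 0 2) := by
  unfold mn2
  rw [det4, a11, a13, a31, a33]
  ring

private theorem m1323 : mn2 A.adjugate 1 3 2 3 =
    A.det * (-mn2 A 0 1 0 2) := by
  unfold mn2
  rw [det4, a12, a13, a32, a33]
  ring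

private theorem m2301 : mn2 A.adjugate 2 3 0 1 =
    A.det * (mn2 A 2 3 0 1) := by
  unfold mn2
  rw [det4, a20, a21, a30, a31]
  ring

private theorem m2302 : mn2 A.adjugate 2 3 0 2 =
    A.det * (-mn2 A 1 3 0 1) := by
  unfold mn2
  rw [det4, a20, a22, a30, a32]
  ring

private theorem m2303 : mn2 A.adjugate 2 3 0 3 =
    A.det * (mn2 A 1 2 0 1) := by
  unfold mn2
  rw [det4, a20, a23, a30, a33]
  ring

private theorem m2312 : mn2 A.adjugate 2 3 1 2 =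
    A.det * (mn2 A 0 3 0 1) := by
  unfold mn2
  rw [det4, a21, a22, a31, a32]
  ring

private theorem m2313 : mn2 A.adjugate 2 3 1 3 =
    A.det * (-mn2 A 0 2 0 1) := by
  unfold mn2
  rw [det4, a21, a23, a31, a33]
  ring

private theorem m2323 : mn2 A.adjugate 2 3 2 3 =
    A.det * (mn2 A 0 1 0 1) := by
  unfold mn2
  rw [det4, a22, a23, a32, a33]
  ring


private theorem mi_gen {n : R} (h : ∀ i j, n ∣ A.adjugate i j) (a b c d : Fin 4) :
    n ^ 2 ∣ mn2 A.adjugate a b c d := by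
  unfold mn2
  rw [pow_two]
  exact dvd_sub (mul_dvd_mul (h a c) (h b d)) (mul_dvd_mul (h a d) (h b c))

private theorem q01 {n : R} (h : ∀ i j, n ∣ A.adjugate i j) (k l : Fin 4) (hkl : k < l) :
    n ^ 2 ∣ A.det * mn2 A 0 1 k l := by
  fin_cases k <;> fin_cases l <;> (try exact absurd hkl (by decide))
  · show n ^ 2 ∣ A.det * mn2 A 0 1 0 1
    rw [← m2323]
    exact mi_gen A h 2 3 2 3
  · show n ^ 2 ∣ A.det * mn2 A 0 1 0 2
    have e := m1323 A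
    rw [mul_neg] at e
    rw [← dvd_neg, ← e]
    exact mi_gen A h 1 3 2 3
  · show n ^ 2 ∣ A.det * mn2 A 0 1 0 3
    rw [← m1223]
    exact mi_gen A h 1 2 2 3
  · show n ^ 2 ∣ A.det * mn2 A 0 1 1 2
    rw [← m0323]
    exact mi_gen A h 0 3 2 3
  · show n ^ 2 ∣ A.det * mn2 A 0 1 1 3
    have e := m0223 A
    rw [mul_neg] at e
    rw [← dvd_neg, ← e]
    exact mi_gen A h 0 2 2 3
  · show n ^ 2 ∣ A.det * mn2 A 0 1 2 3
    rw [← m0123]
    exact mi_gen A h 0 1 2 3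

private theorem q02 {n : R} (h : ∀ i j, n ∣ A.adjugate i j) (k l : Fin 4) (hkl : k < l) :
    n ^ 2 ∣ A.det * mn2 A 0 2 k l := by
  fin_cases k <;> fin_cases l <;> (try exact absurd hkl (by decide))
  · show n ^ 2 ∣ A.det * mn2 A 0 2 0 1
    have e := m2313 A
    rw [mul_neg] at e
    rw [← dvd_neg, ← e]
    exact mi_gen A h 2 3 1 3
  · show n ^ 2 ∣ A.det * mn2 A 0 2 0 2
    rw [← m1313]
    exact mi_gen A h 1 3 1 3
  · show n ^ 2 ∣ A.det * mn2 A 0 2 0 3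
    have e := m1213 A
    rw [mul_neg] at e
    rw [← dvd_neg, ← e]
    exact mi_gen A h 1 2 1 3
  · show n ^ 2 ∣ A.det * mn2 A 0 2 1 2
    have e := m0313 A
    rw [mul_neg] at e
    rw [← dvd_neg, ← e]
    exact mi_gen A h 0 3 1 3
  · show n ^ 2 ∣ A.det * mn2 A 0 2 1 3
    rw [← m0213]
    exact mi_gen A h 0 2 1 3
  · show n ^ 2 ∣ A.det * mn2 A 0 2 2 3
    have e := m0113 A
    rw [mul_neg] at e
    rw [← dvd_neg, ← e]
    exact mi_gen A h 0 1 1 3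

private theorem q03 {n : R} (h : ∀ i j, n ∣ A.adjugate i j) (k l : Fin 4) (hkl : k < l) :
    n ^ 2 ∣ A.det * mn2 A 0 3 k l := by
  fin_cases k <;> fin_cases l <;> (try exact absurd hkl (by decide))
  · show n ^ 2 ∣ A.det * mn2 A 0 3 0 1
    rw [← m2312]
    exact mi_gen A h 2 3 1 2
  · show n ^ 2 ∣ A.det * mn2 A 0 3 0 2
    have e := m1312 A
    rw [mul_neg] at e
    rw [← dvd_neg, ← e]
    exact mi_gen A h 1 3 1 2
  · show n ^ 2 ∣ A.det * mn2 A 0 3 0 3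
    rw [← m1212]
    exact mi_gen A h 1 2 1 2
  · show n ^ 2 ∣ A.det * mn2 A 0 3 1 2
    rw [← m0312]
    exact mi_gen A h 0 3 1 2
  · show n ^ 2 ∣ A.det * mn2 A 0 3 1 3
    have e := m0212 A
    rw [mul_neg] at e
    rw [← dvd_neg, ← e]
    exact mi_gen A h 0 2 1 2
  · show n ^ 2 ∣ A.det * mn2 A 0 3 2 3
    rw [← m0112]
    exact mi_gen A h 0 1 1 2

private theorem q12 {n : R} (h : ∀ i j, n ∣ A.adjugate i j) (k l : Fin 4) (hkl : k < l) :
    n ^ 2 ∣ A.det * mn2 A 1 2 k l := by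
  fin_cases k <;> fin_cases l <;> (try exact absurd hkl (by decide))
  · show n ^ 2 ∣ A.det * mn2 A 1 2 0 1
    rw [← m2303]
    exact mi_gen A h 2 3 0 3
  · show n ^ 2 ∣ A.det * mn2 A 1 2 0 2
    have e := m1303 A
    rw [mul_neg] at e
    rw [← dvd_neg, ← e]
    exact mi_gen A h 1 3 0 3
  · show n ^ 2 ∣ A.det * mn2 A 1 2 0 3
    rw [← m1203]
    exact mi_gen A h 1 2 0 3
  · show n ^ 2 ∣ A.det * mn2 A 1 2 1 2
    rw [← m0303]
    exact mi_gen A h 0 3 0 3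
  · show n ^ 2 ∣ A.det * mn2 A 1 2 1 3
    have e := m0203 A
    rw [mul_neg] at e
    rw [← dvd_neg, ← e]
    exact mi_gen A h 0 2 0 3
  · show n ^ 2 ∣ A.det * mn2 A 1 2 2 3
    rw [← m0103]
    exact mi_gen A h 0 1 0 3

private theorem q13 {n : R} (h : ∀ i j, n ∣ A.adjugate i j) (k l : Fin 4) (hkl : k < l) :
    n ^ 2 ∣ A.det * mn2 A 1 3 k l := by
  fin_cases k <;> fin_cases l <;> (try exact absurd hkl (by decide))
  · show n ^ 2 ∣ A.det * mn2 A 1 3 0 1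
    have e := m2302 A
    rw [mul_neg] at e
    rw [← dvd_neg, ← e]
    exact mi_gen A h 2 3 0 2
  · show n ^ 2 ∣ A.det * mn2 A 1 3 0 2
    rw [← m1302]
    exact mi_gen A h 1 3 0 2
  · show n ^ 2 ∣ A.det * mn2 A 1 3 0 3
    have e := m1202 A
    rw [mul_neg] at e
    rw [← dvd_neg, ← e]
    exact mi_gen A h 1 2 0 2
  · show n ^ 2 ∣ A.det * mn2 A 1 3 1 2
    have e := m0302 A
    rw [mul_neg] at e
    rw [← dvd_neg, ← e]
    exact mi_gen A h 0 3 0 2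
  · show n ^ 2 ∣ A.det * mn2 A 1 3 1 3
    rw [← m0202]
    exact mi_gen A h 0 2 0 2
  · show n ^ 2 ∣ A.det * mn2 A 1 3 2 3
    have e := m0102 A
    rw [mul_neg] at e
    rw [← dvd_neg, ← e]
    exact mi_gen A h 0 1 0 2

private theorem q23 {n : R} (h : ∀ i j, n ∣ A.adjugate i j) (k l : Fin 4) (hkl : k < l) :
    n ^ 2 ∣ A.det * mn2 A 2 3 k l := by
  fin_cases k <;> fin_cases l <;> (try exact absurd hkl (by decide))
  · show n ^ 2 ∣ A.det * mn2 A 2 3 0 1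
    rw [← m2301]
    exact mi_gen A h 2 3 0 1
  · show n ^ 2 ∣ A.det * mn2 A 2 3 0 2
    have e := m1301 A
    rw [mul_neg] at e
    rw [← dvd_neg, ← e]
    exact mi_gen A h 1 3 0 1
  · show n ^ 2 ∣ A.det * mn2 A 2 3 0 3
    rw [← m1201]
    exact mi_gen A h 1 2 0 1
  · show n ^ 2 ∣ A.det * mn2 A 2 3 1 2
    rw [← m0301]
    exact mi_gen A h 0 3 0 1
  · show n ^ 2 ∣ A.det * mn2 A 2 3 1 3
    have e := m0201 A
    rw [mul_neg] at e
    rw [← dvd_neg, ← e]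
    exact mi_gen A h 0 2 0 1
  · show n ^ 2 ∣ A.det * mn2 A 2 3 2 3
    rw [← m0101]
    exact mi_gen A h 0 1 0 1

private theorem qlt {n : R} (h : ∀ i j, n ∣ A.adjugate i j) (i j k l : Fin 4) (hij : i < j)
    (hkl : k < l) : n ^ 2 ∣ A.det * mn2 A i j k l := by
  fin_cases i <;> fin_cases j <;> (try exact absurd hij (by decide))
  · exact q01 A h k l hkl
  · exact q02 A h k l hkl
  · exact q03 A h k l hkl
  · exact q12 A h k l hkl
  · exact q13 A h k l hkl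
  · exact q23 A h k l hkl

private theorem qcol {n : R} (h : ∀ i j, n ∣ A.adjugate i j) (i j k l : Fin 4) (hij : i < j) :
    n ^ 2 ∣ A.det * mn2 A i j k l := by
  rcases lt_trichotomy k l with hkl | hkl | hkl
  · exact qlt A h i j k l hij hkl
  · subst hkl
    have e : mn2 A i j k k = 0 := by unfold mn2; ring
    rw [e, mul_zero]
    exact dvd_zero _
  · have e : mn2 A i j k l = - mn2 A i j l k := by unfold mn2; ring
    rw [e, mul_neg, dvd_neg]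
    exact qlt A h i j l k hij hkl

private theorem qall {n : R} (h : ∀ i j, n ∣ A.adjugate i j) (i j k l : Fin 4) :
    n ^ 2 ∣ A.det * mn2 A i j k l := by
  rcases lt_trichotomy i j with hij | hij | hij
  · exact qcol A h i j k l hij
  · subst hij
    have e : mn2 A i i k l = 0 := by unfold mn2; ring
    rw [e, mul_zero]
    exact dvd_zero _
  · have e : mn2 A i j k l = - mn2 A j i k l := by unfold mn2; ring
    rw [e, mul_neg, dvd_neg]
    exact qcol A h j i k l hij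

end

private lemma mi_mi2 {G : Matrix (Fin 4) (Fin 4) ℤ} (hdet : G.det ≠ 0) : PP5N.mi2 G ≠ 0 := by
  intro h0
  apply hdet
  have h : ∀ i i' k k', G i k * G i' k' - G i k' * G i' k = 0 := by
    intro i i' k k'
    have h1 := PP5N.mi2_dvd G i i' k k'
    rw [h0] at h1
    exact zero_dvd_iff.mp (by simpa using h1)
  have e : G.det = (G 0 0 * G 1 1 - G 0 1 * G 1 0) * (G 2 2 * G 3 3 - G 2 3 * G 3 2)
      - (G 0 0 * G 1 2 - G 0 2 * G 1 0) * (G 2 1 * G 3 3 - G 2 3 * G 3 1)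
      + (G 0 0 * G 1 3 - G 0 3 * G 1 0) * (G 2 1 * G 3 2 - G 2 2 * G 3 1)
      + (G 0 1 * G 1 2 - G 0 2 * G 1 1) * (G 2 0 * G 3 3 - G 2 3 * G 3 0)
      - (G 0 1 * G 1 3 - G 0 3 * G 1 1) * (G 2 0 * G 3 2 - G 2 2 * G 3 0)
      + (G 0 2 * G 1 3 - G 0 3 * G 1 2) * (G 2 0 * G 3 1 - G 2 1 * G 3 0) := by
    rw [det4 G]
    ring
  rw [e, h 0 1 0 1, h 0 1 0 2, h 0 1 0 3, h 0 1 1 2, h 0 1 1 3, h 0 1 2 3]
  ring

/-- size 2-3.  `mi3` divides all entries of `adj G`, so `mi3 ^ 2` divides all `2 x 2` minors of `adj G`, and these are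
`±` the complementary `2 x 2` minors of `G` times `det G` (helper45 has the `2 x 2` minors of the adjugate in pp5m_D1a.lean); every minor
`G i k G i' k' - G i k' G i' k` with `i ≠ i'`, `k ≠ k'` occurs (the others are `0`).  Hence `mi3 ^ 2` divides `|det G|` times every minor, hence
their gcd `|det G| * mi2` (`Finset.gcd_mul_left`). -/
theorem mi3_sq (G : Matrix (Fin 4) (Fin 4) ℤ) :
    ((PP5N.mi3 G : ℤ)) ^ 2 ∣ (PP5N.mi2 G : ℤ) * G.det := by
  have h : ∀ i i' k k', (PP5N.mi3 G) ^ 2 ∣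
      G.det.natAbs * (G i k * G i' k' - G i k' * G i' k).natAbs := by
    intro i i' k k'
    have h1 := qall G (PP5N.mi3_dvd G) i i' k k'
    unfold mn2 at h1
    rw [← Int.natAbs_mul]
    exact Int.natCast_dvd.1 (by push_cast; exact h1)
  have h2 : (PP5N.mi3 G) ^ 2 ∣ G.det.natAbs * PP5N.mi2 G := by
    have h3 : (PP5N.mi3 G) ^ 2 ∣ Finset.univ.gcd
        (fun p : (Fin 4 × Fin 4) × (Fin 4 × Fin 4) => G.det.natAbs *
          (G p.1.1 p.2.1 * G p.1.2 p.2.2 - G p.1.1 p.2.2 * G p.1.2 p.2.1).natAbs) :=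
      Finset.dvd_gcd fun p _ => h p.1.1 p.1.2 p.2.1 p.2.2
    rw [Finset.gcd_mul_left] at h3
    simpa [PP5N.mi2] using h3
  have h4 : ((PP5N.mi3 G : ℤ)) ^ 2 ∣ ((G.det.natAbs * PP5N.mi2 G : ℕ) : ℤ) := by
    exact_mod_cast h2
  rw [mul_comm]
  push_cast at h4
  rcases abs_choice G.det with h5 | h5
  · rwa [h5] at h4
  · rw [h5, neg_mul, dvd_neg] at h4
    exact h4

/-- size 1.  From `mi3_sq` (`det G ≠ 0`, `mi2 G ≠ 0` since `mi2 G = 0` forces `det G = 0`: see `lat_mi2` in PP5N/Lat (private? then copy)). -/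
theorem sqrt_mi3 {G : Matrix (Fin 4) (Fin 4) ℤ} (h : G.det ≠ 0) :
    √(PP5N.mi3 G : ℝ) ≤ ((PP5N.mi2 G : ℝ) * |(G.det : ℝ)|) ^ (1 / 4 : ℝ) := by
  have h1 := mi3_sq G
  have h2 : (PP5N.mi2 G : ℤ) * G.det ≠ 0 :=
    mul_ne_zero (by exact_mod_cast mi_mi2 h) h
  have h3 := Int.le_of_dvd (abs_pos.mpr h2) ((dvd_abs _ _).mpr h1)
  have h4 : ((PP5N.mi3 G : ℝ)) ^ 2 ≤ (PP5N.mi2 G : ℝ) * |(G.det : ℝ)| := by
    have h5 : ((PP5N.mi3 G : ℤ) ^ 2 : ℤ) ≤ (PP5N.mi2 G : ℤ) * |G.det| := by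
      rw [abs_mul, Nat.abs_cast] at h3
      exact h3
    have h6 : (((PP5N.mi3 G : ℤ) ^ 2 : ℤ) : ℝ) ≤ (((PP5N.mi2 G : ℤ) * |G.det| : ℤ) : ℝ) := by
      exact Int.cast_le.mpr h5
    rw [Int.cast_pow, Int.cast_mul, Int.cast_abs, Int.cast_natCast, Int.cast_natCast] at h6
    exact h6
  have h7 : (0 : ℝ) ≤ (PP5N.mi3 G : ℝ) := Nat.cast_nonneg _
  rw [Real.sqrt_eq_rpow]
  calc (PP5N.mi3 G : ℝ) ^ (1 / 2 : ℝ) = (((PP5N.mi3 G : ℝ)) ^ 2) ^ (1 / 4 : ℝ) := by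
        rw [← Real.rpow_natCast, ← Real.rpow_mul h7]
        norm_num
    _ ≤ _ := Real.rpow_le_rpow (by positivity) h4 (by norm_num)

end Pool.Agent.PP5Q
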