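import Pool.Agent.PP5Q.He
import Pool.Agent.PP5Q.Mi
import Pool.Agent.PP5S.DPh

/-!
# PP5 (D'): good `x`
-/

set_option autoImplicit false

namespace Pool.Agent.PP5Q

open Matrix Finset Pool.Agent.PP5B Pool.Agent.PP5P Pool.Agent.PP5 Pool.Agent.PP5S

variable {Cx C1 c0 y t1 t2 T : ℝ} {x : Fin 10 → ℤ} {b : Fin 4 → PP5.Sp}
  {G : Matrix (Fin 4) (Fin 4) ℤ} {l : Fin 4 → ℝ} {k : ℕ}

/-- powers of `y` -/
theorem yp_mul (hy : 0 < y) (a b : ℝ) : y ^ a * y ^ b = y ^ (a + b) := (Real.rpow_add hy a b).symm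

theorem yp_nat (hy : 0 < y) (a : ℝ) (n : ℕ) : (y ^ a) ^ n = y ^ (a * n) := by
  rw [← Real.rpow_natCast, ← Real.rpow_mul hy.le]

theorem yp_le (hy : 1 ≤ y) {a b : ℝ} (h : a ≤ b) : y ^ a ≤ y ^ b :=
  Real.rpow_le_rpow_of_exponent_le hy h

/-- the data of a good `x` in normalised form -/
theorem gd_ng (hCx : 1 ≤ Cx) (hC1 : 1 ≤ C1) (hc0 : 0 < c0) (hy : 1 ≤ y)
    (hK : 100 * Cx ^ 6 * C1 ^ 4 ≤ y ^ c0) (hd : XD Cx t1 t2 T x b G l k)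
    (hT : T ≤ C1 * y ^ (2 / 5 : ℝ)) (hg : Gd y c0 T x G l k) :
    NG Cx T (y ^ (1 / 5 : ℝ)) (y ^ (9 * c0)) G l := by
  have hy0 : 0 < y := by linarith
  have hCx0 : 0 < Cx := by linarith
  have hC10 : 0 < C1 := by linarith
  have hK1 : 1 ≤ y ^ c0 := Real.one_le_rpow hy hc0.le
  have hCle : Cx ≤ y ^ c0 := by
    have h1 : Cx ≤ Cx ^ 6 := by
      calc Cx = Cx ^ 1 := (pow_one _).symm
        _ ≤ Cx ^ 6 := pow_le_pow_right₀ hCx (by norm_num)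
    have h2 : 1 ≤ C1 ^ 4 := one_le_pow₀ hC1
    have h3 : 0 ≤ Cx ^ 6 := by positivity
    nlinarith
  have hC1le : C1 ≤ y ^ c0 := by
    have h1 : C1 ≤ C1 ^ 4 := by
      calc C1 = C1 ^ 1 := (pow_one _).symm
        _ ≤ C1 ^ 4 := pow_le_pow_right₀ hC1 (by norm_num)
    have h2 : 1 ≤ Cx ^ 6 := one_le_pow₀ hCx
    have h3 : 0 ≤ C1 ^ 4 := by positivity
    nlinarith
  have hCC : Cx * C1 ^ 4 ≤ y ^ c0 := by
    have h1 : Cx ≤ Cx ^ 6 := by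
      calc Cx = Cx ^ 1 := (pow_one _).symm
        _ ≤ Cx ^ 6 := pow_le_pow_right₀ hCx (by norm_num)
    have h3 : 0 ≤ C1 ^ 4 := by positivity
    have h4 : 0 ≤ Cx ^ 6 * C1 ^ 4 := by positivity
    nlinarith
  have hN2 : (y ^ (1 / 5 : ℝ)) ^ 2 = y ^ (2 / 5 : ℝ) := by
    rw [yp_nat hy0]; congr 1; norm_num
  have hN8 : (y ^ (1 / 5 : ℝ)) ^ 8 = y ^ (8 / 5 : ℝ) := by
    rw [yp_nat hy0]; congr 1; norm_num
  have hlo : ∀ a : ℝ, y ^ a / y ^ (9 * c0) = y ^ (a - 9 * c0) := by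
    intro a; rw [Real.rpow_sub hy0]
  have hll : ∀ i, l 0 ≤ l i := hd.l_ge
  have hlp := hd.lp
  have hprod : ∏ i, l i = l 0 * l 1 * l 2 * l 3 := Fin.prod_univ_four l
  have hl0 : 0 < y ^ (2 / 5 - c0) := Real.rpow_pos_of_pos hy0 _
  -- upper bound for `l`
  have hup : ∀ i, l i ≤ y ^ (2 / 5 + 9 * c0) := by
    have h3 : l 3 ≤ y ^ (2 / 5 + 9 * c0) := by
      have e1 : (y ^ (2 / 5 - c0)) ^ 3 * l 3 ≤ ∏ i, l i := by
        rw [hprod]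
        have a0 := hg.l0
        have a1 := hg.l0.trans (hll 1)
        have a2 := hg.l0.trans (hll 2)
        calc (y ^ (2 / 5 - c0)) ^ 3 * l 3
            = y ^ (2 / 5 - c0) * y ^ (2 / 5 - c0) * y ^ (2 / 5 - c0) * l 3 := by ring
          _ ≤ l 0 * l 1 * l 2 * l 3 := by
              refine mul_le_mul_of_nonneg_right ?_ (hlp 3).le
              refine mul_le_mul (mul_le_mul a0 a1 hl0.le (hlp 0).le) a2 hl0.le
                (mul_pos (hlp 0) (hlp 1)).le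
      have e2 : ∏ i, l i ≤ y ^ (8 / 5 + c0) := by
        calc ∏ i, l i ≤ Cx * T ^ 4 := hd.prod
          _ ≤ Cx * (C1 * y ^ (2 / 5 : ℝ)) ^ 4 :=
              mul_le_mul_of_nonneg_left (pow_le_pow_left₀ hd.T0.le hT 4) hCx0.le
          _ = (Cx * C1 ^ 4) * y ^ (8 / 5 : ℝ) := by
              rw [mul_pow, yp_nat hy0]
              rw [show (2 / 5 : ℝ) * ((4 : ℕ) : ℝ) = 8 / 5 by norm_num]
              ring
          _ ≤ y ^ c0 * y ^ (8 / 5 : ℝ) := mul_le_mul_of_nonneg_right hCC (Real.rpow_nonneg hy0.le _)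
          _ = _ := by rw [yp_mul hy0]; congr 1; ring
      have e3 : (y ^ (2 / 5 - c0)) ^ 3 * l 3 ≤ (y ^ (2 / 5 - c0)) ^ 3 * y ^ (2 / 5 + 9 * c0) := by
        refine (e1.trans e2).trans ?_
        rw [yp_nat hy0, yp_mul hy0]
        apply yp_le hy
        push_cast
        linarith
      exact le_of_mul_le_mul_left e3 (by positivity)
    intro i
    have h1 := hd.mono
    have h2 : l i ≤ l 3 := by
      obtain ⟨m1, m2, m3⟩ := h1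
      fin_cases i
      · exact (m1.trans m2).trans m3
      · exact m2.trans m3
      · exact m3
      · exact le_refl _
    exact h2.trans h3
  refine ⟨⟨hd.xg.sym, hd.xg.ev, hd.xg.det, hlp, hd.mono.1, hd.mono.2.1, hd.mono.2.2, hd.T0,
    hd.gram⟩, Real.one_le_rpow hy (by norm_num), Real.one_le_rpow hy (by positivity), ?_, ?_, ?_, ?_,
    ?_, ?_⟩
  · intro i
    rw [hN2, hlo]
    refine (yp_le hy ?_).trans (hg.l0.trans (hll i))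
    linarith
  · intro i
    rw [hN2, yp_mul hy0]
    refine (hup i).trans (yp_le hy ?_)
    linarith
  · rw [hN2, hlo]
    refine (yp_le hy ?_).trans hg.Tlo
    linarith
  · rw [hN2]
    refine hT.trans ?_
    refine mul_le_mul_of_nonneg_right (hC1le.trans (yp_le hy ?_)) (Real.rpow_nonneg hy0.le _)
    linarith
  · rw [hN8, hlo]
    have hD : |(((PP5L.SS x).det : ℤ) : ℝ)| = (k : ℝ) ^ 2 * |(G.det : ℝ)| := by
      rw [hd.kd]; push_cast; rw [abs_mul, abs_pow, Nat.abs_cast]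
    have h1 : (y ^ (2 / 5 - c0)) ^ 4 ≤ y ^ c0 * ((y ^ c0) ^ 2 * |(G.det : ℝ)|) := by
      calc (y ^ (2 / 5 - c0)) ^ 4 ≤ T ^ 4 := pow_le_pow_left₀ hl0.le hg.Tlo 4
        _ ≤ y ^ c0 * |(((PP5L.SS x).det : ℤ) : ℝ)| := hg.Dlo
        _ = y ^ c0 * ((k : ℝ) ^ 2 * |(G.det : ℝ)|) := by rw [hD]
        _ ≤ _ := by
            refine mul_le_mul_of_nonneg_left ?_ (Real.rpow_nonneg hy0.le _)
            refine mul_le_mul_of_nonneg_right ?_ (abs_nonneg _)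
            exact pow_le_pow_left₀ (Nat.cast_nonneg _) hg.kup 2
    have h2 : y ^ c0 * (y ^ c0) ^ 2 = y ^ (3 * c0) := by
      rw [yp_nat hy0, yp_mul hy0]; congr 1; push_cast; ring
    have h3 : y ^ (3 * c0) * y ^ (8 / 5 - 9 * c0) ≤ y ^ (3 * c0) * |(G.det : ℝ)| := by
      rw [yp_mul hy0]
      calc y ^ (3 * c0 + (8 / 5 - 9 * c0)) ≤ y ^ ((2 / 5 - c0) * (4 : ℕ)) := by
            apply yp_le hy; push_cast; linarith
        _ = (y ^ (2 / 5 - c0)) ^ 4 := (yp_nat hy0 _ _).symm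
        _ ≤ y ^ c0 * ((y ^ c0) ^ 2 * |(G.det : ℝ)|) := h1
        _ = _ := by rw [← mul_assoc, h2]
    exact le_of_mul_le_mul_left h3 (Real.rpow_pos_of_pos hy0 _)
  · refine (hg.A (PP5N.mi2 G) ?_).trans (yp_le hy (by linarith))
    intro i j a b
    exact PP5N.mi2_dvd G i j a b

/-- `det G` is not a square -/
theorem gd_nsq (hc0 : 0 < c0) (hy : 1 ≤ y) (hd : XD Cx t1 t2 T x b G l k)
    (hg : Gd y c0 T x G l k) : ¬ IsSquare G.det := by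
  rintro ⟨z, hz⟩
  refine hg.sq 1 one_ne_zero ?_ ?_
  · rw [Int.cast_one, abs_one]
    exact Real.one_le_rpow hy (by positivity)
  · refine ⟨(k : ℤ) * z, ?_⟩
    rw [one_mul, hd.kd, hz]
    ring

/-- `mi3` is small -/
theorem gd_mi3 (hCx : 1 ≤ Cx) (hC1 : 1 ≤ C1) (hc0 : 0 < c0) (hy : 1 ≤ y)
    (hK : 100 * Cx ^ 6 * C1 ^ 4 ≤ y ^ c0) (hd : XD Cx t1 t2 T x b G l k)
    (hT : T ≤ C1 * y ^ (2 / 5 : ℝ)) (hg : Gd y c0 T x G l k) :
    √(PP5N.mi3 G : ℝ) ≤ (y ^ (1 / 5 : ℝ)) ^ 2 / y ^ (240 * c0) := by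
  have hy0 : 0 < y := by linarith
  have hCx0 : 0 < Cx := by linarith
  have hng := gd_ng hCx hC1 hc0 hy hK hd hT hg
  have hN2 : (y ^ (1 / 5 : ℝ)) ^ 2 = y ^ (2 / 5 : ℝ) := by
    rw [yp_nat hy0]; congr 1; norm_num
  rw [hN2, ← Real.rpow_sub hy0]
  by_contra hcon
  push Not at hcon
  have h1 : y ^ (4 * (2 / 5 - 240 * c0)) < (PP5N.mi3 G : ℝ) ^ 2 := by
    have h2 : (y ^ (2 / 5 - 240 * c0)) ^ 4 < (√(PP5N.mi3 G : ℝ)) ^ 4 :=
      pow_lt_pow_left₀ hcon (Real.rpow_nonneg hy0.le _) (by norm_num)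
    have h3 : (√(PP5N.mi3 G : ℝ)) ^ 4 = (PP5N.mi3 G : ℝ) ^ 2 := by
      rw [show (4 : ℕ) = 2 * 2 by norm_num, pow_mul, Real.sq_sqrt (Nat.cast_nonneg _)]
    rw [h3, yp_nat hy0] at h2
    convert h2 using 2
    push_cast
    ring
  obtain ⟨f, hf⟩ := mi3_sq G
  have hdn := hng.gh.dn
  have hmi2 : (PP5N.mi2 G : ℤ) ≠ 0 := by
    intro h0
    have h2 : (PP5N.mi2 G) = 0 := by exact_mod_cast h0
    have h3 : ∀ i j a b, G i a * G j b - G i b * G j a = 0 := by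
      intro i j a b
      have := PP5N.mi2_dvd G i j a b
      rw [h2] at this
      exact zero_dvd_iff.mp (by exact_mod_cast this)
    apply hdn
    simp [Matrix.det_succ_row_zero, Fin.sum_univ_succ, Fin.succAbove]
    have e1 := h3 1 2 0 1
    have e2 := h3 2 3 1 2
    have e3 := h3 2 3 0 1
    have e4 := h3 2 3 0 2
    have e5 := h3 2 3 0 3
    have e6 := h3 2 3 1 3
    have e7 := h3 2 3 2 3
    linear_combination (G 0 0 * G 1 1 - G 0 1 * G 1 0) * e7 + (- G 0 0 * G 1 2 + G 0 2 * G 1 0) * e6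
      + (G 0 0 * G 1 3 - G 0 3 * G 1 0) * e2 + (G 0 1 * G 1 2 - G 0 2 * G 1 1) * e5
      + (- G 0 1 * G 1 3 + G 0 3 * G 1 1) * e4 + (G 0 2 * G 1 3 - G 0 3 * G 1 2) * e3
  have hf0 : f ≠ 0 := by
    rintro rfl
    rw [mul_zero] at hf
    exact mul_ne_zero hmi2 hdn hf
  -- size
  have hdet : |(G.det : ℝ)| ≤ y ^ (8 / 5 + c0) := by
    have hT4 : T ^ 4 ≤ C1 ^ 4 * y ^ (8 / 5 : ℝ) := by
      calc T ^ 4 ≤ (C1 * y ^ (2 / 5 : ℝ)) ^ 4 := pow_le_pow_left₀ hd.T0.le hT 4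
        _ = _ := by rw [mul_pow, yp_nat hy0]; congr 2; norm_num
    have hT0 := hd.T0
    have hp0 : 0 ≤ ∏ i, l i := Finset.prod_nonneg fun i _ => (hd.lp i).le
    calc |(G.det : ℝ)| ≤ 24 * Cx ^ 4 * (∏ i, l i) ^ 2 / T ^ 4 := det_le hCx0 hng.gh
      _ ≤ 24 * Cx ^ 4 * (Cx * T ^ 4) ^ 2 / T ^ 4 := by
          have := pow_le_pow_left₀ hp0 hd.prod 2
          gcongr
      _ = 24 * Cx ^ 6 * T ^ 4 := by field_simp
      _ ≤ 24 * Cx ^ 6 * (C1 ^ 4 * y ^ (8 / 5 : ℝ)) :=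
          mul_le_mul_of_nonneg_left hT4 (by positivity)
      _ = (24 * Cx ^ 6 * C1 ^ 4) * y ^ (8 / 5 : ℝ) := by ring
      _ ≤ y ^ c0 * y ^ (8 / 5 : ℝ) := by
          refine mul_le_mul_of_nonneg_right ?_ (Real.rpow_nonneg hy0.le _)
          have h4 : 0 ≤ Cx ^ 6 * C1 ^ 4 := by positivity
          nlinarith
      _ = _ := by rw [yp_mul hy0]; congr 1; ring
  have hA : (PP5N.mi2 G : ℝ) ≤ y ^ c0 := hg.A _ (fun i j a b => PP5N.mi2_dvd G i j a b)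
  refine hg.sq (f * (PP5N.mi2 G : ℤ)) (mul_ne_zero hf0 hmi2) ?_ ?_
  · push_cast
    rw [abs_mul, Nat.abs_cast]
    have e1 : |(f : ℝ)| * (PP5N.mi3 G : ℝ) ^ 2 = (PP5N.mi2 G : ℝ) * |(G.det : ℝ)| := by
      have h2 : (PP5N.mi2 G : ℝ) * (G.det : ℝ) = (PP5N.mi3 G : ℝ) ^ 2 * (f : ℝ) := by
        have h5 := congrArg (fun z : ℤ => (z : ℝ)) hf
        simp only [Int.cast_mul, Int.cast_pow, Int.cast_natCast] at h5
        exact h5
      have h3 := congrArg abs h2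
      rw [abs_mul, abs_mul, abs_pow, Nat.abs_cast, Nat.abs_cast] at h3
      linarith
    have e2 : |(f : ℝ)| * y ^ (4 * (2 / 5 - 240 * c0)) ≤ y ^ c0 * y ^ (8 / 5 + c0) := by
      calc |(f : ℝ)| * y ^ (4 * (2 / 5 - 240 * c0)) ≤ |(f : ℝ)| * (PP5N.mi3 G : ℝ) ^ 2 :=
            mul_le_mul_of_nonneg_left h1.le (abs_nonneg _)
        _ = (PP5N.mi2 G : ℝ) * |(G.det : ℝ)| := e1
        _ ≤ _ := mul_le_mul hA hdet (abs_nonneg _) (Real.rpow_nonneg hy0.le _)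
    have e3 : |(f : ℝ)| ≤ y ^ (962 * c0) := by
      have e4 : |(f : ℝ)| * y ^ (4 * (2 / 5 - 240 * c0))
          ≤ y ^ (962 * c0) * y ^ (4 * (2 / 5 - 240 * c0)) := by
        refine e2.trans (le_of_eq ?_)
        rw [yp_mul hy0, yp_mul hy0]
        congr 1
        ring
      exact le_of_mul_le_mul_right e4 (Real.rpow_pos_of_pos hy0 _)
    calc |(f : ℝ)| * (PP5N.mi2 G : ℝ) ≤ y ^ (962 * c0) * y ^ c0 :=
          mul_le_mul e3 hA (Nat.cast_nonneg _) (Real.rpow_nonneg hy0.le _)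
      _ = y ^ (962 * c0 + c0) := yp_mul hy0 _ _
      _ ≤ _ := yp_le hy (by linarith)
  · refine ⟨(k : ℤ) * (f * (PP5N.mi3 G : ℤ)), ?_⟩
    rw [hd.kd]
    calc f * (PP5N.mi2 G : ℤ) * ((k : ℤ) ^ 2 * G.det)
        = f * (k : ℤ) ^ 2 * ((PP5N.mi2 G : ℤ) * G.det) := by ring
      _ = f * (k : ℤ) ^ 2 * (((PP5N.mi3 G : ℤ)) ^ 2 * f) := by rw [hf]
      _ = _ := by ring

/-- good `x`: few zeros are orthogonal to a bad `m` -/
theorem hg1 (hCx : 1 ≤ Cx) (hC1 : 1 ≤ C1) (c : ℝ) (hc : 0 < c) : ∃ c0 η y0 C : ℝ, 0 < c0 ∧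
    c0 ≤ c ∧ c0 ≤ 1 / 1000000 ∧ 0 < η ∧ 1 ≤ y0 ∧ 0 ≤ C ∧ ∀ y t1 t2 T : ℝ, y0 ≤ y →
    ∀ (x : Fin 10 → ℤ) (b : Fin 4 → PP5.Sp) (G : Matrix (Fin 4) (Fin 4) ℤ) (l : Fin 4 → ℝ) (k : ℕ),
    XD Cx t1 t2 T x b G l k → T ≤ C1 * y ^ (2 / 5 : ℝ) → Gd y c0 T x G l k →
    ∀ V : Finset (Fin 4 → ℤ), (∀ v ∈ V, (Pr4 v ∧ v ⬝ᵥ (G *ᵥ v) = 0 ∧
      ∀ i, |(v i : ℝ)| * l i ≤ 16 * Cx * y) ∧ ∃ m : Fin 4 → ℤ, Pr4 m ∧
      m ⬝ᵥ v = 0 ∧ (∀ i, |(m i : ℝ)| ≤ C1 * (y / ∏ i, l i) ^ (1 / 3 : ℝ) * l i) ∧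
      (D2 G m = 0 ∨ y ^ c < (sl G m : ℝ) ∨
        ∀ i, y ^ c * |(m i : ℝ)| < C1 * (y / ∏ i, l i) ^ (1 / 3 : ℝ) * l i)) →
    (V.card : ℝ) ≤ C * y ^ (4 / 5 - η) := by
  set c0 : ℝ := min (c / 4000) (1 / 1000000) with hc0d
  have hc0 : 0 < c0 := lt_min (by positivity) (by norm_num)
  have hc0c : c0 ≤ c / 4000 := min_le_left _ _
  have hc0m : c0 ≤ 1 / 1000000 := min_le_right _ _
  set c' : ℝ := min c (1 / 5) with hc'd
  have hc' : 0 < c' := lt_min hc (by norm_num)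
  have hc'c : c' ≤ c := min_le_left _ _
  have hc'5 : c' ≤ 1 / 5 := min_le_right _ _
  have hc'0 : 2000 * c0 ≤ c' := le_min (by linarith) (by linarith)
  obtain ⟨C, hC, hgood⟩ := good c0 hc0 Cx hCx
  have hCx0 : 0 < Cx := by linarith
  have hC10 : 0 < C1 := by linarith
  set K : ℝ := 100 * Cx ^ 6 * C1 ^ 4 with hKd
  have hK1 : 1 ≤ K := by
    have h1 : 1 ≤ Cx ^ 6 := one_le_pow₀ hCx
    have h2 : 1 ≤ C1 ^ 4 := one_le_pow₀ hC1
    have h3 : 1 ≤ Cx ^ 6 * C1 ^ 4 := one_le_mul_of_one_le_of_one_le h1 h2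
    rw [hKd]; nlinarith
  refine ⟨c0, 50 * c0, K ^ (1 / c0), 3 * C, hc0, by linarith, hc0m, by linarith,
    Real.one_le_rpow hK1 (by positivity), by linarith, ?_⟩
  intro y t1 t2 T hy x b G l k hd hT hg V hV
  have hy1 : 1 ≤ y := (Real.one_le_rpow hK1 (by positivity)).trans hy
  have hy0 : 0 < y := by linarith
  have hK : K ≤ y ^ c0 := by
    calc K = (K ^ (1 / c0)) ^ c0 := by
          rw [← Real.rpow_mul (by linarith), one_div_mul_cancel hc0.ne', Real.rpow_one]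
      _ ≤ y ^ c0 := Real.rpow_le_rpow (by positivity) hy hc0.le
  have hng := gd_ng hCx hC1 hc0 hy1 hK hd hT hg
  have hnsq := gd_nsq hc0 hy1 hd hg
  have hmi := gd_mi3 hCx hC1 hc0 hy1 hK hd hT hg
  have hKa : 16 * Cx ≤ y ^ c0 := by
    refine le_trans ?_ hK
    have h1 : Cx ≤ Cx ^ 6 := by
      calc Cx = Cx ^ 1 := (pow_one _).symm
        _ ≤ Cx ^ 6 := pow_le_pow_right₀ hCx (by norm_num)
    have h2 : 1 ≤ C1 ^ 4 := one_le_pow₀ hC1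
    have h3 : 0 ≤ Cx ^ 6 := by positivity
    rw [hKd]; nlinarith
  have hKb : C1 ≤ y ^ c0 := by
    refine le_trans ?_ hK
    have h1 : C1 ≤ C1 ^ 4 := by
      calc C1 = C1 ^ 1 := (pow_one _).symm
        _ ≤ C1 ^ 4 := pow_le_pow_right₀ hC1 (by norm_num)
    have h2 : 1 ≤ Cx ^ 6 := one_le_pow₀ hCx
    have h3 : 0 ≤ C1 ^ 4 := by positivity
    rw [hKd]; nlinarith
  have hN2 : (y ^ (1 / 5 : ℝ)) ^ 2 = y ^ (2 / 5 : ℝ) := by
    rw [yp_nat hy0]; congr 1; norm_num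
  have hN5 : (y ^ (1 / 5 : ℝ)) ^ 5 = y ^ (1 : ℝ) := by
    rw [yp_nat hy0]; congr 1; norm_num
  have hN4 : (y ^ (1 / 5 : ℝ)) ^ 4 = y ^ (4 / 5 : ℝ) := by
    rw [yp_nat hy0]; congr 1; norm_num
  have hlam : 0 < ∏ i, l i := Finset.prod_pos fun i _ => hd.lp i
  set u : ℝ := C1 * (y / ∏ i, l i) ^ (1 / 3 : ℝ) with hu
  have hu0 : 0 < u := by rw [hu]; positivity
  have huE : u ≤ y ^ (9 * c0) / y ^ (1 / 5 : ℝ) := by
    have h1 : (y ^ (2 / 5 - c0)) ^ 4 ≤ ∏ i, l i := by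
      calc (y ^ (2 / 5 - c0)) ^ 4 = ∏ _i : Fin 4, y ^ (2 / 5 - c0) := by simp
        _ ≤ ∏ i, l i := Finset.prod_le_prod (fun i _ => Real.rpow_nonneg hy0.le _)
            (fun i _ => hg.l0.trans (hd.l_ge i))
    have h2 : y / ∏ i, l i ≤ y ^ (-(3 / 5) + 4 * c0) := by
      rw [div_le_iff₀ hlam]
      calc y = y ^ (-(3 / 5) + 4 * c0) * (y ^ (2 / 5 - c0)) ^ 4 := by
            rw [yp_nat hy0, yp_mul hy0]
            rw [show -(3 / 5) + 4 * c0 + (2 / 5 - c0) * ((4 : ℕ) : ℝ) = 1 by push_cast; ring,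
              Real.rpow_one]
        _ ≤ _ := mul_le_mul_of_nonneg_left h1 (Real.rpow_nonneg hy0.le _)
    have h3 : (y / ∏ i, l i) ^ (1 / 3 : ℝ) ≤ y ^ ((-(3 / 5) + 4 * c0) * (1 / 3)) := by
      rw [Real.rpow_mul hy0.le]
      exact Real.rpow_le_rpow (by positivity) h2 (by norm_num)
    rw [← Real.rpow_sub hy0]
    calc u ≤ y ^ c0 * y ^ ((-(3 / 5) + 4 * c0) * (1 / 3)) := by
          rw [hu]
          exact mul_le_mul hKb h3 (by positivity) (Real.rpow_nonneg hy0.le _)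
      _ = y ^ (c0 + (-(3 / 5) + 4 * c0) * (1 / 3)) := yp_mul hy0 _ _
      _ ≤ _ := yp_le hy1 (by linarith)
  have hmain := hgood G l T (y ^ (1 / 5 : ℝ)) (y ^ (9 * c0)) y (16 * Cx * y) u (y ^ c')
    (y ^ (240 * c0)) hng hnsq hy1 ?_ ?_ (by positivity) ?_ hu0 huE ?_
    (Real.one_le_rpow hy1 hc'.le) (yp_le hy1 hc'5) (Real.one_le_rpow hy1 (by positivity)) hmi V ?_
  · refine hmain.trans ?_
    have hyc : 0 ≤ C * y ^ c0 := by positivity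
    have e0 : (y ^ (9 * c0)) ^ 17 * (y ^ (1 / 5 : ℝ)) ^ 4 = y ^ (4 / 5 + 153 * c0) := by
      rw [hN4, yp_nat hy0, yp_mul hy0]; congr 1; push_cast; ring
    have e1 : y ^ (240 * c0) * (y ^ c') ^ (-(1 / 4) : ℝ) = y ^ (240 * c0 - c' / 4) := by
      rw [← Real.rpow_mul hy0.le, yp_mul hy0]; congr 1; ring
    have e2 : 1 / y ^ (240 * c0) = y ^ (-(240 * c0)) := by
      rw [Real.rpow_neg hy0.le, one_div]
    have e3 : y ^ (240 * c0) * (y ^ (1 / 5 : ℝ)) ^ (-(1 / 20) : ℝ) = y ^ (240 * c0 - 1 / 100) := by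
      rw [← Real.rpow_mul hy0.le, yp_mul hy0]; congr 1; ring
    rw [e0, e1, e2, e3]
    have f1 : y ^ (240 * c0 - c' / 4) ≤ y ^ (-(204 * c0)) := yp_le hy1 (by linarith)
    have f2 : y ^ (-(240 * c0)) ≤ y ^ (-(204 * c0)) := yp_le hy1 (by linarith)
    have f3 : y ^ (240 * c0 - 1 / 100) ≤ y ^ (-(204 * c0)) := yp_le hy1 (by linarith)
    calc C * y ^ c0 * (y ^ (4 / 5 + 153 * c0) *
          (y ^ (240 * c0 - c' / 4) + y ^ (-(240 * c0)) + y ^ (240 * c0 - 1 / 100)))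
        ≤ C * y ^ c0 * (y ^ (4 / 5 + 153 * c0) * (3 * y ^ (-(204 * c0)))) := by
          refine mul_le_mul_of_nonneg_left ?_ hyc
          refine mul_le_mul_of_nonneg_left ?_ (Real.rpow_nonneg hy0.le _)
          linarith
      _ = 3 * C * (y ^ c0 * (y ^ (4 / 5 + 153 * c0) * y ^ (-(204 * c0)))) := by ring
      _ = 3 * C * y ^ (4 / 5 - 50 * c0) := by
          rw [yp_mul hy0, yp_mul hy0]; congr 2; ring
  · intro i
    refine (hng.lup i).trans ?_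
    rw [hN2, yp_mul hy0]
    calc y ^ (9 * c0 + 2 / 5) ≤ y ^ (1 : ℝ) := yp_le hy1 (by linarith)
      _ = y := Real.rpow_one y
  · calc 1 / y ≤ 1 := by rw [div_le_one hy0]; exact hy1
      _ ≤ y ^ (2 / 5 - c0) := Real.one_le_rpow hy1 (by linarith)
      _ ≤ T := hg.Tlo
  · rw [hN5, Real.rpow_one]
    exact mul_le_mul_of_nonneg_right (hKa.trans (yp_le hy1 (by linarith))) hy0.le
  · refine huE.trans ?_
    rw [← Real.rpow_sub hy0]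
    calc y ^ (9 * c0 - 1 / 5) ≤ y ^ (1 : ℝ) := yp_le hy1 (by linarith)
      _ = y := Real.rpow_one y
  · intro v hv
    obtain ⟨⟨h1, h2, h3⟩, m, h4, h5, h6, h7⟩ := hV v hv
    refine ⟨h1, h2, h3, m, h4, h5, h6, ?_⟩
    have hyy : y ^ c' ≤ y ^ c := yp_le hy1 hc'c
    rcases h7 with h7 | h7 | h7
    · exact Or.inl h7
    · exact Or.inr (Or.inl (hyy.trans_lt h7))
    · refine Or.inr (Or.inr fun i => ?_)
      exact (mul_le_mul_of_nonneg_right hyy (abs_nonneg _)).trans (h7 i).le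

/-- (G) -/
theorem hg (Cx C1 : ℝ) (hCx : 1 ≤ Cx) (hC1 : 1 ≤ C1) : HG Cx C1 := by
  intro c hc
  obtain ⟨c0, η, y0, C, h1, h2, h3, h4, h5, h6, h7⟩ := hg1 hCx hC1 c hc
  refine ⟨c0, η, y0, C, h1, h2, h3, h4, h5, h6, ?_⟩
  intro y t1 t2 T hy _ _ _ x b G l k _ hd hT hg V hV
  refine h7 y t1 t2 T hy x b G l k hd hT hg V ?_
  intro v hv
  obtain ⟨hz, m, a1, a2, a3, a4⟩ := hV v hv
  exact ⟨⟨hz.pr, hz.q, hz.bx⟩, m, a1, a2, a3, a4⟩

end Pool.Agent.PP5Q
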