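import Pool.Agent.PP5Q.Defs

set_option autoImplicit false

namespace Pool.Agent.PP5Q

open Finset

private theorem Cl_log {x : ℝ} (hx : 1 ≤ x) :
    (2 : ℝ) ^ Nat.log 2 ⌊x⌋₊ ≤ x ∧ x < 2 ^ (Nat.log 2 ⌊x⌋₊ + 1) := by
  have h0 : ⌊x⌋₊ ≠ 0 := by
    have : 1 ≤ ⌊x⌋₊ := Nat.le_floor (by exact_mod_cast hx)
    omega
  have h1 : 2 ^ Nat.log 2 ⌊x⌋₊ ≤ ⌊x⌋₊ := Nat.pow_log_le_self 2 h0
  have h2 : ⌊x⌋₊ < 2 ^ (Nat.log 2 ⌊x⌋₊ + 1) := Nat.lt_pow_succ_log_self (by norm_num) _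
  have h3 : (⌊x⌋₊ : ℝ) ≤ x := Nat.floor_le (by linarith)
  have h4 : x < (⌊x⌋₊ : ℝ) + 1 := Nat.lt_floor_add_one x
  constructor
  · have h5 : (2 : ℝ) ^ Nat.log 2 ⌊x⌋₊ ≤ (⌊x⌋₊ : ℝ) := by exact_mod_cast h1
    exact h5.trans h3
  · have h5 : ⌊x⌋₊ + 1 ≤ 2 ^ (Nat.log 2 ⌊x⌋₊ + 1) := h2
    have h6 : (⌊x⌋₊ : ℝ) + 1 ≤ 2 ^ (Nat.log 2 ⌊x⌋₊ + 1) := by exact_mod_cast h5
    linarith

/-- DYADIC CLASSES (size 3).  `M` any finite set, `s m` a divisor of `D ≠ 0`, `D ≤ Y`, `ν m ∈ [1 / Y, Y]`; if every nonempty class (`s m = s0`, `u' / 2 ≤ ν m ≤ u'`) has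
`s0 card / u' ≤ Bd` then `∑ s m / ν m ≤ C Y ^ c Bd`.
Proof: to `m` attach `(s m, j)` with `j = ⌊log2 (Y ν m)⌋ ≤ 2 log2 Y`, `2 ^ j ≤ Y ν m < 2 ^ (j + 1)`, `u' = 2 ^ (j + 1) / Y` (`u' ≤ 2 ν m`).  In a class
`∑ s m / ν m ≤ 2 s0 card / u' ≤ 2 Bd`.  Number of classes `≤ d(D) (2 log2 Y + 1) ≤ C Y ^ c` (`FTA.divisor_bound`, logarithm `≤` power:
`Real.add_one_le_exp`, `Real.log_le_rpow_div`). -/
theorem cls (c : ℝ) (hc : 0 < c) : ∃ C : ℝ, 1 ≤ C ∧ ∀ {α : Type} [DecidableEq α] (M : Finset α)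
    (s : α → ℕ) (ν : α → ℝ) (D : ℕ) (Y Bd : ℝ), 1 ≤ Y → D ≠ 0 → (D : ℝ) ≤ Y → 0 ≤ Bd →
    (∀ m ∈ M, s m ∣ D ∧ 1 / Y ≤ ν m ∧ ν m ≤ Y) →
    (∀ (s0 : ℕ) (u' : ℝ) (X : Finset α), X ⊆ M → X.Nonempty → 0 < u' →
      (∀ m ∈ X, s m = s0 ∧ ν m ≤ u' ∧ u' ≤ 2 * ν m) → (s0 : ℝ) * X.card / u' ≤ Bd) →
    ∑ m ∈ M, (s m : ℝ) / ν m ≤ C * Y ^ c * Bd := by
  obtain ⟨c0, hc0, hdiv⟩ := FTA.divisor_bound (half_pos hc)
  have hl2 : 0 < Real.log 2 := Real.log_pos (by norm_num)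
  refine ⟨max 1 (2 * c0 * (1 + 4 / (c * Real.log 2))), le_max_left _ _, ?_⟩
  intro α _ M s ν D Y Bd hY hD hDY hBd hM hcl
  have hY0 : 0 < Y := by linarith
  set t : α → ℕ := fun m => Nat.log 2 ⌊Y * ν m⌋₊ with ht
  set N : ℕ := Nat.log 2 ⌊Y ^ 2⌋₊ + 1 with hN
  have h1 : ∀ m ∈ M, 1 ≤ Y * ν m := by
    intro m hm
    have h := (hM m hm).2.1
    rw [div_le_iff₀ hY0] at h
    linarith [mul_comm (ν m) Y]
  have hmaps : ∀ m ∈ M, (s m, t m) ∈ D.divisors ×ˢ Finset.range N := by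
    intro m hm
    rw [Finset.mem_product, Nat.mem_divisors, Finset.mem_range]
    refine ⟨⟨(hM m hm).1, hD⟩, ?_⟩
    have h2 : Y * ν m ≤ Y ^ 2 := by
      rw [sq]
      exact mul_le_mul_of_nonneg_left (hM m hm).2.2 hY0.le
    have h3 : Nat.log 2 ⌊Y * ν m⌋₊ ≤ Nat.log 2 ⌊Y ^ 2⌋₊ :=
      Nat.log_mono_right (Nat.floor_le_floor h2)
    show Nat.log 2 ⌊Y * ν m⌋₊ < N
    omega
  rw [← Finset.sum_fiberwise_of_maps_to hmaps]
  have hfib : ∀ p ∈ D.divisors ×ˢ Finset.range N,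
      ∑ m ∈ M.filter (fun m => (s m, t m) = p), (s m : ℝ) / ν m ≤ 2 * Bd := by
    intro p _
    rcases (M.filter (fun m => (s m, t m) = p)).eq_empty_or_nonempty with he | hne
    · rw [he, Finset.sum_empty]
      linarith
    · set X := M.filter (fun m => (s m, t m) = p) with hX
      set u' : ℝ := 2 ^ (p.2 + 1) / Y with hu'
      have hu0 : 0 < u' := by positivity
      have hXm : ∀ m ∈ X, s m = p.1 ∧ ν m ≤ u' ∧ u' ≤ 2 * ν m := by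
        intro m hm
        rw [hX, Finset.mem_filter] at hm
        obtain ⟨hmM, hmp⟩ := hm
        obtain ⟨ha, hb⟩ := Cl_log (h1 m hmM)
        have hp2 : p.2 = Nat.log 2 ⌊Y * ν m⌋₊ := by rw [← hmp]
        rw [← hp2] at ha hb
        refine ⟨by rw [← hmp], ?_, ?_⟩
        · rw [hu', le_div_iff₀ hY0]
          linarith [mul_comm (ν m) Y]
        · rw [hu', div_le_iff₀ hY0, pow_succ]
          nlinarith
      have hb := hcl p.1 u' X (Finset.filter_subset _ _) hne hu0 hXm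
      have hterm : ∀ m ∈ X, (s m : ℝ) / ν m ≤ 2 * p.1 / u' := by
        intro m hm
        obtain ⟨hs, _, h3⟩ := hXm m hm
        have hν : 0 < ν m := by linarith
        rw [hs, div_le_div_iff₀ hν hu0]
        have h4 : (0 : ℝ) ≤ p.1 := Nat.cast_nonneg _
        nlinarith
      calc ∑ m ∈ X, (s m : ℝ) / ν m ≤ X.card • (2 * (p.1 : ℝ) / u') :=
            Finset.sum_le_card_nsmul _ _ _ hterm
        _ = 2 * ((p.1 : ℝ) * X.card / u') := by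
            rw [nsmul_eq_mul]
            ring
        _ ≤ 2 * Bd := by linarith
  refine (Finset.sum_le_card_nsmul _ _ _ hfib).trans ?_
  rw [Finset.card_product, Finset.card_range, nsmul_eq_mul]
  push_cast
  have hd1 : ((D.divisors.card : ℕ) : ℝ) ≤ c0 * Y ^ (c / 2) := by
    refine (hdiv D hD).trans (mul_le_mul_of_nonneg_left ?_ hc0.le)
    exact Real.rpow_le_rpow (Nat.cast_nonneg _) hDY (half_pos hc).le
  have hYc : 1 ≤ Y ^ (c / 2) := Real.one_le_rpow hY (half_pos hc).le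
  have hY2 : 1 ≤ Y ^ 2 := one_le_pow₀ hY
  have hN1 : (N : ℝ) ≤ (1 + 4 / (c * Real.log 2)) * Y ^ (c / 2) := by
    have h2 := (Cl_log hY2).1
    have h3 : Real.log ((2 : ℝ) ^ Nat.log 2 ⌊Y ^ 2⌋₊) ≤ Real.log (Y ^ 2) :=
      Real.log_le_log (by positivity) h2
    rw [Real.log_pow, Real.log_pow] at h3
    have h4 : Real.log Y ≤ Y ^ (c / 2) / (c / 2) := Real.log_le_rpow_div hY0.le (half_pos hc)
    have h5 : (Nat.log 2 ⌊Y ^ 2⌋₊ : ℝ) ≤ 4 / (c * Real.log 2) * Y ^ (c / 2) := by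
      have h6 : (Nat.log 2 ⌊Y ^ 2⌋₊ : ℝ) ≤ (2 * Real.log Y) / Real.log 2 := by
        rw [le_div_iff₀ hl2]
        push_cast at h3
        exact h3
      have h7 : (2 * Real.log Y) / Real.log 2 ≤ (2 * (Y ^ (c / 2) / (c / 2))) / Real.log 2 :=
        div_le_div_of_nonneg_right (by linarith) hl2.le
      refine (h6.trans h7).trans (le_of_eq ?_)
      field_simp
      ring
    rw [hN]
    push_cast
    nlinarith
  have hfin : ((D.divisors.card : ℕ) : ℝ) * N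
      ≤ (c0 * Y ^ (c / 2)) * ((1 + 4 / (c * Real.log 2)) * Y ^ (c / 2)) :=
    mul_le_mul hd1 hN1 (Nat.cast_nonneg _) (by positivity)
  have hpow : Y ^ (c / 2) * Y ^ (c / 2) = Y ^ c := by
    rw [← Real.rpow_add hY0]
    congr 1
    ring
  have hYc0 : 0 ≤ Y ^ c := Real.rpow_nonneg hY0.le _
  calc ((D.divisors.card : ℕ) : ℝ) * N * (2 * Bd)
      ≤ (c0 * Y ^ (c / 2)) * ((1 + 4 / (c * Real.log 2)) * Y ^ (c / 2)) * (2 * Bd) :=
        mul_le_mul_of_nonneg_right hfin (by linarith)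
    _ = (2 * c0 * (1 + 4 / (c * Real.log 2))) * (Y ^ (c / 2) * Y ^ (c / 2)) * Bd := by ring
    _ = (2 * c0 * (1 + 4 / (c * Real.log 2))) * Y ^ c * Bd := by rw [hpow]
    _ ≤ max 1 (2 * c0 * (1 + 4 / (c * Real.log 2))) * Y ^ c * Bd :=
        mul_le_mul_of_nonneg_right
          (mul_le_mul_of_nonneg_right (le_max_right _ _) hYc0) hBd

end Pool.Agent.PP5Q
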