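import Pool.Agent.PP5Q.Pm
import Pool.Agent.PP5Q.Cl

set_option autoImplicit false

namespace Pool.Agent.PP5Q

open Matrix Finset Pool.Agent.PP5B Pool.Agent.PP5P Pool.Agent.PP5

/-- size 2.  `|det G| ≤ 24 C0 ^ 4 (∏ l) ^ 2 / T ^ 4` (Leibniz formula, `Matrix.det_apply`, as `SnD_det3` in PP5N/SnD) -/
theorem det_le {C0 T : ℝ} (hC0 : 0 < C0) {G : Matrix (Fin 4) (Fin 4) ℤ} {l : Fin 4 → ℝ}
    (h : GH C0 T G l) : |(G.det : ℝ)| ≤ 24 * C0 ^ 4 * (∏ i, l i) ^ 2 / T ^ 4 := by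
  have hc0 : ∀ a b, |((G a b : ℤ) : ℝ)| ≤ (C0 / T) * l a * l b := by
    intro a b
    refine (h.gram a b).trans (le_of_eq ?_)
    ring
  have e0 : (G.det : ℝ) = Matrix.det (fun a b => ((G a b : ℤ) : ℝ)) := by
    have := (Int.castRingHom ℝ).map_det G
    rw [eq_intCast] at this
    rw [this]
    rfl
  rw [e0, Matrix.det_apply]
  calc |∑ σ : Equiv.Perm (Fin 4), Equiv.Perm.sign σ • ∏ i, ((G (σ i) i : ℤ) : ℝ)|
      ≤ ∑ σ : Equiv.Perm (Fin 4), |Equiv.Perm.sign σ • ∏ i, ((G (σ i) i : ℤ) : ℝ)| :=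
        Finset.abs_sum_le_sum_abs _ _
    _ ≤ ∑ _σ : Equiv.Perm (Fin 4), ((C0 / T) ^ 4 * (∏ a, l a) * ∏ b, l b) := by
      refine Finset.sum_le_sum fun σ _ => ?_
      have e1 : |Equiv.Perm.sign σ • ∏ i, ((G (σ i) i : ℤ) : ℝ)|
          = ∏ i, |((G (σ i) i : ℤ) : ℝ)| := by
        rcases Int.units_eq_one_or (Equiv.Perm.sign σ) with hs | hs <;>
          simp [hs, Finset.abs_prod]
      rw [e1]
      calc ∏ i, |((G (σ i) i : ℤ) : ℝ)| ≤ ∏ i, ((C0 / T) * l (σ i) * l i) :=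
            Finset.prod_le_prod (fun i _ => abs_nonneg _) (fun i _ => hc0 _ _)
        _ = (C0 / T) ^ 4 * (∏ a, l a) * ∏ b, l b := by
          rw [Finset.prod_mul_distrib, Finset.prod_mul_distrib, Equiv.prod_comp σ l,
            Finset.prod_const, Finset.card_univ, Fintype.card_fin]
    _ = 24 * C0 ^ 4 * (∏ i, l i) ^ 2 / T ^ 4 := by
      rw [Finset.sum_const, Finset.card_univ, Fintype.card_perm, nsmul_eq_mul, div_pow]
      norm_num [Nat.factorial]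
      ring

private theorem Ms_ne {m : Fin 4 → ℤ} (h : Pr4 m) : m ≠ 0 := by
  intro h0
  exact h 2 Nat.prime_two fun i => by rw [h0]; exact dvd_zero _

private theorem Ms_sl {C0 T : ℝ} {G : Matrix (Fin 4) (Fin 4) ℤ} {l : Fin 4 → ℝ}
    (h : GH C0 T G l) {m : Fin 4 → ℤ} (hm : Pr4 m) :
    0 < sl G m ∧ sl G m ∣ (2 * G.det).natAbs := by
  have h1 := sl_det h.sym h.ev hm
  have h2 : ((sl G m : ℤ)) ∣ 2 * G.det := dvd_trans (dvd_pow_self _ two_ne_zero) h1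
  refine ⟨Nat.pos_of_ne_zero fun h0 => ?_, Int.natCast_dvd.mp h2⟩
  rw [h0, Nat.cast_zero, zero_dvd_iff] at h2
  exact h.dn (by omega)

private theorem Ms_D {C0 T Y : ℝ} (hC0 : 1 ≤ C0) {G : Matrix (Fin 4) (Fin 4) ℤ} {l : Fin 4 → ℝ}
    (h : GH C0 T G l) (hY : 1 ≤ Y) (hl : ∀ i, l i ≤ Y) (hT : 1 / Y ≤ T) :
    (((2 * G.det).natAbs : ℕ) : ℝ) ≤ 48 * C0 ^ 4 * Y ^ 12 := by
  have hY0 : 0 < Y := by linarith
  have hC : 0 < C0 := by linarith
  have h1 := det_le hC h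
  have e1 : (((2 * G.det).natAbs : ℕ) : ℝ) = 2 * |(G.det : ℝ)| := by
    rw [Nat.cast_natAbs, Int.cast_abs, Int.cast_mul, abs_mul]
    norm_num
  have h2 : (∏ i, l i) ≤ Y ^ 4 := by
    calc ∏ i, l i ≤ ∏ _i : Fin 4, Y :=
          Finset.prod_le_prod (fun i _ => (h.lp i).le) (fun i _ => hl i)
      _ = Y ^ 4 := by rw [Finset.prod_const, Finset.card_univ, Fintype.card_fin]
  have h3 : 0 ≤ ∏ i, l i := Finset.prod_nonneg fun i _ => (h.lp i).le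
  have h4 : (∏ i, l i) ^ 2 ≤ Y ^ 8 := by
    calc (∏ i, l i) ^ 2 ≤ (Y ^ 4) ^ 2 := pow_le_pow_left₀ h3 h2 2
      _ = Y ^ 8 := by ring
  have h5 : 1 / T ^ 4 ≤ Y ^ 4 := by
    have h6 : 1 / T ≤ Y := by
      rw [div_le_iff₀ h.T0]
      rw [div_le_iff₀ hY0] at hT
      linarith
    have h7 : 0 ≤ 1 / T := by
      have := h.T0
      positivity
    calc 1 / T ^ 4 = (1 / T) ^ 4 := by rw [div_pow, one_pow]
      _ ≤ Y ^ 4 := pow_le_pow_left₀ h7 h6 4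
  have h8 : 24 * C0 ^ 4 * (∏ i, l i) ^ 2 / T ^ 4 ≤ 24 * C0 ^ 4 * Y ^ 12 := by
    have hT4 : 0 ≤ 1 / T ^ 4 := by
      have := h.T0
      positivity
    calc 24 * C0 ^ 4 * (∏ i, l i) ^ 2 / T ^ 4
        = 24 * C0 ^ 4 * ((∏ i, l i) ^ 2 * (1 / T ^ 4)) := by ring
      _ ≤ 24 * C0 ^ 4 * (Y ^ 8 * Y ^ 4) := by
          refine mul_le_mul_of_nonneg_left ?_ (by positivity)
          exact mul_le_mul h4 h5 hT4 (by positivity)
      _ = 24 * C0 ^ 4 * Y ^ 12 := by ring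
  rw [e1]
  linarith

/-- THE SUM OVER `m` (size 4).  Proof: every `v ∈ V` is orthogonal to some `m ∈ M`:
`V.card ≤ ∑_{m ∈ M} card {v ∈ V | m . v = 0} ≤ C Y' ^ c' ∑_{m ∈ M} (1 + [D2 G m ≠ 0] H sl / (T √|det| nw))` by `perm` with `Y' = Y ^ 2`
(`|m i| ≤ u l i ≤ Y ^ 2`).  The sum over the `m` with `D2 G m ≠ 0` of `sl G m / nw l m` is bounded by `cls` (`α = Fin 4 → ℤ`, `M.filter (D2 G · ≠ 0)`,
`D = (2 * G.det).natAbs`, `sl G m ∣ D` from `sl_det` (PP5P/Sl), `D ≤ 48 C0 ^ 4 Y ^ 12`, `nw l m ≥ 1 / Y` as some `|m i| ≥ 1` and `l i ≤ Y`;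
`nw l m ≤ u ≤ Y`; take `Y'' = 48 C0 ^ 4 Y ^ 12`). -/
theorem msum (c : ℝ) (hc : 0 < c) (C0 : ℝ) (hC0 : 1 ≤ C0) : ∃ C : ℝ, 1 ≤ C ∧
    ∀ (G : Matrix (Fin 4) (Fin 4) ℤ) (l : Fin 4 → ℝ) (T Y H u : ℝ), GH C0 T G l → ¬ IsSquare G.det →
    1 ≤ Y → (∀ i, l i ≤ Y) → 1 / Y ≤ T → 0 < H → 0 < u → u ≤ Y →
    ∀ M : Finset (Fin 4 → ℤ), (∀ m ∈ M, Pr4 m ∧ ∀ i, |(m i : ℝ)| ≤ u * l i) → ∀ Bd : ℝ, 0 ≤ Bd →
    (∀ (s : ℕ) (u' : ℝ) (X : Finset (Fin 4 → ℤ)), X ⊆ M → X.Nonempty → 0 < s → 0 < u' → u' ≤ 2 * u →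
      (∀ m ∈ X, D2 G m ≠ 0 ∧ sl G m = s ∧ nw l m ≤ u' ∧ u' ≤ 2 * nw l m) →
      (s : ℝ) * X.card / u' ≤ Bd) →
    ∀ V : Finset (Fin 4 → ℤ), (∀ v ∈ V, Pr4 v ∧ v ⬝ᵥ (G *ᵥ v) = 0 ∧ (∀ i, |(v i : ℝ)| * l i ≤ H) ∧
      ∃ m ∈ M, m ⬝ᵥ v = 0) →
    (V.card : ℝ) ≤ C * Y ^ c * (M.card + H / (T * √|(G.det : ℝ)|) * Bd) := by
  classical
  obtain ⟨C1, hC1, hperm⟩ := perm (c / 4) (by linarith) C0 hC0
  obtain ⟨C2, hC2, hcls⟩ := cls (c / 24) (by linarith)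
  have hK1 : 1 ≤ 48 * C0 ^ 4 := by
    have : 1 ≤ C0 ^ 4 := one_le_pow₀ hC0
    linarith
  have hK0 : 0 ≤ 48 * C0 ^ 4 := by linarith
  have hKc : 1 ≤ (48 * C0 ^ 4) ^ (c / 24) := Real.one_le_rpow hK1 (by linarith)
  refine ⟨C1 * (C2 * (48 * C0 ^ 4) ^ (c / 24)), ?_, ?_⟩
  · exact one_le_mul_of_one_le_of_one_le hC1 (one_le_mul_of_one_le_of_one_le hC2 hKc)
  intro G l T Y H u hG hns hY hl hT hH hu huY M hM Bd hBd hB V hV
  have hY0 : 0 < Y := by linarith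
  have hYY : Y ≤ Y ^ 2 := by nlinarith
  have hlp := hG.lp
  have hT0 := hG.T0
  -- the bound for one `m`
  have hone : ∀ m ∈ M, ((V.filter fun v => m ⬝ᵥ v = 0).card : ℝ)
      ≤ C1 * (Y ^ 2) ^ (c / 4) * (1 + (if D2 G m = 0 then 0 else
        H * (sl G m : ℝ) / (T * √|(G.det : ℝ)| * nw l m))) := by
    intro m hm
    refine hperm G l T (Y ^ 2) H hG hns (by linarith) (fun i => (hl i).trans hYY) ?_ hH m
      (hM m hm).1 (fun i => ?_) _ fun v hv => ?_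
    · refine le_trans ?_ hT
      exact one_div_le_one_div_of_le hY0 hYY
    · calc |(m i : ℝ)| ≤ u * l i := (hM m hm).2 i
        _ ≤ Y * Y := mul_le_mul huY (hl i) (hlp i).le hY0.le
        _ = Y ^ 2 := by ring
    · rw [Finset.mem_filter] at hv
      obtain ⟨h1, h2, h3, _⟩ := hV v hv.1
      exact ⟨h1, h2, hv.2, h3⟩
  have hcard : (V.card : ℝ) ≤ ∑ m ∈ M, ((V.filter fun v => m ⬝ᵥ v = 0).card : ℝ) := by
    have h1 : V ⊆ M.biUnion fun m => V.filter fun v => m ⬝ᵥ v = 0 := by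
      intro v hv
      obtain ⟨_, _, _, m, hm, h⟩ := hV v hv
      rw [Finset.mem_biUnion]
      exact ⟨m, hm, Finset.mem_filter.mpr ⟨hv, h⟩⟩
    calc (V.card : ℝ) ≤ ((M.biUnion fun m => V.filter fun v => m ⬝ᵥ v = 0).card : ℝ) := by
          exact_mod_cast Finset.card_le_card h1
      _ ≤ ((∑ m ∈ M, (V.filter fun v => m ⬝ᵥ v = 0).card : ℕ) : ℝ) := by
          exact_mod_cast Finset.card_biUnion_le
      _ = _ := by push_cast; rfl
  -- the sum of `sl / nw`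
  have hDne : (2 * G.det).natAbs ≠ 0 := by
    rw [Int.natAbs_ne_zero]
    exact mul_ne_zero two_ne_zero hG.dn
  have hY12 : 1 ≤ Y ^ 12 := one_le_pow₀ hY
  have hYb : Y ≤ 48 * C0 ^ 4 * Y ^ 12 := by
    have h1 : Y ≤ Y ^ 12 := by
      calc Y = Y ^ 1 := (pow_one Y).symm
        _ ≤ Y ^ 12 := pow_le_pow_right₀ hY (by norm_num)
    calc Y ≤ Y ^ 12 := h1
      _ = 1 * Y ^ 12 := (one_mul _).symm
      _ ≤ 48 * C0 ^ 4 * Y ^ 12 := mul_le_mul_of_nonneg_right hK1 (by positivity)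
  have hsum : ∑ m ∈ M.filter (fun m => ¬ D2 G m = 0), (sl G m : ℝ) / nw l m
      ≤ C2 * (48 * C0 ^ 4 * Y ^ 12) ^ (c / 24) * Bd := by
    refine hcls (M.filter fun m => ¬ D2 G m = 0) (fun m => sl G m) (fun m => nw l m)
      (2 * G.det).natAbs (48 * C0 ^ 4 * Y ^ 12) Bd (hY.trans hYb) hDne (Ms_D hC0 hG hY hl hT)
      hBd (fun m hm => ?_) fun s0 u' X hX hXne hu' hXm => ?_
    · rw [Finset.mem_filter] at hm
      obtain ⟨hp, hb⟩ := hM m hm.1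
      refine ⟨(Ms_sl hG hp).2, ?_, ?_⟩
      · obtain ⟨i, hi⟩ : ∃ i, m i ≠ 0 := by
          by_contra hcon
          push Not at hcon
          exact Ms_ne hp (funext hcon)
        have h1 : (1 : ℝ) ≤ |(m i : ℝ)| := by
          have : (1 : ℤ) ≤ |m i| := Int.one_le_abs hi
          exact_mod_cast this
        have h2 := le_nw hlp m i
        have h3 : nw l m * l i ≤ nw l m * Y := mul_le_mul_of_nonneg_left (hl i) (nw_nonneg _ _)
        have h4 : 1 / Y ≤ nw l m := by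
          rw [div_le_iff₀ hY0]
          linarith
        refine le_trans ?_ h4
        exact one_div_le_one_div_of_le hY0 hYb
      · have h1 : nw l m ≤ u := (nw_le_iff hlp hu.le).mpr hb
        linarith
    · obtain ⟨m0, hm0⟩ := hXne
      have hXM : X ⊆ M := fun m hm => (Finset.mem_filter.mp (hX hm)).1
      obtain ⟨e1, e2, e3⟩ := hXm m0 hm0
      have hs0 : 0 < s0 := by
        rw [← e1]
        exact (Ms_sl hG (hM m0 (hXM hm0)).1).1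
      have h1 : nw l m0 ≤ u := (nw_le_iff hlp hu.le).mpr (hM m0 (hXM hm0)).2
      refine hB s0 u' X hXM ⟨m0, hm0⟩ hs0 hu' (by linarith) fun m hm => ?_
      obtain ⟨f1, f2, f3⟩ := hXm m hm
      exact ⟨(Finset.mem_filter.mp (hX hm)).2, f1, f2, f3⟩
  -- assembly
  have hq0 : 0 ≤ H / (T * √|(G.det : ℝ)|) := by positivity
  have hC1Y : 0 ≤ C1 * (Y ^ 2) ^ (c / 4) := by positivity
  have hmain : (V.card : ℝ) ≤ C1 * (Y ^ 2) ^ (c / 4) * (M.card + H / (T * √|(G.det : ℝ)|) *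
      (C2 * (48 * C0 ^ 4 * Y ^ 12) ^ (c / 24) * Bd)) := by
    calc (V.card : ℝ) ≤ ∑ m ∈ M, ((V.filter fun v => m ⬝ᵥ v = 0).card : ℝ) := hcard
      _ ≤ ∑ m ∈ M, C1 * (Y ^ 2) ^ (c / 4) * (1 + (if D2 G m = 0 then 0 else
        H * (sl G m : ℝ) / (T * √|(G.det : ℝ)| * nw l m))) := Finset.sum_le_sum hone
      _ = C1 * (Y ^ 2) ^ (c / 4) * (M.card + H / (T * √|(G.det : ℝ)|) *
          ∑ m ∈ M.filter (fun m => ¬ D2 G m = 0), (sl G m : ℝ) / nw l m) := by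
          rw [← Finset.mul_sum, Finset.sum_add_distrib, Finset.sum_const, nsmul_eq_mul, mul_one,
            Finset.sum_filter, Finset.mul_sum]
          congr 2
          refine Finset.sum_congr rfl fun m _ => ?_
          by_cases hD : D2 G m = 0
          · simp [hD]
          · simp only [hD, if_false, not_false_eq_true, if_true]
            rw [div_mul_div_comm]
      _ ≤ _ := by
          refine mul_le_mul_of_nonneg_left ?_ hC1Y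
          refine add_le_add le_rfl ?_
          exact mul_le_mul_of_nonneg_left hsum hq0
  have e1 : (Y ^ 2) ^ (c / 4) = Y ^ (c / 2) := by
    rw [← Real.rpow_natCast, ← Real.rpow_mul hY0.le]
    congr 1
    push_cast
    ring
  have e2 : (48 * C0 ^ 4 * Y ^ 12) ^ (c / 24) = (48 * C0 ^ 4) ^ (c / 24) * Y ^ (c / 2) := by
    rw [Real.mul_rpow hK0 (by positivity), ← Real.rpow_natCast Y 12, ← Real.rpow_mul hY0.le]
    congr 2
    push_cast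
    ring
  have e3 : Y ^ c = Y ^ (c / 2) * Y ^ (c / 2) := by
    rw [← Real.rpow_add hY0]
    congr 1
    ring
  have hYc : 1 ≤ Y ^ (c / 2) := Real.one_le_rpow hY (by linarith)
  rw [e1, e2] at hmain
  rw [e3]
  set y := Y ^ (c / 2) with hy
  set k := (48 * C0 ^ 4) ^ (c / 24) with hk
  set q := H / (T * √|(G.det : ℝ)|) with hq
  have hM0 : (0 : ℝ) ≤ M.card := Nat.cast_nonneg _
  have h1 : (1 : ℝ) ≤ C2 * k := one_le_mul_of_one_le_of_one_le hC2 hKc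
  have h2 : (1 : ℝ) ≤ C2 * k * y := one_le_mul_of_one_le_of_one_le h1 hYc
  calc (V.card : ℝ) ≤ C1 * y * (M.card + q * (C2 * (k * y) * Bd)) := hmain
    _ = C1 * y * (1 * M.card) + C1 * (C2 * k) * (y * y) * (q * Bd) := by ring
    _ ≤ C1 * y * (C2 * k * y * M.card) + C1 * (C2 * k) * (y * y) * (q * Bd) := by
        refine add_le_add (mul_le_mul_of_nonneg_left ?_ (by positivity)) le_rfl
        exact mul_le_mul_of_nonneg_right h2 hM0
    _ = C1 * (C2 * k) * (y * y) * (M.card + q * Bd) := by ring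

end Pool.Agent.PP5Q
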