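import Pool.Agent.PP5Q.Lb
import Pool.Agent.PP5Q.Mi

set_option autoImplicit false

namespace Pool.Agent.PP5Q

open Matrix Finset Pool.Agent.PP5B Pool.Agent.PP5P Pool.Agent.PP5

/-- `s min(a, b / s ^ 2) ≤ √(a b)` -/
private theorem Nb_min {a b s : ℝ} (ha : 0 ≤ a) (hb : 0 ≤ b) (hs : 0 < s) :
    s * min a (b / s ^ 2) ≤ √(a * b) := by
  refine Real.le_sqrt_of_sq_le ?_
  have h0 : 0 ≤ min a (b / s ^ 2) := le_min ha (by positivity)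
  have h1 : min a (b / s ^ 2) * min a (b / s ^ 2) ≤ a * (b / s ^ 2) :=
    mul_le_mul (min_le_left _ _) (min_le_right _ _) h0 ha
  calc (s * min a (b / s ^ 2)) ^ 2 = s ^ 2 * (min a (b / s ^ 2) * min a (b / s ^ 2)) := by ring
    _ ≤ s ^ 2 * (a * (b / s ^ 2)) := mul_le_mul_of_nonneg_left h1 (by positivity)
    _ = a * b := by field_simp

private theorem Nb_cube {x y q : ℝ} (hy : 0 ≤ y) (hq : 0 ≤ q) (h : x ^ 3 ≤ y ^ 3 * q) :
    x ≤ y * q ^ (1 / 3 : ℝ) := by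
  have h1 : (y * q ^ (1 / 3 : ℝ)) ^ 3 = y ^ 3 * q := by
    rw [mul_pow, ← Real.rpow_natCast (q ^ (1 / 3 : ℝ)) 3, ← Real.rpow_mul hq]
    norm_num
  rw [← h1] at h
  by_contra hc
  push Not at hc
  have h2 : 0 ≤ y * q ^ (1 / 3 : ℝ) := mul_nonneg hy (Real.rpow_nonneg hq _)
  exact absurd h (not_le.2 (pow_lt_pow_left₀ hc h2 (by norm_num)))

/-- CLASS BOUND FOR nx1 (size 4).  `A = mi2 G`, `Λ = ∏ l`.  By `latS` with `u := u'`; multiply the four terms by `s / u'` and use `u' ≤ 2 u`: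
`s min(1, A / s ^ 2) ≤ √A`; `s min(1 / l 0, l 3 A / (T s ^ 2)) ≤ √(l 3 A / (l 0 T))` (min ≤ geometric mean);
`s / u' ≤ 10 C0 (Λ ^ 2 / T ^ 3) ^ (1/3) u' ^ (-1/3)` by `sl3` (some `m ∈ X`), and `u' ≥ nw l m ≥ 1 / l 3` (some `|m i| ≥ 1`); fourth term: `u' l 2 l 3 √mi3`, `sqrt_mi3`. -/
theorem nxb (c : ℝ) (hc : 0 < c) (C0 : ℝ) (hC0 : 1 ≤ C0) : ∃ C : ℝ, 1 ≤ C ∧
    ∀ (G : Matrix (Fin 4) (Fin 4) ℤ) (l : Fin 4 → ℝ) (T Y u : ℝ), GH C0 T G l →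
    1 ≤ Y → (∀ i, l i ≤ Y) → 1 / Y ≤ T → 0 < u → ∀ (s : ℕ) (u' : ℝ), 0 < s → 0 < u' → u' ≤ 2 * u →
    ∀ X : Finset (Fin 4 → ℤ), X.Nonempty → (∀ m ∈ X, Pr4 m ∧ D2 G m ≠ 0 ∧ sl G m = s ∧ nw l m ≤ u') →
    (s : ℝ) * X.card / u' ≤ C * Y ^ c *
      (u ^ 3 * (∏ i, l i) * √(PP5N.mi2 G : ℝ) +
        u ^ 2 * (∏ i, l i) * √(l 3 * PP5N.mi2 G / (l 0 * T)) +
        ((∏ i, l i) ^ 2 / T ^ 3) ^ (1 / 3 : ℝ) * l 3 ^ (1 / 3 : ℝ) +
        u * l 2 * l 3 * ((PP5N.mi2 G : ℝ) * |(G.det : ℝ)|) ^ (1 / 4 : ℝ)) := by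
  obtain ⟨C1, hC1, H⟩ := latS c hc C0 hC0
  have hC0' : 0 < C0 := by linarith
  refine ⟨10 * C0 * C1, by nlinarith [mul_le_mul hC0 hC1 zero_le_one hC0'.le], ?_⟩
  intro G l T Y u hG hY hlY hT hu s u' hs hu' huu X hX hXm
  have hl : ∀ i, 0 < l i := hG.lp
  have hb : ∀ m ∈ X, ∀ i, |(m i : ℝ)| ≤ u' * l i := by
    intro m hm i
    have h1 := (hXm m hm).2.2.2
    have h2 : |(m i : ℝ) / l i| ≤ nw l m := norm_le_pi_norm (fun i => (m i : ℝ) / l i) i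
    rw [abs_div, abs_of_pos (hl i)] at h2
    have h3 := h2.trans h1
    rwa [div_le_iff₀ (hl i)] at h3
  have hmain := H G l T Y u' hG hY hlY hT hu' s hs X
    (fun m hm => ⟨(hXm m hm).1, (hXm m hm).2.2.1, hb m hm⟩)
  obtain ⟨m, hm⟩ := hX
  have hm0 : ∃ i, m i ≠ 0 := by
    by_contra h0
    push Not at h0
    exact (hXm m hm).1 2 Nat.prime_two (fun i => by rw [h0 i]; exact dvd_zero _)
  obtain ⟨i, hi⟩ := hm0
  have h1 : (1 : ℝ) ≤ |(m i : ℝ)| := by exact_mod_cast Int.one_le_abs hi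
  have h2 : 1 ≤ u' * l 3 :=
    h1.trans ((hb m hm i).trans (mul_le_mul_of_nonneg_left (hG.le_l3 i) hu'.le))
  have hs3 := sl3 hC0' hG (hXm m hm).1 (hXm m hm).2.1 hu'.le (hb m hm)
  rw [(hXm m hm).2.2.1] at hs3
  have hsm := sqrt_mi3 hG.dn
  have hR : 0 ≤ √(PP5N.mi3 G : ℝ) := Real.sqrt_nonneg _
  have hT0 : 0 < T := hG.T0
  have hS : (0 : ℝ) < s := by exact_mod_cast hs
  have hΛ : 0 < ∏ i, l i := Finset.prod_pos fun i _ => hl i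
  have hA : (0 : ℝ) ≤ (PP5N.mi2 G : ℝ) := Nat.cast_nonneg _
  have hl0 := hl 0
  have hl2 := hl 2
  have hl3 := hl 3
  generalize (∏ i, l i) = Λ at *
  generalize (PP5N.mi2 G : ℝ) = A at *
  generalize (s : ℝ) = S at *
  generalize √(PP5N.mi3 G : ℝ) = R at *
  generalize (A * |(G.det : ℝ)|) ^ (1 / 4 : ℝ) = Q at *
  have hP : 0 < C1 * Y ^ c := by positivity
  have t1 : S / u' * (u' ^ 4 * Λ * min 1 (A / S ^ 2)) ≤ 10 * C0 * (u ^ 3 * Λ * √A) := by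
    have h := Nb_min zero_le_one hA hS
    rw [one_mul] at h
    calc S / u' * (u' ^ 4 * Λ * min 1 (A / S ^ 2))
        = u' ^ 3 * Λ * (S * min 1 (A / S ^ 2)) := by field_simp
      _ ≤ (2 * u) ^ 3 * Λ * √A := by gcongr
      _ = 8 * (u ^ 3 * Λ * √A) := by ring
      _ ≤ 10 * C0 * (u ^ 3 * Λ * √A) := by
          refine mul_le_mul_of_nonneg_right ?_ (by positivity)
          linarith
  have t2 : S / u' * (u' ^ 3 * Λ * min (1 / l 0) (l 3 * A / (T * S ^ 2)))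
      ≤ 10 * C0 * (u ^ 2 * Λ * √(l 3 * A / (l 0 * T))) := by
    have h := Nb_min (a := 1 / l 0) (b := l 3 * A / T) (by positivity) (by positivity) hS
    have e1 : l 3 * A / T / S ^ 2 = l 3 * A / (T * S ^ 2) := by rw [div_div]
    have e2 : 1 / l 0 * (l 3 * A / T) = l 3 * A / (l 0 * T) := by field_simp
    rw [e1, e2] at h
    calc S / u' * (u' ^ 3 * Λ * min (1 / l 0) (l 3 * A / (T * S ^ 2)))
        = u' ^ 2 * Λ * (S * min (1 / l 0) (l 3 * A / (T * S ^ 2))) := by field_simp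
      _ ≤ (2 * u) ^ 2 * Λ * √(l 3 * A / (l 0 * T)) := by gcongr
      _ = 4 * (u ^ 2 * Λ * √(l 3 * A / (l 0 * T))) := by ring
      _ ≤ 10 * C0 * (u ^ 2 * Λ * √(l 3 * A / (l 0 * T))) := by
          refine mul_le_mul_of_nonneg_right ?_ (by positivity)
          linarith
  have t3 : S / u' * 1 ≤ 10 * C0 * ((Λ ^ 2 / T ^ 3) ^ (1 / 3 : ℝ) * l 3 ^ (1 / 3 : ℝ)) := by
    rw [mul_one, ← Real.mul_rpow (by positivity) hl3.le]
    refine Nb_cube (by positivity) (by positivity) ?_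
    have h3 : 1 / u' ≤ l 3 := by
      rw [div_le_iff₀ hu']
      linarith
    calc (S / u') ^ 3 = S ^ 3 / u' ^ 3 := by rw [div_pow]
      _ ≤ 768 * (C0 / T) ^ 3 * Λ ^ 2 * u' ^ 2 / u' ^ 3 := by gcongr
      _ = 768 * C0 ^ 3 * (Λ ^ 2 / T ^ 3 * (1 / u')) := by field_simp
      _ ≤ 768 * C0 ^ 3 * (Λ ^ 2 / T ^ 3 * l 3) := by gcongr
      _ ≤ (10 * C0) ^ 3 * (Λ ^ 2 / T ^ 3 * l 3) := by
          refine mul_le_mul_of_nonneg_right ?_ (by positivity)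
          have : (0 : ℝ) < C0 ^ 3 := by positivity
          nlinarith
  have t4 : S / u' * (u' ^ 2 * (l 2 * l 3) * R / S) ≤ 10 * C0 * (u * l 2 * l 3 * Q) := by
    have hQ : 0 ≤ Q := hR.trans hsm
    calc S / u' * (u' ^ 2 * (l 2 * l 3) * R / S) = u' * (l 2 * l 3) * R := by field_simp
      _ ≤ 2 * u * (l 2 * l 3) * Q := by gcongr
      _ = 2 * (u * l 2 * l 3 * Q) := by ring
      _ ≤ 10 * C0 * (u * l 2 * l 3 * Q) := by
          refine mul_le_mul_of_nonneg_right ?_ (by positivity)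
          linarith
  calc S * X.card / u' = S / u' * X.card := by ring
    _ ≤ S / u' * (C1 * Y ^ c * (u' ^ 4 * Λ * min 1 (A / S ^ 2) +
        u' ^ 3 * Λ * min (1 / l 0) (l 3 * A / (T * S ^ 2)) +
        1 + u' ^ 2 * (l 2 * l 3) * R / S)) := mul_le_mul_of_nonneg_left hmain (by positivity)
    _ = C1 * Y ^ c * (S / u' * (u' ^ 4 * Λ * min 1 (A / S ^ 2)) +
        S / u' * (u' ^ 3 * Λ * min (1 / l 0) (l 3 * A / (T * S ^ 2))) +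
        S / u' * 1 + S / u' * (u' ^ 2 * (l 2 * l 3) * R / S)) := by ring
    _ ≤ C1 * Y ^ c * (10 * C0 * (u ^ 3 * Λ * √A) +
        10 * C0 * (u ^ 2 * Λ * √(l 3 * A / (l 0 * T))) +
        10 * C0 * ((Λ ^ 2 / T ^ 3) ^ (1 / 3 : ℝ) * l 3 ^ (1 / 3 : ℝ)) +
        10 * C0 * (u * l 2 * l 3 * Q)) := by
          refine mul_le_mul_of_nonneg_left ?_ hP.le
          exact add_le_add (add_le_add (add_le_add t1 t2) t3) t4
    _ = 10 * C0 * C1 * Y ^ c * (u ^ 3 * Λ * √A + u ^ 2 * Λ * √(l 3 * A / (l 0 * T)) +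
        (Λ ^ 2 / T ^ 3) ^ (1 / 3 : ℝ) * l 3 ^ (1 / 3 : ℝ) + u * l 2 * l 3 * Q) := by ring

end Pool.Agent.PP5Q
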