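import Pool.Agent.PP5Q.Lb

set_option autoImplicit false

namespace Pool.Agent.PP5Q

open Matrix Finset Pool.Agent.PP5B Pool.Agent.PP5P Pool.Agent.PP5

private theorem HaR_s {s N S : ℝ} (hS : 1 ≤ S) (hN : 1 ≤ N) (hs : S < s)
    (hsN : s ≤ N ^ (21 / 20 : ℝ)) :
    s * s ^ (11 / 4 : ℝ) * ((s + N) ^ 4 / s ^ 4)
      ≤ 16 * N ^ 4 * (S ^ (-(1 / 4) : ℝ) + N ^ (-(1 / 20) : ℝ)) := by
  have hs0 : 0 < s := by linarith
  have hN0 : 0 < N := by linarith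
  have hS0 : 0 < S := by linarith
  have e1 : s * s ^ (11 / 4 : ℝ) = s ^ (15 / 4 : ℝ) := by
    have h := Real.rpow_add hs0 1 (11 / 4 : ℝ)
    rw [Real.rpow_one] at h
    rw [← h]
    norm_num
  have hSn : 0 ≤ S ^ (-(1 / 4) : ℝ) := Real.rpow_nonneg hS0.le _
  have hNn : 0 ≤ N ^ (-(1 / 20) : ℝ) := Real.rpow_nonneg hN0.le _
  rw [e1]
  rcases le_or_gt s N with h | h
  · have h1 : (s + N) ^ 4 ≤ (2 * N) ^ 4 := pow_le_pow_left₀ (by positivity) (by linarith) 4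
    have h2 : s ^ (15 / 4 : ℝ) / s ^ 4 = s ^ (-(1 / 4) : ℝ) := by
      have h3 : s ^ 4 = s ^ (4 : ℝ) := by
        rw [← Real.rpow_natCast]
        norm_num
      rw [h3, ← Real.rpow_sub hs0]
      norm_num
    have h4 : s ^ (-(1 / 4) : ℝ) ≤ S ^ (-(1 / 4) : ℝ) :=
      Real.rpow_le_rpow_of_nonpos hS0 hs.le (by norm_num)
    have h5 : s ^ (15 / 4 : ℝ) * ((s + N) ^ 4 / s ^ 4)
        = s ^ (15 / 4 : ℝ) / s ^ 4 * (s + N) ^ 4 := by ring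
    rw [h5, h2]
    calc s ^ (-(1 / 4) : ℝ) * (s + N) ^ 4 ≤ S ^ (-(1 / 4) : ℝ) * (2 * N) ^ 4 := by gcongr
      _ = 16 * N ^ 4 * S ^ (-(1 / 4) : ℝ) := by ring
      _ ≤ _ := by
        refine mul_le_mul_of_nonneg_left ?_ (by positivity)
        linarith
  · have h1 : (s + N) ^ 4 / s ^ 4 ≤ 16 := by
      rw [div_le_iff₀ (by positivity)]
      have h2 : (s + N) ^ 4 ≤ (2 * s) ^ 4 := pow_le_pow_left₀ (by positivity) (by linarith) 4
      calc (s + N) ^ 4 ≤ (2 * s) ^ 4 := h2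
        _ = 16 * s ^ 4 := by ring
    have h3 : s ^ (15 / 4 : ℝ) ≤ N ^ (4 : ℝ) * N ^ (-(1 / 20) : ℝ) := by
      have h4 : s ^ (15 / 4 : ℝ) ≤ (N ^ (21 / 20 : ℝ)) ^ (15 / 4 : ℝ) :=
        Real.rpow_le_rpow hs0.le hsN (by norm_num)
      refine h4.trans ?_
      rw [← Real.rpow_mul hN0.le, ← Real.rpow_add hN0]
      exact Real.rpow_le_rpow_of_exponent_le hN (by norm_num)
    have h4 : N ^ (4 : ℝ) = N ^ 4 := by
      rw [← Real.rpow_natCast]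
      norm_num
    rw [h4] at h3
    calc s ^ (15 / 4 : ℝ) * ((s + N) ^ 4 / s ^ 4)
        ≤ (N ^ 4 * N ^ (-(1 / 20) : ℝ)) * 16 := by
          refine mul_le_mul h3 h1 (by positivity) (by positivity)
      _ = 16 * N ^ 4 * N ^ (-(1 / 20) : ℝ) := by ring
      _ ≤ _ := by
        refine mul_le_mul_of_nonneg_left ?_ (by positivity)
        linarith

private theorem HaR_prod {C0 T N E : ℝ} {G : Matrix (Fin 4) (Fin 4) ℤ} {l : Fin 4 → ℝ}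
    (h : NG C0 T N E G l) {s u' : ℝ} (hs : 0 < s) (hu : 0 < u') (hu2 : u' ≤ 2 * (E / N)) :
    ∏ i, (1 + 4 * u' * l i / s) ≤ 6561 * E ^ 8 * ((s + N) ^ 4 / s ^ 4) := by
  have hN := h.N1
  have hE := h.E1
  have hN0 : 0 < N := by linarith
  have hE0 : 0 < E := by linarith
  have h1 : ∀ i, 1 + 4 * u' * l i / s ≤ 9 * E ^ 2 * ((s + N) / s) := by
    intro i
    have h2 : u' * l i ≤ 2 * E ^ 2 * N := by
      calc u' * l i ≤ 2 * (E / N) * (E * N ^ 2) :=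
            mul_le_mul hu2 (h.lup i) (h.gh.lp i).le (by positivity)
        _ = 2 * E ^ 2 * N := by
            field_simp
    rw [← sub_nonneg]
    have h3 : 9 * E ^ 2 * ((s + N) / s) - (1 + 4 * u' * l i / s)
        = ((9 * E ^ 2 - 1) * s + (9 * E ^ 2 * N - 4 * (u' * l i))) / s := by
      field_simp
      ring
    rw [h3]
    have hE2 : 1 ≤ E ^ 2 := one_le_pow₀ hE
    have h4 : 0 ≤ (9 * E ^ 2 - 1) * s := mul_nonneg (by linarith) hs.le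
    have h5 : 0 ≤ E ^ 2 * N := by positivity
    have h6 : 0 ≤ 9 * E ^ 2 * N - 4 * (u' * l i) := by
      nlinarith
    exact div_nonneg (by linarith) hs.le
  calc ∏ i, (1 + 4 * u' * l i / s) ≤ ∏ _i : Fin 4, 9 * E ^ 2 * ((s + N) / s) := by
        refine Finset.prod_le_prod (fun i _ => ?_) fun i _ => h1 i
        have := h.gh.lp i
        positivity
    _ = (9 * E ^ 2 * ((s + N) / s)) ^ 4 := by
        rw [Finset.prod_const, Finset.card_univ, Fintype.card_fin]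
    _ = _ := by
        rw [mul_pow, mul_pow, div_pow]
        ring

/-- CLASS WITH LARGE `s`, RESIDUE BOUND (size 3).  `resS` with `u := u'`: `s card / u' ≤ (1 / u') C Y ^ c s ^ (15/4) E ^ 5 ∏ (1 + 4 u' l i / s)`, `1 / u' ≤ g N / (2 E)`,
`u' l i ≤ 2 E ^ 2 N`, `1 + 8 E ^ 2 N / s ≤ 9 E ^ 2 (s + N) / s`, so the product is `≤ (9 E ^ 2) ^ 4 (s + N) ^ 4 / s ^ 4` and
`s ^ (15/4) (s + N) ^ 4 / s ^ 4 = s ^ (-1/4) (s + N) ^ 4 ≤ 16 N ^ 4 S ^ (-1/4)` for `s ≤ N` and `≤ 16 s ^ (15/4) ≤ 16 N ^ (63/16)` for `N < s ≤ N ^ (21/20)` (`63/16 ≤ 4 - 1/20`). -/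
theorem haR (c : ℝ) (hc : 0 < c) (C0 : ℝ) (hC0 : 1 ≤ C0) : ∃ C : ℝ, 1 ≤ C ∧
    ∀ (G : Matrix (Fin 4) (Fin 4) ℤ) (l : Fin 4 → ℝ) (T N E Y S g : ℝ), NG C0 T N E G l →
    1 ≤ Y → (∀ i, l i ≤ Y) → 1 / Y ≤ T → 1 ≤ S → 1 ≤ g → ∀ (s : ℕ) (u' : ℝ), S < (s : ℝ) →
    u' ≤ 2 * (E / N) → 2 * (E / N) / g ≤ u' → (s : ℝ) ≤ N ^ (21 / 20 : ℝ) →
    ∀ X : Finset (Fin 4 → ℤ), (∀ m ∈ X, Pr4 m ∧ sl G m = s ∧ nw l m ≤ u') →
    (s : ℝ) * X.card / u' ≤ C * Y ^ c * (E ^ 14 * N ^ 5 * (g * S ^ (-(1 / 4) : ℝ) + g * N ^ (-(1 / 20) : ℝ))) := by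
  obtain ⟨C, hC, hr⟩ := resS c hc C0 hC0
  refine ⟨52488 * C, by linarith, ?_⟩
  intro G l T N E Y S g h hY hlY hT hS hg s u' hs hu1 hu2 hsN X hX
  have hN := h.N1
  have hE := h.E1
  have hN0 : 0 < N := by linarith
  have hE0 : 0 < E := by linarith
  have hg0 : 0 < g := by linarith
  have hS0 : 0 < S := by linarith
  have hs0 : (0 : ℝ) < s := by linarith
  have hu : 0 < u' := lt_of_lt_of_le (by positivity) hu2
  have hsN0 : 0 < s := by exact_mod_cast hs0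
  have h1 := hr G l T Y u' h.gh hY hlY hT hu s hsN0 X fun m hm =>
    ⟨(hX m hm).1, (hX m hm).2.1, (nw_le_iff h.gh.lp hu.le).1 (hX m hm).2.2⟩
  have hp := HaR_prod h hs0 hu hu1
  have hss := HaR_s hS hN hs hsN
  have hYc : 0 ≤ Y ^ c := Real.rpow_nonneg (by linarith) _
  have hA : (PP5N.mi2 G : ℝ) ^ 5 ≤ E ^ 5 := pow_le_pow_left₀ (Nat.cast_nonneg _) h.A 5
  have hsr : 0 ≤ (s : ℝ) ^ (11 / 4 : ℝ) := Real.rpow_nonneg hs0.le _
  have hpr0 : 0 ≤ ∏ i, (1 + 4 * u' * l i / s) := Finset.prod_nonneg fun i _ => by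
    have := h.gh.lp i
    positivity
  have h2 : (X.card : ℝ) ≤ C * Y ^ c * (s : ℝ) ^ (11 / 4 : ℝ) * E ^ 5 *
      (6561 * E ^ 8 * ((s + N) ^ 4 / (s : ℝ) ^ 4)) := by
    refine h1.trans ?_
    refine mul_le_mul ?_ hp hpr0 (by positivity)
    exact mul_le_mul_of_nonneg_left hA (by positivity)
  have h3 : 1 / u' ≤ g * N / (2 * E) := by
    rw [div_le_div_iff₀ hu (by positivity)]
    have h4 : 2 * (E / N) ≤ u' * g := by rwa [div_le_iff₀ hg0] at hu2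
    have h5 : 2 * E ≤ u' * g * N := by
      have h6 : 2 * (E / N) * N ≤ u' * g * N := mul_le_mul_of_nonneg_right h4 hN0.le
      have h7 : 2 * (E / N) * N = 2 * E := by field_simp
      linarith
    nlinarith
  have hSn : 0 ≤ S ^ (-(1 / 4) : ℝ) := Real.rpow_nonneg hS0.le _
  have hNn : 0 ≤ N ^ (-(1 / 20) : ℝ) := Real.rpow_nonneg hN0.le _
  calc (s : ℝ) * X.card / u' = X.card * (s * (1 / u')) := by ring
    _ ≤ (C * Y ^ c * (s : ℝ) ^ (11 / 4 : ℝ) * E ^ 5 *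
      (6561 * E ^ 8 * ((s + N) ^ 4 / (s : ℝ) ^ 4))) * (s * (g * N / (2 * E))) := by
        refine mul_le_mul h2 ?_ (by positivity) (by positivity)
        exact mul_le_mul_of_nonneg_left h3 hs0.le
    _ = (6561 / 2) * C * Y ^ c * g * N * E ^ 12 *
        ((s : ℝ) * (s : ℝ) ^ (11 / 4 : ℝ) * ((s + N) ^ 4 / (s : ℝ) ^ 4)) := by
        field_simp
    _ ≤ (6561 / 2) * C * Y ^ c * g * N * E ^ 12 *
        (16 * N ^ 4 * (S ^ (-(1 / 4) : ℝ) + N ^ (-(1 / 20) : ℝ))) := by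
        exact mul_le_mul_of_nonneg_left hss (by positivity)
    _ = 52488 * C * Y ^ c * g * N ^ 5 *
        (S ^ (-(1 / 4) : ℝ) + N ^ (-(1 / 20) : ℝ)) * E ^ 12 := by ring
    _ ≤ 52488 * C * Y ^ c * g * N ^ 5 *
        (S ^ (-(1 / 4) : ℝ) + N ^ (-(1 / 20) : ℝ)) * E ^ 14 := by
        refine mul_le_mul_of_nonneg_left (pow_le_pow_right₀ hE (by norm_num)) ?_
        positivity
    _ = _ := by ring

end Pool.Agent.PP5Q
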