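import Pool.Agent.PP5Q.Lb

set_option autoImplicit false

namespace Pool.Agent.PP5Q

open Matrix Finset Pool.Agent.PP5B Pool.Agent.PP5P Pool.Agent.PP5

private theorem HaS_card (X : Finset (Fin 4 → ℤ)) (K : ℝ) (hK : 1 ≤ K)
    (hX : ∀ m ∈ X, ∀ i, |(m i : ℝ)| ≤ K) : (X.card : ℝ) ≤ 81 * K ^ 4 := by
  classical
  have hsub : X ⊆ Fintype.piFinset (fun _ : Fin 4 => Finset.Icc (-⌊K⌋) ⌊K⌋) := by
    intro m hm
    rw [Fintype.mem_piFinset]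
    intro i
    rw [Finset.mem_Icc, ← abs_le, Int.le_floor]
    push_cast
    exact hX m hm i
  have e2 := Finset.card_le_card hsub
  rw [Fintype.card_piFinset, Finset.prod_const, Finset.card_univ, Fintype.card_fin] at e2
  have e3 : (X.card : ℝ) ≤ (((Finset.Icc (-⌊K⌋) ⌊K⌋).card : ℕ) : ℝ) ^ 4 := by
    exact_mod_cast e2
  refine e3.trans ?_
  have f1 : 1 ≤ ⌊K⌋ := by
    rw [Int.le_floor]
    exact_mod_cast hK
  have f2 : (⌊K⌋ : ℝ) ≤ K := Int.floor_le _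
  have f4 : (((Finset.Icc (-⌊K⌋) ⌊K⌋).card : ℕ) : ℝ) ≤ 3 * K := by
    rw [Int.card_Icc]
    have f3 : (((⌊K⌋ + 1 - -⌊K⌋).toNat : ℕ) : ℝ) = ((⌊K⌋ + 1 - -⌊K⌋ : ℤ) : ℝ) := by
      have : (((⌊K⌋ + 1 - -⌊K⌋).toNat : ℕ) : ℤ) = ⌊K⌋ + 1 - -⌊K⌋ :=
        Int.toNat_of_nonneg (by omega)
      exact_mod_cast congrArg (fun t : ℤ => (t : ℝ)) this
    rw [f3]
    push_cast
    linarith
  calc (((Finset.Icc (-⌊K⌋) ⌊K⌋).card : ℕ) : ℝ) ^ 4 ≤ (3 * K) ^ 4 :=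
        pow_le_pow_left₀ (Nat.cast_nonneg _) f4 4
    _ = 81 * K ^ 4 := by ring

/-- CLASS WITH SMALL `m` (size 3).  `s ≤ S`, `u' ≤ 2 E / (N S)`: box count `∏ (1 + 2 u' l i)`; `u' l 3 ≥ 1` (some `m ∈ X`, `|m i| ≥ 1`), so `1 + 2 u' l i ≤ 3 u' E N ^ 2`; hence
`s card / u' ≤ 81 S E ^ 4 N ^ 8 u' ^ 3 ≤ 648 E ^ 7 N ^ 5 / S ^ 2`. -/
theorem haS (C0 : ℝ) :
    ∀ (G : Matrix (Fin 4) (Fin 4) ℤ) (l : Fin 4 → ℝ) (T N E S : ℝ), NG C0 T N E G l →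
    1 ≤ S → ∀ (s : ℕ) (u' : ℝ), (s : ℝ) ≤ S → 0 < u' → u' ≤ 2 * (E / N) / S →
    ∀ X : Finset (Fin 4 → ℤ), X.Nonempty → (∀ m ∈ X, Pr4 m ∧ nw l m ≤ u') →
    (s : ℝ) * X.card / u' ≤ 648 * (E ^ 14 * N ^ 5 * S ^ (-(1 / 4) : ℝ)) := by
  intro G l T N E S hNG hS s u' hs hu hu2 X hne hX
  have hN : 0 < N := lt_of_lt_of_le one_pos hNG.N1
  have hE1 : 1 ≤ E := hNG.E1
  have hE : 0 < E := lt_of_lt_of_le one_pos hE1
  have hS0 : 0 < S := lt_of_lt_of_le one_pos hS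
  have hl := hNG.gh.lp
  have hb : ∀ m ∈ X, ∀ i, |(m i : ℝ)| ≤ u' * (E * N ^ 2) := by
    intro m hm i
    have h1 := (nw_le_iff hl hu.le).mp (hX m hm).2 i
    exact h1.trans (mul_le_mul_of_nonneg_left (hNG.lup i) hu.le)
  have hK1 : 1 ≤ u' * (E * N ^ 2) := by
    obtain ⟨m, hm⟩ := hne
    have hp := (hX m hm).1
    have : ∃ i, m i ≠ 0 := by
      by_contra hcon
      push Not at hcon
      exact hp 2 Nat.prime_two fun i => by rw [hcon i]; exact dvd_zero _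
    obtain ⟨i, hi⟩ := this
    have h1 : (1 : ℝ) ≤ |(m i : ℝ)| := by
      have := Int.one_le_abs hi
      exact_mod_cast this
    exact h1.trans (hb m hm i)
  have hcard := HaS_card X (u' * (E * N ^ 2)) hK1 hb
  have hstep1 : (s : ℝ) * X.card / u' ≤ S * (81 * (u' * (E * N ^ 2)) ^ 4) / u' := by
    gcongr
  have hstep2 : S * (81 * (u' * (E * N ^ 2)) ^ 4) / u' = 81 * S * E ^ 4 * N ^ 8 * u' ^ 3 := by
    field_simp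
  have hstep3 : 81 * S * E ^ 4 * N ^ 8 * u' ^ 3 ≤
      81 * S * E ^ 4 * N ^ 8 * (2 * (E / N) / S) ^ 3 := by
    gcongr
  have hstep4 : 81 * S * E ^ 4 * N ^ 8 * (2 * (E / N) / S) ^ 3 = 648 * (E ^ 7 * N ^ 5 * (S⁻¹) ^ 2) := by
    field_simp
    ring
  have hSr : (S⁻¹) ^ 2 ≤ S ^ (-(1 / 4) : ℝ) := by
    have h1 : (S⁻¹) ^ 2 = S ^ (-2 : ℝ) := by
      rw [Real.rpow_neg hS0.le, inv_pow]
      congr 1
      exact_mod_cast (Real.rpow_natCast S 2).symm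
    rw [h1]
    exact Real.rpow_le_rpow_of_exponent_le hS (by norm_num)
  have hEE : E ^ 7 ≤ E ^ 14 := pow_le_pow_right₀ hE1 (by norm_num)
  calc (s : ℝ) * X.card / u' ≤ S * (81 * (u' * (E * N ^ 2)) ^ 4) / u' := hstep1
    _ = 81 * S * E ^ 4 * N ^ 8 * u' ^ 3 := hstep2
    _ ≤ 81 * S * E ^ 4 * N ^ 8 * (2 * (E / N) / S) ^ 3 := hstep3
    _ = 648 * (E ^ 7 * N ^ 5 * (S⁻¹) ^ 2) := hstep4
    _ ≤ 648 * (E ^ 14 * N ^ 5 * S ^ (-(1 / 4) : ℝ)) := by gcongr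

end Pool.Agent.PP5Q
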