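import Pool.Agent.PP5Q.Lb

set_option autoImplicit false

namespace Pool.Agent.PP5Q

open Matrix Finset Pool.Agent.PP5B Pool.Agent.PP5P Pool.Agent.PP5

private theorem HaL_prod {C0 T N E : ℝ} {G : Matrix (Fin 4) (Fin 4) ℤ} {l : Fin 4 → ℝ}
    (h : NG C0 T N E G l) : 0 < ∏ i, l i ∧ ∏ i, l i ≤ E ^ 4 * N ^ 8 := by
  have h0 := h.gh.lp
  have hN := h.N1
  have hE := h.E1
  refine ⟨Finset.prod_pos fun i _ => h0 i, ?_⟩
  calc ∏ i, l i ≤ ∏ _i : Fin 4, E * N ^ 2 :=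
        Finset.prod_le_prod (fun i _ => (h0 i).le) fun i _ => h.lup i
    _ = E ^ 4 * N ^ 8 := by
        rw [Finset.prod_const, Finset.card_univ, Fintype.card_fin]
        ring

private theorem HaL_min {a b q : ℝ} (hq : 0 ≤ q) (h : a * b ≤ q ^ 2) : min a b ≤ q := by
  by_contra hcon
  push Not at hcon
  have h1 := lt_min_iff.1 hcon
  nlinarith [h1.1, h1.2]

private theorem HaL_third {C0 T N E : ℝ} (hC0 : 1 ≤ C0) {G : Matrix (Fin 4) (Fin 4) ℤ}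
    {l : Fin 4 → ℝ} (h : NG C0 T N E G l) {s : ℕ} {u' : ℝ} (hu : 0 < u') {m : Fin 4 → ℤ}
    (hm : Pr4 m) (hD : D2 G m ≠ 0) (hs : sl G m = s) (hmu : nw l m ≤ u') :
    (s : ℝ) / u' ≤ 10 * C0 * (E ^ 4 * N ^ 4) := by
  have hN := h.N1
  have hE := h.E1
  have hN0 : 0 < N := by linarith
  have hE0 : 0 < E := by linarith
  have hT0 : 0 < T := h.gh.T0
  have hC : 0 < C0 := by linarith
  have hms : ∀ i, |(m i : ℝ)| ≤ u' * l i := (nw_le_iff h.gh.lp hu.le).1 hmu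
  have hne : ∃ i, m i ≠ 0 := by
    by_contra hcon
    push Not at hcon
    refine hm 2 Nat.prime_two fun i => ?_
    rw [hcon i]
    exact dvd_zero _
  obtain ⟨i, hi⟩ := hne
  have h1 : (1 : ℝ) ≤ |(m i : ℝ)| := by
    have h2 : (1 : ℤ) ≤ |m i| := Int.one_le_abs hi
    exact_mod_cast h2
  have h3 : 1 ≤ u' * (E * N ^ 2) :=
    h1.trans ((hms i).trans (mul_le_mul_of_nonneg_left (h.lup i) hu.le))
  have h4 := sl3 hC h.gh hm hD hu.le hms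
  rw [hs] at h4
  obtain ⟨hL0, hL⟩ := HaL_prod h
  have hT : 1 / T ≤ E / N ^ 2 := by
    rw [div_le_div_iff₀ hT0 (by positivity)]
    have h5 := h.Tlo
    rw [div_le_iff₀ hE0] at h5
    linarith
  have h5 : (C0 / T) ^ 3 ≤ (C0 * (E / N ^ 2)) ^ 3 := by
    refine pow_le_pow_left₀ (by positivity) ?_ 3
    calc C0 / T = C0 * (1 / T) := by ring
      _ ≤ _ := mul_le_mul_of_nonneg_left hT hC.le
  have h6 : (∏ i, l i) ^ 2 ≤ (E ^ 4 * N ^ 8) ^ 2 := pow_le_pow_left₀ hL0.le hL 2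
  have h7 : (s : ℝ) ^ 3 ≤ 768 * (C0 * (E / N ^ 2)) ^ 3 * (E ^ 4 * N ^ 8) ^ 2 * u' ^ 2 := by
    refine h4.trans ?_
    gcongr
  have h8 : ((s : ℝ) / u') ^ 3 ≤ (10 * C0 * (E ^ 4 * N ^ 4)) ^ 3 := by
    rw [div_pow, div_le_iff₀ (by positivity)]
    refine h7.trans ?_
    have h9 : 768 * (C0 * (E / N ^ 2)) ^ 3 * (E ^ 4 * N ^ 8) ^ 2 * u' ^ 2
        = 768 * C0 ^ 3 * E ^ 11 * N ^ 10 * u' ^ 2 := by
      field_simp
    rw [h9]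
    have h10 : 768 * C0 ^ 3 * E ^ 11 * N ^ 10 * u' ^ 2
        ≤ 768 * C0 ^ 3 * E ^ 11 * N ^ 10 * u' ^ 2 * (u' * (E * N ^ 2)) :=
      le_mul_of_one_le_right (by positivity) h3
    refine h10.trans ?_
    have h11 : (10 * C0 * (E ^ 4 * N ^ 4)) ^ 3 * u' ^ 3
        = 1000 * (C0 ^ 3 * E ^ 12 * N ^ 12 * u' ^ 3) := by ring
    have h12 : 768 * C0 ^ 3 * E ^ 11 * N ^ 10 * u' ^ 2 * (u' * (E * N ^ 2))
        = 768 * (C0 ^ 3 * E ^ 12 * N ^ 12 * u' ^ 3) := by ring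
    rw [h11, h12]
    have h13 : 0 ≤ C0 ^ 3 * E ^ 12 * N ^ 12 * u' ^ 3 := by positivity
    linarith
  exact (pow_le_pow_iff_left₀ (by positivity) (by positivity) (by norm_num)).1 h8

private theorem HaL_E {E : ℝ} (hE : 1 ≤ E) (k : ℕ) (hk : k ≤ 14) : E ^ k ≤ E ^ 14 :=
  pow_le_pow_right₀ hE hk

private theorem HaL_b1 {C0 T N E S u' : ℝ} {G : Matrix (Fin 4) (Fin 4) ℤ} {l : Fin 4 → ℝ}
    (h : NG C0 T N E G l) (hS : 1 ≤ S) {s : ℕ} (hs : S < (s : ℝ)) (hu : 0 < u')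
    (hu2 : u' ≤ 2 * (E / N)) :
    (s : ℝ) / u' * (u' ^ 4 * (∏ i, l i) * min 1 ((PP5N.mi2 G : ℝ) / s ^ 2))
      ≤ 8 * (E ^ 14 * N ^ 5 * S ^ (-(1 / 4) : ℝ)) := by
  have hN := h.N1
  have hE := h.E1
  have hN0 : 0 < N := by linarith
  have hE0 : 0 < E := by linarith
  have hS0 : 0 < S := by linarith
  have hs0 : (0 : ℝ) < s := by linarith
  obtain ⟨hL0, hL⟩ := HaL_prod h
  have hA := h.A
  have hA0 : (0 : ℝ) ≤ (PP5N.mi2 G : ℝ) := Nat.cast_nonneg _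
  have h1 : min 1 ((PP5N.mi2 G : ℝ) / s ^ 2) ≤ E / s ^ 2 :=
    (min_le_right _ _).trans (div_le_div_of_nonneg_right hA (by positivity))
  have h2 : (s : ℝ) / u' * (u' ^ 4 * (∏ i, l i) * min 1 ((PP5N.mi2 G : ℝ) / s ^ 2))
      ≤ (s : ℝ) / u' * (u' ^ 4 * (E ^ 4 * N ^ 8) * (E / s ^ 2)) := by
    gcongr
  refine h2.trans ?_
  have h3 : (s : ℝ) / u' * (u' ^ 4 * (E ^ 4 * N ^ 8) * (E / s ^ 2))
      = u' ^ 3 * (E ^ 5 * N ^ 8) * (1 / s) := by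
    field_simp
  rw [h3]
  have h4 : u' ^ 3 ≤ (2 * (E / N)) ^ 3 := pow_le_pow_left₀ hu.le hu2 3
  have h5 : 1 / (s : ℝ) ≤ S ^ (-(1 / 4) : ℝ) := by
    have h6 : 1 / (s : ℝ) ≤ 1 / S := one_div_le_one_div_of_le hS0 hs.le
    have h7 : (1 : ℝ) / S = S ^ (-1 : ℝ) := by rw [Real.rpow_neg_one, one_div]
    refine h6.trans ?_
    rw [h7]
    exact Real.rpow_le_rpow_of_exponent_le hS (by norm_num)
  have h8 : 0 ≤ S ^ (-(1 / 4) : ℝ) := Real.rpow_nonneg hS0.le _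
  have h9 : u' ^ 3 * (E ^ 5 * N ^ 8) * (1 / s)
      ≤ (2 * (E / N)) ^ 3 * (E ^ 5 * N ^ 8) * S ^ (-(1 / 4) : ℝ) := by
    gcongr
  refine h9.trans ?_
  have h10 : (2 * (E / N)) ^ 3 * (E ^ 5 * N ^ 8) * S ^ (-(1 / 4) : ℝ)
      = 8 * (E ^ 8 * N ^ 5 * S ^ (-(1 / 4) : ℝ)) := by
    field_simp
    ring
  rw [h10]
  have h11 := HaL_E hE 8 (by norm_num)
  gcongr

private theorem HaL_N {N : ℝ} (hN : 1 ≤ N) : 1 / N ≤ N ^ (-(1 / 20) : ℝ) := by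
  have h7 : (1 : ℝ) / N = N ^ (-1 : ℝ) := by rw [Real.rpow_neg_one, one_div]
  rw [h7]
  exact Real.rpow_le_rpow_of_exponent_le hN (by norm_num)

private theorem HaL_b2 {C0 T N E g u' : ℝ} {G : Matrix (Fin 4) (Fin 4) ℤ} {l : Fin 4 → ℝ}
    (h : NG C0 T N E G l) (hg : 1 ≤ g) {s : ℕ} (hs : 0 < (s : ℝ)) (hu : 0 < u')
    (hu2 : u' ≤ 2 * (E / N)) (hor : u' ≤ 2 * (E / N) / g ∨ N ^ (21 / 20 : ℝ) ≤ (s : ℝ)) :
    (s : ℝ) / u' * (u' ^ 3 * (∏ i, l i) * min (1 / l 0) (l 3 * PP5N.mi2 G / (T * s ^ 2)))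
      ≤ 4 * (E ^ 14 * N ^ 5 * (1 / g + N ^ (-(1 / 20) : ℝ))) := by
  have hN := h.N1
  have hE := h.E1
  have hN0 : 0 < N := by linarith
  have hE0 : 0 < E := by linarith
  have hg0 : 0 < g := by linarith
  have hT0 : 0 < T := h.gh.T0
  obtain ⟨hL0, hL⟩ := HaL_prod h
  have hA := h.A
  have hA0 : (0 : ℝ) ≤ (PP5N.mi2 G : ℝ) := Nat.cast_nonneg _
  have hl0 := h.gh.lp 0
  have hl3 := h.gh.lp 3
  have hT : 1 / T ≤ E / N ^ 2 := by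
    rw [div_le_div_iff₀ hT0 (by positivity)]
    have h5 := h.Tlo
    rw [div_le_iff₀ hE0] at h5
    linarith
  have hl : 1 / l 0 ≤ E / N ^ 2 := by
    rw [div_le_div_iff₀ hl0 (by positivity)]
    have h5 := h.llo 0
    rw [div_le_iff₀ hE0] at h5
    linarith
  have hb : l 3 * PP5N.mi2 G / (T * s ^ 2) ≤ E ^ 3 / s ^ 2 := by
    have e1 : l 3 * PP5N.mi2 G / (T * s ^ 2) = l 3 * PP5N.mi2 G * (1 / T) / s ^ 2 := by
      field_simp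
    have e2 : l 3 * PP5N.mi2 G * (1 / T) ≤ (E * N ^ 2) * E * (E / N ^ 2) := by
      have := h.lup 3
      gcongr
    have e3 : (E * N ^ 2) * E * (E / N ^ 2) = E ^ 3 := by
      field_simp
    rw [e1]
    rw [e3] at e2
    exact div_le_div_of_nonneg_right e2 (by positivity)
  have hNr : 0 ≤ N ^ (-(1 / 20) : ℝ) := Real.rpow_nonneg hN0.le _
  have hmin0 : 0 ≤ min (1 / l 0) (l 3 * PP5N.mi2 G / (T * s ^ 2)) :=
    le_min (by positivity) (by positivity)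
  rcases hor with h1 | h1
  · have h2 : min (1 / l 0) (l 3 * PP5N.mi2 G / (T * s ^ 2)) ≤ E ^ 2 / (N * s) := by
      refine HaL_min (by positivity) ?_
      have h3 : 1 / l 0 * (l 3 * PP5N.mi2 G / (T * s ^ 2)) ≤ E / N ^ 2 * (E ^ 3 / s ^ 2) :=
        mul_le_mul hl hb (by positivity) (by positivity)
      refine h3.trans (le_of_eq ?_)
      field_simp
    have h3 : (s : ℝ) / u' * (u' ^ 3 * (∏ i, l i) * min (1 / l 0) (l 3 * PP5N.mi2 G / (T * s ^ 2)))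
        ≤ (s : ℝ) / u' * (u' ^ 3 * (E ^ 4 * N ^ 8) * (E ^ 2 / (N * s))) := by
      gcongr
    refine h3.trans ?_
    have h4 : (s : ℝ) / u' * (u' ^ 3 * (E ^ 4 * N ^ 8) * (E ^ 2 / (N * s)))
        = u' ^ 2 * (E ^ 6 * N ^ 7) := by
      field_simp
    rw [h4]
    have h5 : u' ^ 2 ≤ (2 * (E / N) / g) ^ 2 := pow_le_pow_left₀ hu.le h1 2
    have h6 : u' ^ 2 * (E ^ 6 * N ^ 7) ≤ (2 * (E / N) / g) ^ 2 * (E ^ 6 * N ^ 7) := by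
      gcongr
    refine h6.trans ?_
    have h7 : (2 * (E / N) / g) ^ 2 * (E ^ 6 * N ^ 7) = 4 * (E ^ 8 * N ^ 5 * (1 / g * (1 / g))) := by
      field_simp
      ring
    rw [h7]
    have h8 : 1 / g ≤ 1 := by
      rw [div_le_one hg0]
      exact hg
    have h9 : 1 / g * (1 / g) ≤ 1 / g + N ^ (-(1 / 20) : ℝ) := by
      have : 1 / g * (1 / g) ≤ 1 / g := mul_le_of_le_one_right (by positivity) h8
      linarith
    have h11 := HaL_E hE 8 (by norm_num)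
    gcongr
  · have h2 : min (1 / l 0) (l 3 * PP5N.mi2 G / (T * s ^ 2)) ≤ E ^ 3 / s ^ 2 :=
      (min_le_right _ _).trans hb
    have h3 : (s : ℝ) / u' * (u' ^ 3 * (∏ i, l i) * min (1 / l 0) (l 3 * PP5N.mi2 G / (T * s ^ 2)))
        ≤ (s : ℝ) / u' * (u' ^ 3 * (E ^ 4 * N ^ 8) * (E ^ 3 / s ^ 2)) := by
      gcongr
    refine h3.trans ?_
    have h4 : (s : ℝ) / u' * (u' ^ 3 * (E ^ 4 * N ^ 8) * (E ^ 3 / s ^ 2))
        = u' ^ 2 * (E ^ 7 * N ^ 8) * (1 / s) := by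
      field_simp
    rw [h4]
    have h5 : u' ^ 2 ≤ (2 * (E / N)) ^ 2 := pow_le_pow_left₀ hu.le hu2 2
    have h6 : 1 / (s : ℝ) ≤ 1 / N * N ^ (-(1 / 20) : ℝ) := by
      have e1 : 0 < N ^ (21 / 20 : ℝ) := Real.rpow_pos_of_pos hN0 _
      have e2 : 1 / (s : ℝ) ≤ 1 / N ^ (21 / 20 : ℝ) := one_div_le_one_div_of_le e1 h1
      refine e2.trans (le_of_eq ?_)
      have e3 : (1 : ℝ) / N = N ^ (-1 : ℝ) := by rw [Real.rpow_neg_one, one_div]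
      rw [e3, ← Real.rpow_add hN0, one_div, ← Real.rpow_neg hN0.le]
      norm_num
    have h7 : u' ^ 2 * (E ^ 7 * N ^ 8) * (1 / s)
        ≤ (2 * (E / N)) ^ 2 * (E ^ 7 * N ^ 8) * (1 / N * N ^ (-(1 / 20) : ℝ)) := by
      gcongr
    refine h7.trans ?_
    have h8 : (2 * (E / N)) ^ 2 * (E ^ 7 * N ^ 8) * (1 / N * N ^ (-(1 / 20) : ℝ))
        = 4 * (E ^ 9 * N ^ 5 * N ^ (-(1 / 20) : ℝ)) := by
      field_simp
      ring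
    rw [h8]
    have h9 : N ^ (-(1 / 20) : ℝ) ≤ 1 / g + N ^ (-(1 / 20) : ℝ) := by
      have : 0 < 1 / g := by positivity
      linarith
    have h11 := HaL_E hE 9 (by norm_num)
    gcongr

private theorem HaL_b3 {C0 N E : ℝ} (hC0 : 1 ≤ C0) (hN : 1 ≤ N) (hE : 1 ≤ E) :
    10 * C0 * (E ^ 4 * N ^ 4) ≤ 10 * C0 * (E ^ 14 * N ^ 5 * N ^ (-(1 / 20) : ℝ)) := by
  have hN0 : 0 < N := by linarith
  have hE0 : 0 < E := by linarith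
  have h1 : N ^ 4 = N ^ 5 * (1 / N) := by field_simp
  have h2 := HaL_E hE 4 (by norm_num)
  have h3 := HaL_N hN
  have h4 : E ^ 4 * N ^ 4 ≤ E ^ 14 * N ^ 5 * N ^ (-(1 / 20) : ℝ) := by
    rw [h1, ← mul_assoc]
    gcongr
  exact mul_le_mul_of_nonneg_left h4 (by linarith)

private theorem HaL_b4 {C0 T N E g u' : ℝ} {G : Matrix (Fin 4) (Fin 4) ℤ} {l : Fin 4 → ℝ}
    (h : NG C0 T N E G l) (hg : 1 ≤ g) {s : ℕ} (hs : 0 < (s : ℝ)) (hu : 0 < u')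
    (hu2 : u' ≤ 2 * (E / N)) (hM : √(PP5N.mi3 G : ℝ) ≤ N ^ 2 / g) :
    (s : ℝ) / u' * (u' ^ 2 * (l 2 * l 3) * √(PP5N.mi3 G : ℝ) / s)
      ≤ 2 * (E ^ 14 * N ^ 5 * (1 / g)) := by
  have hN := h.N1
  have hE := h.E1
  have hN0 : 0 < N := by linarith
  have hE0 : 0 < E := by linarith
  have hg0 : 0 < g := by linarith
  have hl2 := h.gh.lp 2
  have hl3 := h.gh.lp 3
  have h1 : (s : ℝ) / u' * (u' ^ 2 * (l 2 * l 3) * √(PP5N.mi3 G : ℝ) / s)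
      = u' * (l 2 * l 3) * √(PP5N.mi3 G : ℝ) := by
    field_simp
  rw [h1]
  have h2 : u' * (l 2 * l 3) * √(PP5N.mi3 G : ℝ)
      ≤ 2 * (E / N) * ((E * N ^ 2) * (E * N ^ 2)) * (N ^ 2 / g) := by
    have e2 := h.lup 2
    have e3 := h.lup 3
    gcongr
  refine h2.trans ?_
  have h3 : 2 * (E / N) * ((E * N ^ 2) * (E * N ^ 2)) * (N ^ 2 / g)
      = 2 * (E ^ 3 * N ^ 5 * (1 / g)) := by
    field_simp
  rw [h3]
  have h11 := HaL_E hE 3 (by norm_num)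
  gcongr

/-- CLASS WITH LARGE `s`, LATTICE BOUND (size 4).  `latS` with `u := u'`, multiplied by `s / u'`.  With `u' ≤ 2 E / N`, `Λ ≤ E ^ 4 N ^ 8`, `A ≤ E`, `l i / l 0`, `l 3 / T ≤ E ^ 2`, `s > S`:
4-dim: `s u' ^ 3 Λ A / s ^ 2 ≤ 8 E ^ 8 N ^ 5 / S`;
3-dim: if `u' ≤ E / (N g)` (first alternative): `≤ u' ^ 2 Λ √(l 3 A / (l 0 T)) ≤ (E ^ 2 / (N ^ 2 g ^ 2)) E ^ 4 N ^ 8 (E ^ 2 / N) = E ^ 8 N ^ 5 / g ^ 2`;
if `N ^ (21/20) ≤ s` (second): `≤ u' ^ 2 Λ l 3 A / (T s) ≤ 4 E ^ 9 N ^ 6 / s ≤ 4 E ^ 9 N ^ 5 N ^ (-1/20)`;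
third: `s / u' ≤ 10 C0 (Λ ^ 2 / T ^ 3) ^ (1/3) u' ^ (-1/3)` (`sl3`), `u' ≥ 1 / l 3` : `≤ C E ^ 4 N ^ 4`;
plane: `u' l 2 l 3 √mi3 ≤ 2 E ^ 3 N ^ 3 · N ^ 2 / g`. -/
theorem haL (c : ℝ) (hc : 0 < c) (C0 : ℝ) (hC0 : 1 ≤ C0) : ∃ C : ℝ, 1 ≤ C ∧
    ∀ (G : Matrix (Fin 4) (Fin 4) ℤ) (l : Fin 4 → ℝ) (T N E Y S g : ℝ), NG C0 T N E G l →
    1 ≤ Y → (∀ i, l i ≤ Y) → 1 / Y ≤ T → 1 ≤ S → 1 ≤ g →
    √(PP5N.mi3 G : ℝ) ≤ N ^ 2 / g → ∀ (s : ℕ) (u' : ℝ), S < (s : ℝ) → 0 < u' → u' ≤ 2 * (E / N) →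
    (u' ≤ 2 * (E / N) / g ∨ N ^ (21 / 20 : ℝ) ≤ (s : ℝ)) →
    ∀ X : Finset (Fin 4 → ℤ), X.Nonempty → (∀ m ∈ X, Pr4 m ∧ D2 G m ≠ 0 ∧ sl G m = s ∧ nw l m ≤ u') →
    (s : ℝ) * X.card / u' ≤ C * Y ^ c * (E ^ 14 * N ^ 5 * (S ^ (-(1 / 4) : ℝ) + 1 / g + N ^ (-(1 / 20) : ℝ))) := by
  obtain ⟨C1, hC1, hlat⟩ := latS c hc C0 hC0
  refine ⟨C1 * (24 * C0), by nlinarith, ?_⟩
  intro G l T N E Y S g h hY hlY hTY hS hg hM s u' hs hu hu2 hor X hX hXm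
  have hN := h.N1
  have hE := h.E1
  have hN0 : 0 < N := by linarith
  have hE0 : 0 < E := by linarith
  have hg0 : 0 < g := by linarith
  have hS0 : 0 < S := by linarith
  have hs0 : (0 : ℝ) < s := by linarith
  have hsn : 0 < s := by exact_mod_cast hs0
  have h1 := hlat G l T Y u' h.gh hY hlY hTY hu s hsn X fun m hm =>
    ⟨(hXm m hm).1, (hXm m hm).2.2.1, (nw_le_iff h.gh.lp hu.le).1 (hXm m hm).2.2.2⟩
  obtain ⟨m, hm⟩ := hX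
  obtain ⟨hm1, hm2, hm3, hm4⟩ := hXm m hm
  have b1 := HaL_b1 h hS hs hu hu2
  have b2 := HaL_b2 h hg hs0 hu hu2 hor
  have b3 := (HaL_third hC0 h hu hm1 hm2 hm3 hm4).trans (HaL_b3 hC0 hN hE)
  have b4 := HaL_b4 h hg hs0 hu hu2 hM
  have hY0 : 0 ≤ Y ^ c := Real.rpow_nonneg (by linarith) _
  have hK : 0 ≤ C1 * Y ^ c := mul_nonneg (by linarith) hY0
  have hsu : 0 ≤ (s : ℝ) / u' := by positivity
  have h2 : (s : ℝ) * X.card / u' = (s : ℝ) / u' * X.card := by ring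
  rw [h2]
  refine (mul_le_mul_of_nonneg_left h1 hsu).trans ?_
  have h3 : 0 ≤ S ^ (-(1 / 4) : ℝ) := Real.rpow_nonneg hS0.le _
  have h4 : 0 ≤ N ^ (-(1 / 20) : ℝ) := Real.rpow_nonneg hN0.le _
  have h5 : 0 < 1 / g := by positivity
  have hP : 0 ≤ E ^ 14 * N ^ 5 := by positivity
  set P := E ^ 14 * N ^ 5 with hPdef
  set q := S ^ (-(1 / 4) : ℝ) with hq
  set r := N ^ (-(1 / 20) : ℝ) with hr
  set t := 1 / g with ht
  set t1 := u' ^ 4 * (∏ i, l i) * min 1 ((PP5N.mi2 G : ℝ) / s ^ 2) with ht1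
  set t2 := u' ^ 3 * (∏ i, l i) * min (1 / l 0) (l 3 * PP5N.mi2 G / (T * s ^ 2)) with ht2
  set t4 := u' ^ 2 * (l 2 * l 3) * √(PP5N.mi3 G : ℝ) / s with ht4
  have h6 : (s : ℝ) / u' * (C1 * Y ^ c * (t1 + t2 + 1 + t4))
      = C1 * Y ^ c * ((s : ℝ) / u' * t1 + (s : ℝ) / u' * t2 + (s : ℝ) / u' + (s : ℝ) / u' * t4) := by
    ring
  have h7 : C1 * (24 * C0) * Y ^ c * (P * (q + t + r)) = C1 * Y ^ c * (24 * C0 * (P * (q + t + r))) := by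
    ring
  rw [h6, h7]
  refine mul_le_mul_of_nonneg_left ?_ hK
  have hPq : 0 ≤ P * q := mul_nonneg hP h3
  have hPt : 0 ≤ P * t := mul_nonneg hP h5.le
  have hPr : 0 ≤ P * r := mul_nonneg hP h4
  have h8 : (s : ℝ) / u' * t1 + (s : ℝ) / u' * t2 + (s : ℝ) / u' + (s : ℝ) / u' * t4
      ≤ 8 * (P * q) + 4 * (P * (t + r)) + 10 * C0 * (P * r) + 2 * (P * t) := by
    linarith
  refine h8.trans ?_
  linarith [mul_nonneg (by linarith : (0 : ℝ) ≤ C0 - 1) hPq,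
    mul_nonneg (by linarith : (0 : ℝ) ≤ C0 - 1) hPt, mul_nonneg (by linarith : (0 : ℝ) ≤ C0 - 1) hPr]

end Pool.Agent.PP5Q
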