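import Pool.Agent.PP5Q.Hm
import Pool.Agent.PP5Q.Ha

set_option autoImplicit false

namespace Pool.Agent.PP5Q

open Matrix Finset Pool.Agent.PP5B Pool.Agent.PP5P Pool.Agent.PP5

/-- GOOD `x`, NORMALISED (size 4).  `msum` with `M` = the finite set of the primitive bad `m` of the box `|m i| ≤ u l i`, `M.card` by `badM`,
`H / (T √|det|) ≤ E N ^ 5 E / N ^ 2 · E / N ^ 4 ≤ E ^ 3 / N`; the class bound `Bd = C Y ^ c E ^ 14 N ^ 5 (g S ^ (-1/4) + 1 / g + g N ^ (-1/20))` from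
`haL` (when `s > S` and (`u' ≤ 2 (E / N) / g` or `N ^ (21/20) ≤ s`)), `haR` (when `s > S`, `u' > 2 (E / N) / g`, `s < N ^ (21/20)`), `haS` (when `s ≤ S`: then, `D2 ≠ 0` and `m` bad:
`S |m i| ≤ u l i` for all `i`, so `u' ≤ 2 nw l m ≤ 2 u / S ≤ 2 (E / N) / S`). -/
theorem good (c : ℝ) (hc : 0 < c) (C0 : ℝ) (hC0 : 1 ≤ C0) : ∃ C : ℝ, 1 ≤ C ∧
    ∀ (G : Matrix (Fin 4) (Fin 4) ℤ) (l : Fin 4 → ℝ) (T N E Y H u S g : ℝ), NG C0 T N E G l →
    ¬ IsSquare G.det → 1 ≤ Y → (∀ i, l i ≤ Y) → 1 / Y ≤ T → 0 < H → H ≤ E * N ^ 5 → 0 < u →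
    u ≤ E / N → u ≤ Y → 1 ≤ S → S ≤ N → 1 ≤ g → √(PP5N.mi3 G : ℝ) ≤ N ^ 2 / g →
    ∀ V : Finset (Fin 4 → ℤ), (∀ v ∈ V, Pr4 v ∧ v ⬝ᵥ (G *ᵥ v) = 0 ∧ (∀ i, |(v i : ℝ)| * l i ≤ H) ∧
      ∃ m : Fin 4 → ℤ, Pr4 m ∧ m ⬝ᵥ v = 0 ∧ (∀ i, |(m i : ℝ)| ≤ u * l i) ∧ BdM S u G l m) →
    (V.card : ℝ) ≤ C * Y ^ c * (E ^ 17 * N ^ 4 * (g * S ^ (-(1 / 4) : ℝ) + 1 / g + g * N ^ (-(1 / 20) : ℝ))) := by
  classical
  have hc2 : 0 < c / 2 := half_pos hc
  obtain ⟨C1, hC1, h1⟩ := msum (c / 2) hc2 C0 hC0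
  obtain ⟨C2, hC2, h2⟩ := badM (c / 2) hc2 C0 hC0
  obtain ⟨C3, hC3, h3⟩ := haL (c / 2) hc2 C0 hC0
  obtain ⟨C4, hC4, h4⟩ := haR (c / 2) hc2 C0 hC0
  refine ⟨C1 * (C2 + (C3 + C4 + 648)), ?_, ?_⟩
  · exact one_le_mul_of_one_le_of_one_le hC1 (by linarith)
  intro G l T N E Y H u S g hN hsq hY hlY hTY hH hHE hu huE huY hS hSN hg hmi V hV
  have hE1 := hN.E1
  have hN1 := hN.N1
  have hE0 : 0 < E := lt_of_lt_of_le one_pos hE1
  have hN0 : 0 < N := lt_of_lt_of_le one_pos hN1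
  have hS0 : 0 < S := lt_of_lt_of_le one_pos hS
  have hg0 : 0 < g := lt_of_lt_of_le one_pos hg
  have hY0 : 0 < Y := lt_of_lt_of_le one_pos hY
  have hYp : 1 ≤ Y ^ (c / 2) := Real.one_le_rpow hY hc2.le
  have hYp0 : 0 < Y ^ (c / 2) := lt_of_lt_of_le one_pos hYp
  have hSp : 0 < S ^ (-(1 / 4) : ℝ) := Real.rpow_pos_of_pos hS0 _
  have hNp : 0 < N ^ (-(1 / 20) : ℝ) := Real.rpow_pos_of_pos hN0 _
  set a : ℝ := S ^ (-(1 / 4) : ℝ) with ha
  set b : ℝ := N ^ (-(1 / 20) : ℝ) with hb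
  set R : ℝ := g * a + 1 / g + g * b with hR
  have hR0 : 0 < R := by positivity
  have hga : a ≤ g * a := le_mul_of_one_le_left hSp.le hg
  have hgb : b ≤ g * b := le_mul_of_one_le_left hNp.le hg
  have hg1 : 0 < 1 / g := by positivity
  have hmi2 : √(PP5N.mi3 G : ℝ) ≤ N ^ 2 := hmi.trans (div_le_self (by positivity) hg)
  choose! f hf using fun v hv => (hV v hv).2.2.2
  set M : Finset (Fin 4 → ℤ) := V.image f with hM
  have hMP : ∀ m ∈ M, Pr4 m ∧ (∀ i, |(m i : ℝ)| ≤ u * l i) ∧ BdM S u G l m := by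
    intro m hm
    obtain ⟨v, hv, rfl⟩ := Finset.mem_image.1 hm
    exact ⟨(hf v hv).1, (hf v hv).2.2.1, (hf v hv).2.2.2⟩
  have hMc := h2 G l T N E Y u S hN hY hlY hTY hu huE hS hSN hmi2 M hMP
  set Bd : ℝ := (C3 + C4 + 648) * Y ^ (c / 2) * (E ^ 14 * N ^ 5 * R) with hBd
  have hEN : 0 < E ^ 14 * N ^ 5 := by positivity
  have hBd0 : 0 ≤ Bd := by positivity
  have hu2 : ∀ u' : ℝ, u' ≤ 2 * u → u' ≤ 2 * (E / N) := fun u' h => by linarith
  have hcls : ∀ (s : ℕ) (u' : ℝ) (X : Finset (Fin 4 → ℤ)), X ⊆ M → X.Nonempty → 0 < s → 0 < u' →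
      u' ≤ 2 * u → (∀ m ∈ X, D2 G m ≠ 0 ∧ sl G m = s ∧ nw l m ≤ u' ∧ u' ≤ 2 * nw l m) →
      (s : ℝ) * X.card / u' ≤ Bd := by
    intro s u' X hXM hXn hs hu' hu'2 hX
    have hu'E := hu2 u' hu'2
    by_cases hsS : S < (s : ℝ)
    · by_cases hal : u' ≤ 2 * (E / N) / g ∨ N ^ (21 / 20 : ℝ) ≤ (s : ℝ)
      · have h5 := h3 G l T N E Y S g hN hY hlY hTY hS hg hmi s u' hsS hu' hu'E hal X hXn
          (fun m hm => ⟨(hMP m (hXM hm)).1, (hX m hm).1, (hX m hm).2.1, (hX m hm).2.2.1⟩)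
        refine h5.trans ?_
        rw [hBd]
        have h6 : E ^ 14 * N ^ 5 * (a + 1 / g + b) ≤ E ^ 14 * N ^ 5 * R := by
          refine mul_le_mul_of_nonneg_left ?_ hEN.le
          rw [hR]
          linarith
        have h7 : C3 * Y ^ (c / 2) ≤ (C3 + C4 + 648) * Y ^ (c / 2) :=
          mul_le_mul_of_nonneg_right (by linarith) hYp0.le
        exact mul_le_mul h7 h6 (by positivity) (by positivity)
      · rw [not_or, not_le, not_le] at hal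
        have h5 := h4 G l T N E Y S g hN hY hlY hTY hS hg s u' hsS hu'E hal.1.le hal.2.le X
          (fun m hm => ⟨(hMP m (hXM hm)).1, (hX m hm).2.1, (hX m hm).2.2.1⟩)
        refine h5.trans ?_
        rw [hBd]
        have h6 : E ^ 14 * N ^ 5 * (g * a + g * b) ≤ E ^ 14 * N ^ 5 * R := by
          refine mul_le_mul_of_nonneg_left ?_ hEN.le
          rw [hR]
          linarith
        have h7 : C4 * Y ^ (c / 2) ≤ (C3 + C4 + 648) * Y ^ (c / 2) :=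
          mul_le_mul_of_nonneg_right (by linarith) hYp0.le
        exact mul_le_mul h7 h6 (by positivity) (by positivity)
    · have hsS' : (s : ℝ) ≤ S := not_lt.1 hsS
      have hu'S : u' ≤ 2 * (E / N) / S := by
        obtain ⟨m, hm⟩ := hXn
        obtain ⟨hD, hsl, _, h2n⟩ := hX m hm
        rcases (hMP m (hXM hm)).2.2 with hb1 | hb1 | hb1
        · exact absurd hb1 hD
        · rw [hsl] at hb1
          exact absurd hb1 hsS
        · have h5 : nw l m ≤ u / S := by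
            refine (nw_le_iff hN.gh.lp (by positivity)).2 fun i => ?_
            rw [div_mul_eq_mul_div, le_div_iff₀ hS0, mul_comm]
            exact hb1 i
          have h6 : u / S ≤ E / N / S := by gcongr
          calc u' ≤ 2 * nw l m := h2n
            _ ≤ 2 * (E / N / S) := by linarith
            _ = 2 * (E / N) / S := by ring
      have h5 := haS C0 G l T N E S hN hS s u' hsS' hu' hu'S X hXn
        (fun m hm => ⟨(hMP m (hXM hm)).1, (hX m hm).2.2.1⟩)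
      refine h5.trans ?_
      rw [hBd]
      have h6 : E ^ 14 * N ^ 5 * a ≤ E ^ 14 * N ^ 5 * R := by
        refine mul_le_mul_of_nonneg_left ?_ hEN.le
        rw [hR]
        have : 0 < g * b := by positivity
        linarith
      have h7 : (648 : ℝ) ≤ (C3 + C4 + 648) * Y ^ (c / 2) :=
        (show (648 : ℝ) ≤ C3 + C4 + 648 by linarith).trans (le_mul_of_one_le_right (by linarith) hYp)
      exact mul_le_mul h7 h6 (by positivity) (by positivity)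
  have hm1 := h1 G l T Y H u hN.gh hsq hY hlY hTY hH hu huY M
    (fun m hm => ⟨(hMP m hm).1, (hMP m hm).2.1⟩) Bd hBd0 hcls V
    (fun v hv => ⟨(hV v hv).1, (hV v hv).2.1, (hV v hv).2.2.1, f v,
      Finset.mem_image_of_mem f hv, (hf v hv).2.1⟩)
  -- the factor `H / (T √|det|)`
  have hdet : N ^ 4 / E ≤ √|(G.det : ℝ)| := by
    refine Real.le_sqrt_of_sq_le ?_
    refine le_trans ?_ hN.dlo
    rw [div_pow, div_le_div_iff₀ (by positivity) hE0]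
    have : (N ^ 4) ^ 2 * E * 1 ≤ N ^ 8 * E ^ 2 := by
      have h9 : E ≤ E ^ 2 := le_self_pow₀ hE1 two_ne_zero
      have h8 : (0 : ℝ) < N ^ 8 := by positivity
      calc (N ^ 4) ^ 2 * E * 1 = N ^ 8 * E := by ring
        _ ≤ N ^ 8 * E ^ 2 := mul_le_mul_of_nonneg_left h9 h8.le
    linarith
  have hT0 := hN.gh.T0
  have hD0 : 0 < √|(G.det : ℝ)| := lt_of_lt_of_le (by positivity) hdet
  have hfac : H / (T * √|(G.det : ℝ)|) ≤ E ^ 3 / N := by
    rw [div_le_div_iff₀ (by positivity) hN0]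
    have h5 : (N ^ 2 / E) * (N ^ 4 / E) ≤ T * √|(G.det : ℝ)| :=
      mul_le_mul hN.Tlo hdet (by positivity) hT0.le
    have h6 : E ^ 3 * ((N ^ 2 / E) * (N ^ 4 / E)) = E * N ^ 5 * N := by
      field_simp
    calc H * N ≤ E * N ^ 5 * N := by gcongr
      _ = E ^ 3 * ((N ^ 2 / E) * (N ^ 4 / E)) := h6.symm
      _ ≤ E ^ 3 * (T * √|(G.det : ℝ)|) := by gcongr
  have hfac0 : 0 ≤ H / (T * √|(G.det : ℝ)|) := by positivity
  have hA : (M.card : ℝ) ≤ C2 * Y ^ (c / 2) * (E ^ 17 * N ^ 4 * R) := by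
    refine hMc.trans ?_
    refine mul_le_mul_of_nonneg_left ?_ (by positivity)
    refine mul_le_mul_of_nonneg_left ?_ (by positivity)
    rw [hR]
    linarith
  have hB : H / (T * √|(G.det : ℝ)|) * Bd ≤
      (C3 + C4 + 648) * Y ^ (c / 2) * (E ^ 17 * N ^ 4 * R) := by
    calc H / (T * √|(G.det : ℝ)|) * Bd ≤ E ^ 3 / N * Bd := mul_le_mul_of_nonneg_right hfac hBd0
      _ = (C3 + C4 + 648) * Y ^ (c / 2) * (E ^ 17 * N ^ 4 * R) := by
          rw [hBd]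
          field_simp
  have hYY : Y ^ (c / 2) * Y ^ (c / 2) = Y ^ c := by
    rw [← Real.rpow_add hY0]
    congr 1
    ring
  calc (V.card : ℝ) ≤ C1 * Y ^ (c / 2) * (M.card + H / (T * √|(G.det : ℝ)|) * Bd) := hm1
    _ ≤ C1 * Y ^ (c / 2) * (C2 * Y ^ (c / 2) * (E ^ 17 * N ^ 4 * R) +
        (C3 + C4 + 648) * Y ^ (c / 2) * (E ^ 17 * N ^ 4 * R)) := by
        refine mul_le_mul_of_nonneg_left (add_le_add hA hB) (by positivity)
    _ = C1 * (C2 + (C3 + C4 + 648)) * (Y ^ (c / 2) * Y ^ (c / 2)) * (E ^ 17 * N ^ 4 * R) := by ring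
    _ = C1 * (C2 + (C3 + C4 + 648)) * Y ^ c * (E ^ 17 * N ^ 4 * R) := by rw [hYY]

end Pool.Agent.PP5Q
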