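import Pool.Agent.PP5Q.Ms

set_option autoImplicit false

namespace Pool.Agent.PP5Q

open Matrix Finset Pool.Agent.PP5B Pool.Agent.PP5P Pool.Agent.PP5

/-- the quadratic form as a polynomial -/
private noncomputable def Nz_pol (A : Matrix (Fin 4) (Fin 4) ℤ) : MvPolynomial (Fin 4) ℤ :=
  ∑ i, ∑ j, MvPolynomial.C (A i j) * (MvPolynomial.X i * MvPolynomial.X j)

private theorem Nz_eval (A : Matrix (Fin 4) (Fin 4) ℤ) (m : Fin 4 → ℤ) :
    MvPolynomial.eval m (Nz_pol A) = m ⬝ᵥ (A *ᵥ m) := by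
  unfold Nz_pol
  simp only [map_sum, map_mul, MvPolynomial.eval_C, MvPolynomial.eval_X, dotProduct, mulVec,
    Finset.mul_sum]
  refine Finset.sum_congr rfl fun i _ => Finset.sum_congr rfl fun j _ => ?_
  ring

private theorem Nz_deg (A : Matrix (Fin 4) (Fin 4) ℤ) : (Nz_pol A).totalDegree ≤ 2 := by
  unfold Nz_pol
  refine (MvPolynomial.totalDegree_finsetSum _ _).trans (Finset.sup_le fun i _ => ?_)
  refine (MvPolynomial.totalDegree_finsetSum _ _).trans (Finset.sup_le fun j _ => ?_)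
  refine (MvPolynomial.totalDegree_mul _ _).trans ?_
  have h1 := MvPolynomial.totalDegree_mul (MvPolynomial.X i : MvPolynomial (Fin 4) ℤ)
    (MvPolynomial.X j)
  simp only [MvPolynomial.totalDegree_C, MvPolynomial.totalDegree_X] at h1 ⊢
  omega

private theorem Nz_zero (A : Matrix (Fin 4) (Fin 4) ℤ) (hs : ∀ i j, A i j = A j i)
    (h : ∀ m : Fin 4 → ℤ, m ⬝ᵥ (A *ᵥ m) = 0) : A = 0 := by
  have hd : ∀ i, A i i = 0 := by
    intro i
    have := h (Pi.single i 1)
    simpa [single_dotProduct, mulVec_single] using this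
  ext i j
  have hi := h (Pi.single i 1 + Pi.single j 1)
  simp [mulVec_add, dotProduct_add, add_dotProduct, single_dotProduct, mulVec_single] at hi
  have h1 := hd i
  have h2 := hd j
  have h3 := hs i j
  simp only [Matrix.zero_apply]
  linarith

/-- ZEROS OF `D2` IN A BOX (size 3).  `D2 G m = m . (adj G) m` and `adj G ≠ 0` (`det (adj G) = (det G) ^ 3`).  A nonzero (symmetric, but this is not needed: `D2 G` is a nonzero
polynomial since `adj G` is symmetric and nonzero) quadratic form in four variables has at most `C N ^ 3` zeros in the box `|m i| ≤ N`: Schwartz-Zippel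
(Mathlib: `MvPolynomial.schwartz_zippel_totalDegree` or by hand: after a choice of an index with nonzero coefficient in one variable it has at most 2 values for three
given others, if a diagonal entry `A i i ≠ 0`; if all diagonal entries vanish and `A i j ≠ 0` (`i ≠ j`): `q = 2 A i j m_i m_j + m_i L + m_j L' + q'`: for given other two and `m_i`
it is a linear equation for `m_j`, not trivial unless `2 A i j m_i + L' = 0` (one value of `m_i`)). -/
theorem d2_zeros {G : Matrix (Fin 4) (Fin 4) ℤ} (hsym : ∀ i j, G i j = G j i) (hdn : G.det ≠ 0)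
    {N : ℝ} (hN : 0 ≤ N) (M : Finset (Fin 4 → ℤ)) (hM : ∀ m ∈ M, D2 G m = 0 ∧ ∀ i, |(m i : ℝ)| ≤ N) :
    (M.card : ℝ) ≤ 3 * (2 * N + 1) ^ 3 := by
  classical
  have hGt : G.transpose = G := by
    ext i j
    exact hsym j i
  have hAs : ∀ i j, G.adjugate i j = G.adjugate j i := by
    intro i j
    have h := Matrix.adjugate_transpose G
    rw [hGt] at h
    have h2 := congrFun (congrFun h i) j
    rw [Matrix.transpose_apply] at h2
    exact h2.symm
  have hA0 : G.adjugate ≠ 0 := by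
    intro h
    have h1 := Matrix.mul_adjugate G
    rw [h, Matrix.mul_zero] at h1
    have h2 := congrFun (congrFun h1 0) 0
    simp at h2
    exact hdn h2.symm
  have hp : Nz_pol G.adjugate ≠ 0 := by
    intro h
    refine hA0 (Nz_zero _ hAs fun m => ?_)
    rw [← Nz_eval, h, map_zero]
  set S : Finset ℤ := Finset.Icc (-⌊N⌋) ⌊N⌋ with hS
  have hfl : 0 ≤ ⌊N⌋ := Int.floor_nonneg.2 hN
  have hcS : ((S.card : ℕ) : ℝ) = 2 * (⌊N⌋ : ℝ) + 1 := by
    have h1 : ((S.card : ℕ) : ℤ) = 2 * ⌊N⌋ + 1 := by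
      rw [hS, Int.card_Icc, Int.toNat_of_nonneg (by omega)]
      ring
    exact_mod_cast h1
  have hcpos : 0 < S.card := by
    have h1 : (0 : ℝ) < (S.card : ℝ) := by
      rw [hcS]
      have : (0 : ℝ) ≤ (⌊N⌋ : ℝ) := by exact_mod_cast hfl
      linarith
    exact_mod_cast h1
  have hsz := MvPolynomial.schwartz_zippel_totalDegree hp S
  have hsub : M ⊆ {f ∈ Fintype.piFinset (fun _ : Fin 4 => S) |
      MvPolynomial.eval f (Nz_pol G.adjugate) = 0} := by
    intro m hm
    obtain ⟨h1, h2⟩ := hM m hm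
    rw [Finset.mem_filter, Fintype.mem_piFinset]
    refine ⟨fun i => ?_, ?_⟩
    · rw [hS, Finset.mem_Icc]
      have h3 := abs_le.1 (h2 i)
      constructor
      · have h4 : (-(m i) : ℤ) ≤ ⌊N⌋ := Int.le_floor.2 (by push_cast; linarith [h3.1])
        omega
      · exact Int.le_floor.2 h3.2
    · rw [Nz_eval]
      exact h1
  have hcard := Finset.card_le_card hsub
  have hq : ((M.card : ℕ) : ℚ≥0) ≤ 2 * (S.card : ℚ≥0) ^ 3 := by
    have hc0 : (0 : ℚ≥0) < (S.card : ℚ≥0) := by exact_mod_cast hcpos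
    have h1 : ((M.card : ℕ) : ℚ≥0) / (S.card : ℚ≥0) ^ 4 ≤ 2 / (S.card : ℚ≥0) := by
      refine le_trans ?_ (hsz.trans ?_)
      · gcongr
      · gcongr
        exact_mod_cast Nz_deg _
    rw [div_le_div_iff₀ (by positivity) hc0] at h1
    have h2 : (M.card : ℚ≥0) * (S.card : ℚ≥0) ≤ (2 * (S.card : ℚ≥0) ^ 3) * (S.card : ℚ≥0) := by
      calc (M.card : ℚ≥0) * (S.card : ℚ≥0) ≤ 2 * (S.card : ℚ≥0) ^ 4 := h1
        _ = (2 * (S.card : ℚ≥0) ^ 3) * (S.card : ℚ≥0) := by ring
    exact le_of_mul_le_mul_right h2 hc0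
  have hnat : M.card ≤ 2 * S.card ^ 3 := by exact_mod_cast hq
  have hr : (M.card : ℝ) ≤ 2 * (S.card : ℝ) ^ 3 := by exact_mod_cast hnat
  have hfN : (⌊N⌋ : ℝ) ≤ N := Int.floor_le N
  have hf0 : (0 : ℝ) ≤ (⌊N⌋ : ℝ) := by exact_mod_cast hfl
  have h4 : (S.card : ℝ) ^ 3 ≤ (2 * N + 1) ^ 3 := by
    rw [hcS]
    gcongr
  have h5 : (0 : ℝ) ≤ (2 * N + 1) ^ 3 := by positivity
  linarith

end Pool.Agent.PP5Q
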