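import Pool.Agent.PP5Q.Lb
import Pool.Agent.PP5Q.Nz

set_option autoImplicit false

namespace Pool.Agent.PP5Q

open Matrix Finset Pool.Agent.PP5B Pool.Agent.PP5P Pool.Agent.PP5

/-- `m` is bad (normalised): `S = y ^ c` -/
def BdM (S u : ℝ) (G : Matrix (Fin 4) (Fin 4) ℤ) (l : Fin 4 → ℝ) (m : Fin 4 → ℤ) : Prop :=
  D2 G m = 0 ∨ S < (sl G m : ℝ) ∨ (∀ i, S * |(m i : ℝ)| ≤ u * l i)

private theorem Hm_box {R : ℝ} (hR : 0 ≤ R) (M : Finset (Fin 4 → ℤ))
    (h : ∀ m ∈ M, ∀ i, |(m i : ℝ)| ≤ R) : (M.card : ℝ) ≤ (2 * R + 1) ^ 4 := by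
  classical
  have h1 : M ⊆ Fintype.piFinset (fun _ : Fin 4 => Finset.Icc (-⌊R⌋) ⌊R⌋) := by
    intro m hm
    rw [Fintype.mem_piFinset]
    intro i
    rw [Finset.mem_Icc]
    have h2 := abs_le.1 (h m hm i)
    constructor
    · have h3 : -(m i) ≤ ⌊R⌋ := Int.le_floor.2 (by push_cast; linarith)
      linarith
    · exact Int.le_floor.2 h2.2
  have h3 := Finset.card_le_card h1
  rw [Fintype.card_piFinset_const, Int.card_Icc] at h3
  have h4 : (0 : ℤ) ≤ ⌊R⌋ := Int.floor_nonneg.2 hR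
  have h5 : (((⌊R⌋ + 1 - -⌊R⌋).toNat : ℕ) : ℝ) ≤ 2 * R + 1 := by
    have h6 : (((⌊R⌋ + 1 - -⌊R⌋).toNat : ℕ) : ℤ) = ⌊R⌋ + 1 - -⌊R⌋ := Int.toNat_of_nonneg (by linarith)
    have h7 : (((⌊R⌋ + 1 - -⌊R⌋).toNat : ℕ) : ℝ) = ((⌊R⌋ + 1 - -⌊R⌋ : ℤ) : ℝ) := by
      exact_mod_cast congrArg (Int.cast : ℤ → ℝ) h6
    rw [h7]
    push_cast
    linarith [Int.floor_le R]
  calc (M.card : ℝ) ≤ (((⌊R⌋ + 1 - -⌊R⌋).toNat ^ 4 : ℕ) : ℝ) := by exact_mod_cast h3
    _ = (((⌊R⌋ + 1 - -⌊R⌋).toNat : ℕ) : ℝ) ^ 4 := by push_cast; rfl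
    _ ≤ (2 * R + 1) ^ 4 := pow_le_pow_left₀ (Nat.cast_nonneg _) h5 4

private theorem Hm_card {α : Type*} [DecidableEq α] (M : Finset α) (f : α → ℕ) (d : ℕ) (hd : d ≠ 0)
    {B : ℝ} (hB : 0 ≤ B) (h1 : ∀ m ∈ M, f m ∣ d)
    (h2 : ∀ s, (∃ m ∈ M, f m = s) → ((M.filter fun m => f m = s).card : ℝ) ≤ B) :
    (M.card : ℝ) ≤ d.divisors.card * B := by
  have h3 : M.card = ∑ b ∈ M.image f, (M.filter fun m => f m = b).card :=
    Finset.card_eq_sum_card_image f M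
  rw [h3]
  push_cast
  calc ∑ b ∈ M.image f, ((M.filter fun m => f m = b).card : ℝ) ≤ ∑ _b ∈ M.image f, B := by
        refine Finset.sum_le_sum fun b hb => h2 b ?_
        obtain ⟨m, hm, hmb⟩ := Finset.mem_image.1 hb
        exact ⟨m, hm, hmb⟩
    _ = (M.image f).card * B := by rw [Finset.sum_const, nsmul_eq_mul]
    _ ≤ d.divisors.card * B := by
        refine mul_le_mul_of_nonneg_right ?_ hB
        have h4 : M.image f ⊆ d.divisors := by
          intro b hb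
          obtain ⟨m, hm, hmb⟩ := Finset.mem_image.1 hb
          rw [Nat.mem_divisors]
          exact ⟨hmb ▸ h1 m hm, hd⟩
        exact_mod_cast Finset.card_le_card h4

/-- NUMBER OF BAD `m` (size 4).  `M = M1 ∪ M2 ∪ M3` according to the three cases.
(1) `D2 G m = 0`, `|m i| ≤ u l i ≤ E ^ 2 N`: `d2_zeros`: `≤ 3 (2 E ^ 2 N + 1) ^ 3 ≤ 81 E ^ 6 N ^ 3`.
(2) `D2 ≠ 0`, `s = sl G m > S`: the number of `s` is `≤ d(2 det G) ≤ C Y ^ c` (`sl_det`, `FTA.divisor_bound`, `det_le`), and for every `s` by `latS` with `u`, where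
`u ≤ E / N`, `Λ ≤ E ^ 4 N ^ 8`, `A ≤ E`, `√mi3 ≤ N ^ 2` (hypothesis with `g ≥ 1`):
`u ^ 4 Λ A / s ^ 2 ≤ E ^ 9 N ^ 4 / S ^ 2`, `u ^ 3 Λ / l 0 ≤ E ^ 8 N ^ 3`, `1`, `u ^ 2 l 2 l 3 √mi3 / s ≤ E ^ 4 N ^ 4 / S`.
(3) `|m i| ≤ u l i / S ≤ E ^ 2 N / S`: box count `(1 + 2 E ^ 2 N / S) ^ 4 ≤ 81 E ^ 8 (N / S) ^ 4` if `S ≤ N`.
All terms are `≤ E ^ 17 N ^ 4 (S ^ (-1/4) + N ^ (-1/20))` up to the constant. -/
theorem badM (c : ℝ) (hc : 0 < c) (C0 : ℝ) (hC0 : 1 ≤ C0) : ∃ C : ℝ, 1 ≤ C ∧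
    ∀ (G : Matrix (Fin 4) (Fin 4) ℤ) (l : Fin 4 → ℝ) (T N E Y u S : ℝ), NG C0 T N E G l →
    1 ≤ Y → (∀ i, l i ≤ Y) → 1 / Y ≤ T → 0 < u → u ≤ E / N → 1 ≤ S → S ≤ N →
    √(PP5N.mi3 G : ℝ) ≤ N ^ 2 → ∀ M : Finset (Fin 4 → ℤ),
    (∀ m ∈ M, Pr4 m ∧ (∀ i, |(m i : ℝ)| ≤ u * l i) ∧ BdM S u G l m) →
    (M.card : ℝ) ≤ C * Y ^ c * (E ^ 17 * N ^ 4 * (S ^ (-(1 / 4) : ℝ) + N ^ (-(1 / 20) : ℝ))) := by
  classical
  obtain ⟨C1, hC1, hL⟩ := latS (c / 2) (by positivity) C0 hC0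
  obtain ⟨C2, hC2, hD⟩ := FTA.divisor_bound (ε := c / 24) (by positivity)
  have hC00 : 0 < C0 := by linarith
  obtain ⟨K, hK⟩ : ∃ K : ℝ, K = C2 * (48 * C0 ^ 4) ^ (c / 24) := ⟨_, rfl⟩
  have hK0 : 0 < K := by rw [hK]; positivity
  have hC10 : 0 < C1 := by linarith
  refine ⟨162 + 4 * (C1 * K), by have := mul_pos hC10 hK0; linarith, ?_⟩
  intro G l T N E Y u S hG hY hlY hYT hu huE hS hSN h3 M hM
  have h := hG.gh
  have hN : 1 ≤ N := hG.N1
  have hE : 1 ≤ E := hG.E1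
  have hN0 : 0 < N := by linarith
  have hE0 : 0 < E := by linarith
  have hS0 : 0 < S := by linarith
  have hY0 : 0 < Y := by linarith
  have hT0 : 0 < T := h.T0
  have hΛ0 : 0 < ∏ i, l i := Finset.prod_pos fun i _ => h.lp i
  have hΛ : ∏ i, l i ≤ E ^ 4 * N ^ 8 := by
    have h1 : ∏ i, l i ≤ ∏ _i : Fin 4, (E * N ^ 2) :=
      Finset.prod_le_prod (fun i _ => (h.lp i).le) (fun i _ => hG.lup i)
    rw [Finset.prod_const, Finset.card_univ, Fintype.card_fin] at h1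
    calc ∏ i, l i ≤ (E * N ^ 2) ^ 4 := h1
      _ = E ^ 4 * N ^ 8 := by ring
  have hul : ∀ i, u * l i ≤ E ^ 2 * N := by
    intro i
    calc u * l i ≤ (E / N) * (E * N ^ 2) :=
          mul_le_mul huE (hG.lup i) (h.lp i).le (by positivity)
      _ = E ^ 2 * N := by field_simp
  -- powers
  obtain ⟨σ, hσ⟩ : ∃ σ : ℝ, σ = S ^ (-(1 / 4) : ℝ) := ⟨_, rfl⟩
  obtain ⟨ν, hν⟩ : ∃ ν : ℝ, ν = N ^ (-(1 / 20) : ℝ) := ⟨_, rfl⟩
  have hσ1 : 1 / S ≤ σ := by
    rw [hσ, one_div, ← Real.rpow_neg_one]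
    exact Real.rpow_le_rpow_of_exponent_le hS (by norm_num)
  have hν1 : 1 / N ≤ ν := by
    rw [hν, one_div, ← Real.rpow_neg_one]
    exact Real.rpow_le_rpow_of_exponent_le hN (by norm_num)
  have hσ0 : 0 ≤ σ := le_trans (by positivity) hσ1
  have hν0 : 0 ≤ ν := le_trans (by positivity) hν1
  rw [← hσ, ← hν]
  have hYc : 1 ≤ Y ^ c := Real.one_le_rpow hY hc.le
  -- the three parts
  have hsub : M ⊆ (M.filter fun m => D2 G m = 0) ∪
      ((M.filter fun m => S < (sl G m : ℝ)) ∪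
        (M.filter fun m => ∀ i, S * |(m i : ℝ)| ≤ u * l i)) := by
    intro m hm
    rw [Finset.mem_union, Finset.mem_union, Finset.mem_filter, Finset.mem_filter,
      Finset.mem_filter]
    rcases (hM m hm).2.2 with h1 | h1 | h1
    · exact Or.inl ⟨hm, h1⟩
    · exact Or.inr (Or.inl ⟨hm, h1⟩)
    · exact Or.inr (Or.inr ⟨hm, h1⟩)
  have hcard : (M.card : ℝ) ≤ ((M.filter fun m => D2 G m = 0).card : ℝ) +
      (((M.filter fun m => S < (sl G m : ℝ)).card : ℝ) +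
        ((M.filter fun m => ∀ i, S * |(m i : ℝ)| ≤ u * l i).card : ℝ)) := by
    have h1 := (Finset.card_le_card hsub).trans (Finset.card_union_le _ _)
    have h2 := h1.trans (Nat.add_le_add_left (Finset.card_union_le _ _) _)
    exact_mod_cast h2
  -- (1)
  have hE26 : (1 : ℝ) ≤ E ^ 2 * N := by
    have : (1 : ℝ) ≤ E ^ 2 := one_le_pow₀ hE
    exact one_le_mul_of_one_le_of_one_le this hN
  have hM1 : ((M.filter fun m => D2 G m = 0).card : ℝ) ≤ 81 * (E ^ 17 * N ^ 4 * ν) := by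
    have h1 := d2_zeros h.sym h.dn (N := E ^ 2 * N) (by positivity)
      (M.filter fun m => D2 G m = 0) (fun m hm => by
        rw [Finset.mem_filter] at hm
        exact ⟨hm.2, fun i => ((hM m hm.1).2.1 i).trans (hul i)⟩)
    calc ((M.filter fun m => D2 G m = 0).card : ℝ) ≤ 3 * (2 * (E ^ 2 * N) + 1) ^ 3 := h1
      _ ≤ 3 * (3 * (E ^ 2 * N)) ^ 3 := by gcongr; linarith
      _ = 81 * (E ^ 6 * N ^ 4 * (1 / N)) := by field_simp; ring
      _ ≤ 81 * (E ^ 17 * N ^ 4 * ν) := by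
          gcongr
          norm_num
  -- (3)
  have hM3 : ((M.filter fun m => ∀ i, S * |(m i : ℝ)| ≤ u * l i).card : ℝ)
      ≤ 81 * (E ^ 17 * N ^ 4 * σ) := by
    have h1 := Hm_box (R := E ^ 2 * N / S) (by positivity)
      (M.filter fun m => ∀ i, S * |(m i : ℝ)| ≤ u * l i) (fun m hm i => by
        rw [Finset.mem_filter] at hm
        rw [le_div_iff₀ hS0, mul_comm]
        exact (hm.2 i).trans (hul i))
    have h2 : (1 : ℝ) ≤ E ^ 2 * N / S := by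
      rw [le_div_iff₀ hS0, one_mul]
      have : (1 : ℝ) ≤ E ^ 2 := one_le_pow₀ hE
      exact hSN.trans (le_mul_of_one_le_left hN0.le this)
    have h4 : (1 / S) ^ 3 ≤ 1 := by
      refine pow_le_one₀ (by positivity) ?_
      rw [div_le_one hS0]
      exact hS
    calc ((M.filter fun m => ∀ i, S * |(m i : ℝ)| ≤ u * l i).card : ℝ)
        ≤ (2 * (E ^ 2 * N / S) + 1) ^ 4 := h1
      _ ≤ (3 * (E ^ 2 * N / S)) ^ 4 := by gcongr; linarith
      _ = 81 * (E ^ 8 * N ^ 4 * (1 / S)) * (1 / S) ^ 3 := by field_simp; ring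
      _ ≤ 81 * (E ^ 8 * N ^ 4 * (1 / S)) * 1 := by gcongr
      _ = 81 * (E ^ 8 * N ^ 4 * (1 / S)) := mul_one _
      _ ≤ 81 * (E ^ 17 * N ^ 4 * σ) := by
          gcongr
          norm_num
  -- (2)
  have hdet : (((2 * G.det).natAbs : ℕ) : ℝ) ≤ 48 * C0 ^ 4 * Y ^ 12 := by
    have h1 := det_le hC00 h
    have h2 : 1 ≤ Y * T := by
      rw [div_le_iff₀ hY0] at hYT
      linarith
    have h4 : (∏ i, l i) ^ 2 ≤ Y ^ 12 * T ^ 4 := by
      have h5 : ∏ i, l i ≤ ∏ _i : Fin 4, Y :=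
        Finset.prod_le_prod (fun i _ => (h.lp i).le) (fun i _ => hlY i)
      rw [Finset.prod_const, Finset.card_univ, Fintype.card_fin] at h5
      calc (∏ i, l i) ^ 2 ≤ (Y ^ 4) ^ 2 := pow_le_pow_left₀ hΛ0.le h5 2
        _ = Y ^ 8 * 1 := by ring
        _ ≤ Y ^ 8 * (Y * T) ^ 4 := by
            gcongr
            exact one_le_pow₀ h2
        _ = Y ^ 12 * T ^ 4 := by ring
    rw [Nat.cast_natAbs]
    have h6 : ((|2 * G.det| : ℤ) : ℝ) = 2 * |(G.det : ℝ)| := by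
      push_cast
      rw [abs_mul, abs_two]
    rw [h6]
    have h7 : 24 * C0 ^ 4 * (∏ i, l i) ^ 2 / T ^ 4 ≤ 24 * C0 ^ 4 * Y ^ 12 := by
      rw [div_le_iff₀ (by positivity)]
      calc 24 * C0 ^ 4 * (∏ i, l i) ^ 2 ≤ 24 * C0 ^ 4 * (Y ^ 12 * T ^ 4) := by gcongr
        _ = 24 * C0 ^ 4 * Y ^ 12 * T ^ 4 := by ring
    linarith
  have hne : (2 * G.det).natAbs ≠ 0 := by
    rw [Int.natAbs_ne_zero]
    exact mul_ne_zero two_ne_zero h.dn
  have hdiv : (((2 * G.det).natAbs.divisors.card : ℕ) : ℝ) ≤ K * Y ^ (c / 2) := by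
    refine (hD _ hne).trans ?_
    calc C2 * (((2 * G.det).natAbs : ℕ) : ℝ) ^ (c / 24)
        ≤ C2 * (48 * C0 ^ 4 * Y ^ 12) ^ (c / 24) := by
          gcongr
      _ = C2 * ((48 * C0 ^ 4) ^ (c / 24) * (Y ^ 12) ^ (c / 24)) := by
          rw [Real.mul_rpow (by positivity) (by positivity)]
      _ = K * Y ^ (c / 2) := by
          rw [hK, ← Real.rpow_natCast Y 12, ← Real.rpow_mul hY0.le]
          have : ((12 : ℕ) : ℝ) * (c / 24) = c / 2 := by push_cast; ring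
          rw [this]
          ring
  obtain ⟨B, hB⟩ : ∃ B : ℝ, B = C1 * Y ^ (c / 2) * (4 * (E ^ 9 * N ^ 4 * (1 / S))) := ⟨_, rfl⟩
  have hB0 : 0 ≤ B := by rw [hB]; positivity
  have hM2 : ((M.filter fun m => S < (sl G m : ℝ)).card : ℝ)
      ≤ 4 * (C1 * K) * Y ^ c * (E ^ 17 * N ^ 4 * σ) := by
    have h1 := Hm_card (M.filter fun m => S < (sl G m : ℝ)) (sl G) (2 * G.det).natAbs hne hB0
      (fun m hm => by
        rw [Finset.mem_filter] at hm
        exact Int.natCast_dvd.1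
          ((dvd_pow_self _ two_ne_zero).trans (sl_det h.sym h.ev (hM m hm.1).1)))
      (fun s hs => by
        obtain ⟨m0, hm0, hs0⟩ := hs
        rw [Finset.mem_filter] at hm0
        have hSs : S < (s : ℝ) := by rw [← hs0]; exact hm0.2
        have hs1 : (0 : ℝ) < s := hS0.trans hSs
        have h2 := hL G l T Y u h hY hlY hYT hu s (by exact_mod_cast hs1)
          ((M.filter fun m => S < (sl G m : ℝ)).filter fun m => sl G m = s) (fun m hm => by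
            rw [Finset.mem_filter, Finset.mem_filter] at hm
            exact ⟨(hM m hm.1.1).1, hm.2, (hM m hm.1.1).2.1⟩)
        refine h2.trans ?_
        rw [hB]
        refine mul_le_mul_of_nonneg_left ?_ (by positivity)
        have hNS : N ^ 3 ≤ N ^ 4 * (1 / S) := by
          rw [mul_one_div, le_div_iff₀ hS0]
          calc N ^ 3 * S ≤ N ^ 3 * N := by gcongr
            _ = N ^ 4 := by ring
        have hmi : (0 : ℝ) ≤ (PP5N.mi2 G : ℝ) := Nat.cast_nonneg _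
        have t1 : u ^ 4 * (∏ i, l i) * min 1 ((PP5N.mi2 G : ℝ) / s ^ 2)
            ≤ E ^ 9 * N ^ 4 * (1 / S) := by
          have a1 : (PP5N.mi2 G : ℝ) / s ^ 2 ≤ E * (1 / S) := by
            have a2 : (PP5N.mi2 G : ℝ) / s ^ 2 ≤ E / S ^ 2 :=
              div_le_div₀ hE0.le hG.A (by positivity) (by gcongr)
            refine a2.trans ?_
            rw [mul_one_div]
            refine div_le_div_of_nonneg_left hE0.le hS0 ?_
            exact le_self_pow₀ hS two_ne_zero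
          calc u ^ 4 * (∏ i, l i) * min 1 ((PP5N.mi2 G : ℝ) / s ^ 2)
              ≤ (E / N) ^ 4 * (E ^ 4 * N ^ 8) * (E * (1 / S)) := by
                gcongr
                exact (min_le_right _ _).trans a1
            _ = E ^ 9 * N ^ 4 * (1 / S) := by field_simp
        have t2 : u ^ 3 * (∏ i, l i) *
            min (1 / l 0) (l 3 * PP5N.mi2 G / (T * s ^ 2)) ≤ E ^ 9 * N ^ 4 * (1 / S) := by
          have a1 : 1 / l 0 ≤ E / N ^ 2 := by
            rw [div_le_div_iff₀ (h.lp 0) (by positivity), one_mul]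
            have a2 := hG.llo 0
            rw [div_le_iff₀ hE0] at a2
            linarith
          calc u ^ 3 * (∏ i, l i) * min (1 / l 0) (l 3 * PP5N.mi2 G / (T * s ^ 2))
              ≤ (E / N) ^ 3 * (E ^ 4 * N ^ 8) * (E / N ^ 2) := by
                gcongr
                · refine le_min (by have := h.lp 0; positivity) ?_
                  have := h.lp 3
                  positivity
                · exact (min_le_left _ _).trans a1
            _ = E ^ 8 * N ^ 3 := by field_simp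
            _ ≤ E ^ 9 * (N ^ 4 * (1 / S)) := by
                gcongr
                norm_num
            _ = E ^ 9 * N ^ 4 * (1 / S) := by ring
        have t3 : (1 : ℝ) ≤ E ^ 9 * N ^ 4 * (1 / S) := by
          have a1 : (1 : ℝ) ≤ E ^ 9 := one_le_pow₀ hE
          have a2 : (1 : ℝ) ≤ N ^ 3 := one_le_pow₀ hN
          have a3 : (1 : ℝ) ≤ N ^ 4 * (1 / S) := a2.trans hNS
          calc (1 : ℝ) = 1 * 1 := by ring
            _ ≤ E ^ 9 * (N ^ 4 * (1 / S)) := by gcongr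
            _ = E ^ 9 * N ^ 4 * (1 / S) := by ring
        have t4 : u ^ 2 * (l 2 * l 3) * √(PP5N.mi3 G : ℝ) / s ≤ E ^ 9 * N ^ 4 * (1 / S) := by
          have b2 := h.lp 2
          have b3 := h.lp 3
          have a1 : u ^ 2 * (l 2 * l 3) * √(PP5N.mi3 G : ℝ)
              ≤ (E / N) ^ 2 * ((E * N ^ 2) * (E * N ^ 2)) * N ^ 2 := by
            have c2 := hG.lup 2
            have c3 := hG.lup 3
            gcongr
          have a2 : (E / N) ^ 2 * ((E * N ^ 2) * (E * N ^ 2)) * N ^ 2 = E ^ 4 * N ^ 4 := by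
            field_simp
          rw [a2] at a1
          calc u ^ 2 * (l 2 * l 3) * √(PP5N.mi3 G : ℝ) / s ≤ (E ^ 4 * N ^ 4) / S := by
                refine div_le_div₀ (by positivity) a1 hS0 hSs.le
            _ = E ^ 4 * N ^ 4 * (1 / S) := by ring
            _ ≤ E ^ 9 * N ^ 4 * (1 / S) := by
                gcongr
                norm_num
        linarith)
    have hYY : Y ^ (c / 2) * Y ^ (c / 2) = Y ^ c := by
      rw [← Real.rpow_add hY0]
      congr 1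
      ring
    calc ((M.filter fun m => S < (sl G m : ℝ)).card : ℝ)
        ≤ ((2 * G.det).natAbs.divisors.card : ℝ) * B := h1
      _ ≤ (K * Y ^ (c / 2)) * B := mul_le_mul_of_nonneg_right hdiv hB0
      _ = 4 * (C1 * K) * (Y ^ (c / 2) * Y ^ (c / 2)) * (E ^ 9 * N ^ 4 * (1 / S)) := by
          rw [hB]; ring
      _ = 4 * (C1 * K) * Y ^ c * (E ^ 9 * N ^ 4 * (1 / S)) := by rw [hYY]
      _ ≤ 4 * (C1 * K) * Y ^ c * (E ^ 17 * N ^ 4 * σ) := by
          gcongr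
          norm_num
  have hP : 0 ≤ E ^ 17 * N ^ 4 * σ := by positivity
  have hQ : 0 ≤ E ^ 17 * N ^ 4 * ν := by positivity
  have hCK : 0 ≤ C1 * K := by positivity
  calc (M.card : ℝ) ≤ 81 * (E ^ 17 * N ^ 4 * ν) + (4 * (C1 * K) * Y ^ c * (E ^ 17 * N ^ 4 * σ)
        + 81 * (E ^ 17 * N ^ 4 * σ)) := by linarith
    _ ≤ 162 * Y ^ c * (E ^ 17 * N ^ 4 * ν) + (4 * (C1 * K) * Y ^ c * (E ^ 17 * N ^ 4 * σ)
        + 162 * Y ^ c * (E ^ 17 * N ^ 4 * σ)) + 4 * (C1 * K) * Y ^ c * (E ^ 17 * N ^ 4 * ν) := by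
        have e1 : E ^ 17 * N ^ 4 * ν ≤ Y ^ c * (E ^ 17 * N ^ 4 * ν) :=
          le_mul_of_one_le_left hQ hYc
        have e2 : E ^ 17 * N ^ 4 * σ ≤ Y ^ c * (E ^ 17 * N ^ 4 * σ) :=
          le_mul_of_one_le_left hP hYc
        have e3 : 0 ≤ 4 * (C1 * K) * Y ^ c * (E ^ 17 * N ^ 4 * ν) := by positivity
        linarith
    _ = (162 + 4 * (C1 * K)) * Y ^ c * (E ^ 17 * N ^ 4 * (σ + ν)) := by ring

end Pool.Agent.PP5Q
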