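import Pool.Agent.PP5Q.Ms

set_option autoImplicit false

namespace Pool.Agent.PP5Q

open Matrix Finset Pool.Agent.PP5B Pool.Agent.PP5P Pool.Agent.PP5

private lemma La_min {a b a' b' k : ℝ} (hk : 1 ≤ k) (ha : 0 ≤ a) (haa : a' ≤ k * a) (hb : b' ≤ k * b) :
    min a' b' ≤ k * min a b := by
  rcases le_total a b with h | h
  · rw [min_eq_left h]
    exact (min_le_left _ _).trans haa
  · rw [min_eq_right h]
    exact (min_le_right _ _).trans hb

private lemma La_prod {C0 T : ℝ} {G : Matrix (Fin 4) (Fin 4) ℤ} {l : Fin 4 → ℝ} (h : GH C0 T G l) :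
    ∀ i k, i ≠ k → l i * l k ≤ l 2 * l 3 := by
  have h01 := h.m01
  have h12 := h.m12
  have h23 := h.m23
  have q0 := h.lp 0
  have q1 := h.lp 1
  have q2 := h.lp 2
  have q3 := h.lp 3
  have e1 : l 0 * l 1 ≤ l 2 * l 3 := by nlinarith
  have e2 : l 0 * l 2 ≤ l 2 * l 3 := by nlinarith
  have e3 : l 0 * l 3 ≤ l 2 * l 3 := by nlinarith
  have e4 : l 1 * l 2 ≤ l 2 * l 3 := by nlinarith
  have e5 : l 1 * l 3 ≤ l 2 * l 3 := by nlinarith
  intro i k hik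
  have key : ∀ i k : Fin 4, i < k → l i * l k ≤ l 2 * l 3 := by
    intro i k hik
    fin_cases i <;> fin_cases k <;> first | exact absurd hik (by decide) | assumption | exact le_rfl
  rcases lt_or_gt_of_ne hik with h | h
  · exact key i k h
  · rw [mul_comm]; exact key k i h

private lemma La_half {s s' : ℕ} (h0 : 0 < s) (h1 : s ≤ 2 * s') (h2 : s' ∣ s) : s' = s ∨ 2 * s' = s := by
  obtain ⟨k, hk⟩ := h2
  have hs' : 0 < s' := by
    rcases Nat.eq_zero_or_pos s' with h | h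
    · omega
    · exact h
  have hk2 : k ≤ 2 := by
    by_contra h
    push Not at h
    have : s' * 3 ≤ s' * k := Nat.mul_le_mul_left _ h
    omega
  have hk0 : k ≠ 0 := by
    rintro rfl
    omega
  have : k = 1 ∨ k = 2 := by omega
  rcases this with rfl | rfl
  · left; omega
  · right; omega

/-- comparison of the brackets for `s'` and `s` -/
private lemma La_br {C0 u Λ a b L0 L3 T s s' m2 m3 : ℝ} (hC0 : 1 ≤ C0) (hu : 0 < u) (hΛ : 0 < Λ)
    (hL0 : 0 < L0) (hL3 : 0 < L3) (hT : 0 < T) (hs' : 0 < s') (hs : 0 < s) (h : s ≤ 2 * s')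
    (hm2 : 0 ≤ m2) (hm3 : 0 ≤ m3) (ha : 0 < a) (hb : 0 < b) :
    u ^ 4 * Λ * min 1 (m2 / s' ^ 2) + u ^ 3 * Λ * min (1 / L0) (C0 * L3 * m2 / (T * s' ^ 2)) + 1 +
      u ^ 2 * (a * b) * √m3 / s' ≤
    4 * C0 * (u ^ 4 * Λ * min 1 (m2 / s ^ 2) + u ^ 3 * Λ * min (1 / L0) (L3 * m2 / (T * s ^ 2)) + 1 +
      u ^ 2 * (a * b) * √m3 / s) := by
  have hk : 1 ≤ 4 * C0 := by linarith
  have hsq : s ^ 2 ≤ 4 * s' ^ 2 := by nlinarith
  have e1 : m2 / s' ^ 2 ≤ 4 * C0 * (m2 / s ^ 2) := by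
    have h1 : m2 / s' ^ 2 ≤ 4 * (m2 / s ^ 2) := by
      rw [← mul_div_assoc, div_le_div_iff₀ (by positivity) (by positivity)]
      nlinarith
    have h2 : 0 ≤ m2 / s ^ 2 := by positivity
    nlinarith
  have e2 : C0 * L3 * m2 / (T * s' ^ 2) ≤ 4 * C0 * (L3 * m2 / (T * s ^ 2)) := by
    rw [← mul_div_assoc, div_le_div_iff₀ (by positivity) (by positivity)]
    have h1 : 0 ≤ C0 * L3 * m2 * T := by positivity
    nlinarith
  have e3 : u ^ 2 * (a * b) * √m3 / s' ≤ 4 * C0 * (u ^ 2 * (a * b) * √m3 / s) := by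
    have h0 : 0 ≤ u ^ 2 * (a * b) * √m3 := by positivity
    have h1 : u ^ 2 * (a * b) * √m3 / s' ≤ 2 * (u ^ 2 * (a * b) * √m3 / s) := by
      rw [← mul_div_assoc, div_le_div_iff₀ hs' hs]
      nlinarith
    have h2 : 0 ≤ u ^ 2 * (a * b) * √m3 / s := by positivity
    nlinarith
  have f1 : min 1 (m2 / s' ^ 2) ≤ 4 * C0 * min 1 (m2 / s ^ 2) :=
    La_min hk zero_le_one (by linarith) e1
  have f2 : min (1 / L0) (C0 * L3 * m2 / (T * s' ^ 2)) ≤ 4 * C0 * min (1 / L0) (L3 * m2 / (T * s ^ 2)) :=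
    La_min hk (by positivity) (by have : 0 < 1 / L0 := by positivity
                                  nlinarith) e2
  have g1 := mul_le_mul_of_nonneg_left f1 (show 0 ≤ u ^ 4 * Λ by positivity)
  have g2 := mul_le_mul_of_nonneg_left f2 (show 0 ≤ u ^ 3 * Λ by positivity)
  linarith

/-- THE LATTICE BOUND FOR A CLASS (size 3).  `lat` (PP5N/Lat) with `w = l`, `wmin = l 0`, `wmax = l 3`, `B = l 2 * l 3`, `X0 = T`.
By `sl_half` (PP5N/SnD) for `m ∈ X` there is `s' ∣ s`, `s ≤ 2 s'`, `mnQ G m (s' ^ 2)`; so `s' = s` or `2 s' = s`: split `X` in two (`X.filter (mnQ G · (s ^ 2))` and the rest).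
`lat` for `s' ≥ s / 2` costs constants (`1 / s' ^ 2 ≤ 4 / s ^ 2`), `d(s') ≤ d(s)` (or: `d(s') ≤ C (s') ^ e`), `s ^ 2 ∣ 2 det G` (`sl_det`, `X` nonempty),
`|det G| ≤ 24 C0 ^ 4 Y ^ 12` (`det_le`): `d(s) ^ 3 ≤ C Y ^ c` (`FTA.divisor_bound`). -/
theorem latS (c : ℝ) (hc : 0 < c) (C0 : ℝ) (hC0 : 1 ≤ C0) : ∃ C : ℝ, 1 ≤ C ∧
    ∀ (G : Matrix (Fin 4) (Fin 4) ℤ) (l : Fin 4 → ℝ) (T Y u : ℝ), GH C0 T G l →
    1 ≤ Y → (∀ i, l i ≤ Y) → 1 / Y ≤ T → 0 < u → ∀ s : ℕ, 0 < s →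
    ∀ X : Finset (Fin 4 → ℤ), (∀ m ∈ X, Pr4 m ∧ sl G m = s ∧ ∀ i, |(m i : ℝ)| ≤ u * l i) →
    (X.card : ℝ) ≤ C * Y ^ c *
      (u ^ 4 * (∏ i, l i) * min 1 ((PP5N.mi2 G : ℝ) / s ^ 2) +
        u ^ 3 * (∏ i, l i) * min (1 / l 0) (l 3 * PP5N.mi2 G / (T * s ^ 2)) +
        1 + u ^ 2 * (l 2 * l 3) * √(PP5N.mi3 G : ℝ) / s) := by
  classical
  obtain ⟨C1, hC1, hlat⟩ := PP5N.lat
  obtain ⟨c1, hc1, hdiv⟩ := FTA.divisor_bound (ε := c / 36) (by positivity)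
  set K : ℝ := (48 * C0 ^ 4) ^ (c / 36) with hK
  have hKp : 0 < K := by positivity
  refine ⟨max 1 (2 * (C1 * (c1 * K) ^ 3 * (4 * C0))), le_max_left _ _, ?_⟩
  intro G l T Y u hG hY hlY hTY hu s hs X hX
  have hYp : 0 < Y := by linarith
  have hT : 0 < T := hG.T0
  have hΛ : 0 < ∏ i, l i := Finset.prod_pos fun i _ => hG.lp i
  have hsp : (0 : ℝ) < s := by exact_mod_cast hs
  have hl0 := hG.lp 0
  have hl2 := hG.lp 2
  have hl3 := hG.lp 3
  obtain ⟨R, hR⟩ : ∃ R, R = u ^ 4 * (∏ i, l i) * min 1 ((PP5N.mi2 G : ℝ) / s ^ 2) +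
        u ^ 3 * (∏ i, l i) * min (1 / l 0) (l 3 * PP5N.mi2 G / (T * s ^ 2)) +
        1 + u ^ 2 * (l 2 * l 3) * √(PP5N.mi3 G : ℝ) / s := ⟨_, rfl⟩
  rw [← hR]
  have hRp : 0 < R := by
    rw [hR]
    positivity
  have hYc : 0 < Y ^ c := Real.rpow_pos_of_pos hYp _
  rcases X.eq_empty_or_nonempty with hXe | ⟨m0, hm0⟩
  · rw [hXe]
    simp only [Finset.card_empty, Nat.cast_zero]
    positivity
  -- the size of `s`
  have hdet : |(G.det : ℝ)| ≤ 24 * C0 ^ 4 * Y ^ 12 := by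
    refine (det_le (by linarith) hG).trans ?_
    have hp : ∏ i, l i ≤ Y ^ 4 := by
      calc ∏ i, l i ≤ ∏ _i : Fin 4, Y := Finset.prod_le_prod (fun i _ => (hG.lp i).le) fun i _ => hlY i
        _ = Y ^ 4 := by simp
    have hTi : 1 / T ≤ Y := by
      rw [div_le_iff₀ hT]
      have := mul_le_mul_of_nonneg_left hTY hYp.le
      rw [mul_one_div_cancel hYp.ne'] at this
      exact this
    have h1 : 24 * C0 ^ 4 * (∏ i, l i) ^ 2 / T ^ 4 = 24 * C0 ^ 4 * (∏ i, l i) ^ 2 * (1 / T) ^ 4 := by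
      rw [one_div, inv_pow]; rfl
    rw [h1]
    calc 24 * C0 ^ 4 * (∏ i, l i) ^ 2 * (1 / T) ^ 4 ≤ 24 * C0 ^ 4 * (Y ^ 4) ^ 2 * Y ^ 4 := by
          gcongr
      _ = 24 * C0 ^ 4 * Y ^ 12 := by ring
  have hsD : (s : ℝ) ≤ 48 * C0 ^ 4 * Y ^ 12 := by
    have h1 := sl_det hG.sym hG.ev (hX m0 hm0).1
    rw [(hX m0 hm0).2.1] at h1
    have h2 : (s : ℤ) ^ 2 ≤ |2 * G.det| := by
      refine Int.le_of_dvd (abs_pos.2 (mul_ne_zero two_ne_zero hG.dn)) ((dvd_abs _ _).2 h1)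
    have h3 : (s : ℝ) ^ 2 ≤ 2 * |(G.det : ℝ)| := by
      have : ((s : ℤ) ^ 2 : ℝ) ≤ ((|2 * G.det| : ℤ) : ℝ) := by exact_mod_cast h2
      rw [Int.cast_abs, Int.cast_mul, abs_mul] at this
      simpa using this
    have h4 : (1 : ℝ) ≤ s := by exact_mod_cast hs
    nlinarith
  -- one value of `s'`
  have hone : ∀ s' : ℕ, 0 < s' → s ≤ 2 * s' → s' ≤ s → ∀ Z : Finset (Fin 4 → ℤ),
      (∀ m ∈ Z, m ∈ X ∧ mnQ G m ((s' : ℤ) ^ 2)) →
      (Z.card : ℝ) ≤ C1 * (c1 * K) ^ 3 * (4 * C0) * (Y ^ c * R) := by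
    intro s' hs' h1 h2 Z hZ
    have h3 := hlat l hG.lp (l 0) (l 3) (l 2 * l 3) C0 T u hl0 hG.l0_le hG.le_l3 ?_ (by linarith) hT hu G
      hG.sym hG.ev hG.dn hG.gram s' hs' Z (fun m hm => ⟨(hX m (hZ m hm).1).1, (hZ m hm).2, (hX m (hZ m hm).1).2.2⟩)
    · have hs'p : (0 : ℝ) < s' := by exact_mod_cast hs'
      have hbr := La_br (C0 := C0) (u := u) (Λ := ∏ i, l i) (a := l 2) (b := l 3) (L0 := l 0) (L3 := l 3)
        (T := T) (s := s) (s' := s') (m2 := (PP5N.mi2 G : ℝ)) (m3 := (PP5N.mi3 G : ℝ)) hC0 hu hΛ hl0 hl3 hT hs'p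
        hsp (by exact_mod_cast h1) (by positivity) (by positivity) hl2 hl3
      rw [← hR] at hbr
      have hd : ((s'.divisors.card : ℝ)) ^ 3 ≤ (c1 * K) ^ 3 * Y ^ c := by
        have h4 : (s'.divisors.card : ℝ) ≤ c1 * K * Y ^ (c / 3) := by
          calc (s'.divisors.card : ℝ) ≤ c1 * (s' : ℝ) ^ (c / 36) := hdiv s' hs'.ne'
            _ ≤ c1 * (48 * C0 ^ 4 * Y ^ 12) ^ (c / 36) := by
                have h5 : (s' : ℝ) ≤ 48 * C0 ^ 4 * Y ^ 12 := le_trans (by exact_mod_cast h2) hsD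
                have h6 := Real.rpow_le_rpow hs'p.le h5 (show 0 ≤ c / 36 by positivity)
                exact mul_le_mul_of_nonneg_left h6 hc1.le
            _ = c1 * K * Y ^ (c / 3) := by
                rw [Real.mul_rpow (by positivity) (by positivity), hK, ← Real.rpow_natCast Y 12,
                  ← Real.rpow_mul hYp.le, mul_assoc]
                congr 3
                push_cast
                ring
        calc ((s'.divisors.card : ℝ)) ^ 3 ≤ (c1 * K * Y ^ (c / 3)) ^ 3 :=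
              pow_le_pow_left₀ (by positivity) h4 3
          _ = (c1 * K) ^ 3 * Y ^ c := by
              rw [mul_pow, ← Real.rpow_natCast (Y ^ (c / 3)) 3, ← Real.rpow_mul hYp.le]
              congr 2
              push_cast
              ring
      calc (Z.card : ℝ) ≤ _ := h3
        _ ≤ C1 * ((c1 * K) ^ 3 * Y ^ c) * (4 * C0 * R) := by
            refine mul_le_mul (mul_le_mul_of_nonneg_left hd (by linarith)) hbr (by positivity) (by positivity)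
        _ = _ := by ring
    · intro i k hik
      exact La_prod hG i k hik
  -- splitting
  have hsplit : (X.card : ℝ) = ((X.filter fun m => mnQ G m ((s : ℤ) ^ 2)).card : ℝ) +
      ((X.filter fun m => ¬ mnQ G m ((s : ℤ) ^ 2)).card : ℝ) := by
    rw [← Nat.cast_add, Finset.card_filter_add_card_filter_not]
  have hA := hone s hs (by omega) le_rfl (X.filter fun m => mnQ G m ((s : ℤ) ^ 2))
    (fun m hm => Finset.mem_filter.1 hm)
  have hB : ((X.filter fun m => ¬ mnQ G m ((s : ℤ) ^ 2)).card : ℝ) ≤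
      C1 * (c1 * K) ^ 3 * (4 * C0) * (Y ^ c * R) := by
    rcases (X.filter fun m => ¬ mnQ G m ((s : ℤ) ^ 2)).eq_empty_or_nonempty with he | ⟨m1, hm1⟩
    · rw [he]
      simp only [Finset.card_empty, Nat.cast_zero]
      have : 0 < C1 := by linarith
      positivity
    · have hev2 : ∀ m ∈ X.filter (fun m => ¬ mnQ G m ((s : ℤ) ^ 2)),
          ∃ s' : ℕ, 2 * s' = s ∧ mnQ G m ((s' : ℤ) ^ 2) := by
        intro m hm
        obtain ⟨hmX, hmn⟩ := Finset.mem_filter.1 hm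
        obtain ⟨s', h1, h2, h3, h4⟩ := PP5N.sl_half (G := G) m
        rw [(hX m hmX).2.1] at h2 h3
        rcases La_half hs h2 h3 with h | h
        · subst h
          exact absurd h4 hmn
        · exact ⟨s', h, h4⟩
      obtain ⟨s1, hs1, _⟩ := hev2 m1 hm1
      refine hone s1 (by omega) (by omega) (by omega) _ fun m hm => ⟨(Finset.mem_filter.1 hm).1, ?_⟩
      obtain ⟨s2, hs2, h⟩ := hev2 m hm
      have : s2 = s1 := by omega
      rwa [this] at h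
  have hle : 2 * (C1 * (c1 * K) ^ 3 * (4 * C0)) ≤ max 1 (2 * (C1 * (c1 * K) ^ 3 * (4 * C0))) :=
    le_max_right _ _
  calc (X.card : ℝ) ≤ 2 * (C1 * (c1 * K) ^ 3 * (4 * C0)) * (Y ^ c * R) := by
        rw [hsplit]; linarith
    _ ≤ max 1 (2 * (C1 * (c1 * K) ^ 3 * (4 * C0))) * (Y ^ c * R) :=
        mul_le_mul_of_nonneg_right hle (by positivity)
    _ = _ := by ring

end Pool.Agent.PP5Q
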