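import Pool.Agent.PP5Q.Ms

set_option autoImplicit false

namespace Pool.Agent.PP5Q

open Matrix Finset Pool.Agent.PP5B Pool.Agent.PP5P Pool.Agent.PP5

private lemma Lr_half {s s' : ℕ} (h0 : 0 < s) (h1 : s ≤ 2 * s') (h2 : s' ∣ s) : s' = s ∨ 2 * s' = s := by
  obtain ⟨k, hk⟩ := h2
  have hs' : 0 < s' := by
    rcases Nat.eq_zero_or_pos s' with h | h
    · omega
    · exact h
  have hk2 : k ≤ 2 := by
    by_contra h
    push Not at h
    have : s' * 3 ≤ s' * k := Nat.mul_le_mul_left _ h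
    omega
  have hk0 : k ≠ 0 := by
    rintro rfl
    omega
  have : k = 1 ∨ k = 2 := by omega
  rcases this with rfl | rfl
  · left; omega
  · right; omega

/-- THE RESIDUE BOUND FOR A CLASS (size 2).  The same with `res` (PP5N/Res): `s' ≤ s`, `1 + 2 u l / s' ≤ 1 + 4 u l / s`. -/
theorem resS (c : ℝ) (hc : 0 < c) (C0 : ℝ) (hC0 : 1 ≤ C0) : ∃ C : ℝ, 1 ≤ C ∧
    ∀ (G : Matrix (Fin 4) (Fin 4) ℤ) (l : Fin 4 → ℝ) (T Y u : ℝ), GH C0 T G l →
    1 ≤ Y → (∀ i, l i ≤ Y) → 1 / Y ≤ T → 0 < u → ∀ s : ℕ, 0 < s →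
    ∀ X : Finset (Fin 4 → ℤ), (∀ m ∈ X, Pr4 m ∧ sl G m = s ∧ ∀ i, |(m i : ℝ)| ≤ u * l i) →
    (X.card : ℝ) ≤ C * Y ^ c * (s : ℝ) ^ (11 / 4 : ℝ) * (PP5N.mi2 G : ℝ) ^ 5 *
      ∏ i, (1 + 4 * u * l i / s) := by
  classical
  obtain ⟨W, hW⟩ : ∃ W : ℝ, W = 2 ^ 144 := ⟨_, rfl⟩
  have hW0 : 0 ≤ W := by rw [hW]; positivity
  obtain ⟨c1, hc1, hdiv⟩ := FTA.divisor_bound (ε := c / 72) (by positivity)
  set K : ℝ := (48 * C0 ^ 4) ^ (c / 72) with hK
  have hKp : 0 < K := by positivity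
  refine ⟨max 1 (2 * (W * (c1 * K) ^ 6)), le_max_left _ _, ?_⟩
  intro G l T Y u hG hY hlY hTY hu s hs X hX
  have hYp : 0 < Y := by linarith
  have hT : 0 < T := hG.T0
  have hΛ : 0 < ∏ i, l i := Finset.prod_pos fun i _ => hG.lp i
  have hsp : (0 : ℝ) < s := by exact_mod_cast hs
  have hl0 := hG.lp 0
  have hl2 := hG.lp 2
  have hl3 := hG.lp 3
  obtain ⟨R, hR⟩ : ∃ R, R = (s : ℝ) ^ (11 / 4 : ℝ) * (PP5N.mi2 G : ℝ) ^ 5 *
      ∏ i, (1 + 4 * u * l i / s) := ⟨_, rfl⟩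
  have hprp : 0 ≤ ∏ i, (1 + 4 * u * l i / (s : ℝ)) := Finset.prod_nonneg fun i _ => by
    have := (hG.lp i).le
    positivity
  have hRp : 0 ≤ R := by
    rw [hR]
    positivity
  suffices hsuff : (X.card : ℝ) ≤ max 1 (2 * (W * (c1 * K) ^ 6)) * (Y ^ c * R) by
    refine hsuff.trans (le_of_eq ?_)
    rw [hR]
    ring
  have hYc : 0 < Y ^ c := Real.rpow_pos_of_pos hYp _
  rcases X.eq_empty_or_nonempty with hXe | ⟨m0, hm0⟩
  · rw [hXe]
    simp only [Finset.card_empty, Nat.cast_zero]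
    positivity
  -- the size of `s`
  have hdet : |(G.det : ℝ)| ≤ 24 * C0 ^ 4 * Y ^ 12 := by
    refine (det_le (by linarith) hG).trans ?_
    have hp : ∏ i, l i ≤ Y ^ 4 := by
      calc ∏ i, l i ≤ ∏ _i : Fin 4, Y := Finset.prod_le_prod (fun i _ => (hG.lp i).le) fun i _ => hlY i
        _ = Y ^ 4 := by simp
    have hTi : 1 / T ≤ Y := by
      rw [div_le_iff₀ hT]
      have := mul_le_mul_of_nonneg_left hTY hYp.le
      rw [mul_one_div_cancel hYp.ne'] at this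
      exact this
    have h1 : 24 * C0 ^ 4 * (∏ i, l i) ^ 2 / T ^ 4 = 24 * C0 ^ 4 * (∏ i, l i) ^ 2 * (1 / T) ^ 4 := by
      rw [one_div, inv_pow]; rfl
    rw [h1]
    calc 24 * C0 ^ 4 * (∏ i, l i) ^ 2 * (1 / T) ^ 4 ≤ 24 * C0 ^ 4 * (Y ^ 4) ^ 2 * Y ^ 4 := by
          gcongr
      _ = 24 * C0 ^ 4 * Y ^ 12 := by ring
  have hsD : (s : ℝ) ≤ 48 * C0 ^ 4 * Y ^ 12 := by
    have h1 := sl_det hG.sym hG.ev (hX m0 hm0).1
    rw [(hX m0 hm0).2.1] at h1
    have h2 : (s : ℤ) ^ 2 ≤ |2 * G.det| := by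
      refine Int.le_of_dvd (abs_pos.2 (mul_ne_zero two_ne_zero hG.dn)) ((dvd_abs _ _).2 h1)
    have h3 : (s : ℝ) ^ 2 ≤ 2 * |(G.det : ℝ)| := by
      have : ((s : ℤ) ^ 2 : ℝ) ≤ ((|2 * G.det| : ℤ) : ℝ) := by exact_mod_cast h2
      rw [Int.cast_abs, Int.cast_mul, abs_mul] at this
      simpa using this
    have h4 : (1 : ℝ) ≤ s := by exact_mod_cast hs
    nlinarith
  -- one value of `s'`
  have hone : ∀ s' : ℕ, 0 < s' → s ≤ 2 * s' → s' ≤ s → ∀ Z : Finset (Fin 4 → ℤ),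
      (∀ m ∈ Z, m ∈ X ∧ mnQ G m ((s' : ℤ) ^ 2)) →
      (Z.card : ℝ) ≤ W * (c1 * K) ^ 6 * (Y ^ c * R) := by
    intro s' hs' h1 h2 Z hZ
    have h3 := PP5N.res hG.lp hu hG.sym hG.ev hG.dn hs' Z
      (fun m hm => ⟨(hX m (hZ m hm).1).1, (hZ m hm).2, (hX m (hZ m hm).1).2.2⟩)
    rw [← hW] at h3
    have hs'p : (0 : ℝ) < s' := by exact_mod_cast hs'
    have hd : ((s'.divisors.card : ℝ)) ^ 6 ≤ (c1 * K) ^ 6 * Y ^ c := by
      have h4 : (s'.divisors.card : ℝ) ≤ c1 * K * Y ^ (c / 6) := by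
        calc (s'.divisors.card : ℝ) ≤ c1 * (s' : ℝ) ^ (c / 72) := hdiv s' hs'.ne'
          _ ≤ c1 * (48 * C0 ^ 4 * Y ^ 12) ^ (c / 72) := by
              have h5 : (s' : ℝ) ≤ 48 * C0 ^ 4 * Y ^ 12 := le_trans (by exact_mod_cast h2) hsD
              have h6 := Real.rpow_le_rpow hs'p.le h5 (show 0 ≤ c / 72 by positivity)
              exact mul_le_mul_of_nonneg_left h6 hc1.le
          _ = c1 * K * Y ^ (c / 6) := by
              rw [Real.mul_rpow (by positivity) (by positivity), hK, ← Real.rpow_natCast Y 12,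
                ← Real.rpow_mul hYp.le, mul_assoc]
              congr 3
              push_cast
              ring
      calc ((s'.divisors.card : ℝ)) ^ 6 ≤ (c1 * K * Y ^ (c / 6)) ^ 6 :=
            pow_le_pow_left₀ (by positivity) h4 6
        _ = (c1 * K) ^ 6 * Y ^ c := by
            rw [mul_pow, ← Real.rpow_natCast (Y ^ (c / 6)) 6, ← Real.rpow_mul hYp.le]
            congr 2
            push_cast
            ring
    have hs11 : (s' : ℝ) ^ ((11 : ℝ) / 4) ≤ (s : ℝ) ^ (11 / 4 : ℝ) :=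
      Real.rpow_le_rpow hs'p.le (by exact_mod_cast h2) (by norm_num)
    have hpr : ∏ i, (1 + 2 * u * l i / (s' : ℝ)) ≤ ∏ i, (1 + 4 * u * l i / (s : ℝ)) := by
      refine Finset.prod_le_prod (fun i _ => ?_) fun i _ => ?_
      · have := (hG.lp i).le
        positivity
      · have h5 : (s : ℝ) ≤ 2 * s' := by exact_mod_cast h1
        have h6 := (hG.lp i).le
        have h7 : 2 * u * l i / (s' : ℝ) ≤ 4 * u * l i / (s : ℝ) := by
          rw [div_le_div_iff₀ hs'p hsp]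
          have : 0 ≤ u * l i := by positivity
          nlinarith
        linarith
    have hpr0 : 0 ≤ ∏ i, (1 + 2 * u * l i / (s' : ℝ)) := Finset.prod_nonneg fun i _ => by
      have := (hG.lp i).le
      positivity
    calc (Z.card : ℝ) ≤ _ := h3
      _ ≤ W * ((c1 * K) ^ 6 * Y ^ c) * (s : ℝ) ^ (11 / 4 : ℝ) * (PP5N.mi2 G : ℝ) ^ 5 *
          ∏ i, (1 + 4 * u * l i / (s : ℝ)) := by
          refine mul_le_mul ?_ hpr hpr0 (by positivity)
          refine mul_le_mul_of_nonneg_right ?_ (by positivity)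
          refine mul_le_mul ?_ hs11 (by positivity) (by positivity)
          exact mul_le_mul_of_nonneg_left hd hW0
      _ = W * (c1 * K) ^ 6 * (Y ^ c * R) := by rw [hR]; ring
  -- splitting
  have hsplit : (X.card : ℝ) = ((X.filter fun m => mnQ G m ((s : ℤ) ^ 2)).card : ℝ) +
      ((X.filter fun m => ¬ mnQ G m ((s : ℤ) ^ 2)).card : ℝ) := by
    rw [← Nat.cast_add, Finset.card_filter_add_card_filter_not]
  have hA := hone s hs (by omega) le_rfl (X.filter fun m => mnQ G m ((s : ℤ) ^ 2))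
    (fun m hm => Finset.mem_filter.1 hm)
  have hB : ((X.filter fun m => ¬ mnQ G m ((s : ℤ) ^ 2)).card : ℝ) ≤
      W * (c1 * K) ^ 6 * (Y ^ c * R) := by
    rcases (X.filter fun m => ¬ mnQ G m ((s : ℤ) ^ 2)).eq_empty_or_nonempty with he | ⟨m1, hm1⟩
    · rw [he]
      simp only [Finset.card_empty, Nat.cast_zero]
      positivity
    · have hev2 : ∀ m ∈ X.filter (fun m => ¬ mnQ G m ((s : ℤ) ^ 2)),
          ∃ s' : ℕ, 2 * s' = s ∧ mnQ G m ((s' : ℤ) ^ 2) := by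
        intro m hm
        obtain ⟨hmX, hmn⟩ := Finset.mem_filter.1 hm
        obtain ⟨s', h1, h2, h3, h4⟩ := PP5N.sl_half (G := G) m
        rw [(hX m hmX).2.1] at h2 h3
        rcases Lr_half hs h2 h3 with h | h
        · subst h
          exact absurd h4 hmn
        · exact ⟨s', h, h4⟩
      obtain ⟨s1, hs1, _⟩ := hev2 m1 hm1
      refine hone s1 (by omega) (by omega) (by omega) _ fun m hm => ⟨(Finset.mem_filter.1 hm).1, ?_⟩
      obtain ⟨s2, hs2, h⟩ := hev2 m hm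
      have : s2 = s1 := by omega
      rwa [this] at h
  have hle : 2 * (W * (c1 * K) ^ 6) ≤ max 1 (2 * (W * (c1 * K) ^ 6)) :=
    le_max_right _ _
  calc (X.card : ℝ) ≤ 2 * (W * (c1 * K) ^ 6) * (Y ^ c * R) := by
        rw [hsplit]; linarith
    _ ≤ max 1 (2 * (W * (c1 * K) ^ 6)) * (Y ^ c * R) :=
        mul_le_mul_of_nonneg_right hle (by positivity)
    _ = _ := by ring

end Pool.Agent.PP5Q
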