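import Pool.Agent.PP5Q.Ms

set_option autoImplicit false

namespace Pool.Agent.PP5Q

open Matrix Finset Pool.Agent.PP5B Pool.Agent.PP5P Pool.Agent.PP5

/-- size 2.  By `sl_half` and `mnQ_D2`: `s' ^ 3 ∣ D2 G m`, `sl G m ≤ 2 s'`; and `D2_le` (PP5N/SnD).  (`nw l m ≤ u`.) -/
theorem sl3 {C0 T : ℝ} (hC0 : 0 < C0) {G : Matrix (Fin 4) (Fin 4) ℤ} {l : Fin 4 → ℝ}
    (h : GH C0 T G l) {m : Fin 4 → ℤ} (hm : Pr4 m) (hD : D2 G m ≠ 0) {u : ℝ} (hu : 0 ≤ u)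
    (hmu : ∀ i, |(m i : ℝ)| ≤ u * l i) :
    (sl G m : ℝ) ^ 3 ≤ 768 * (C0 / T) ^ 3 * (∏ i, l i) ^ 2 * u ^ 2 := by
  obtain ⟨s, _, hs2, _, hsm⟩ := PP5N.sl_half (G := G) m
  have h1 : (s : ℤ) ^ 3 ∣ D2 G m := PP5N.mnQ_D2 h.sym h.ev hm hsm
  have h2 : (s : ℤ) ^ 3 ≤ |D2 G m| := by
    have := Int.le_of_dvd (abs_pos.mpr hD) ((dvd_abs _ _).mpr h1)
    exact this
  have h3 : (s : ℝ) ^ 3 ≤ |(D2 G m : ℝ)| := by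
    have : ((s : ℤ) ^ 3 : ℤ) ≤ (|D2 G m| : ℤ) := h2
    exact_mod_cast this
  have h4 := PP5N.D2_le h.lp h.T0 hC0 hu h.gram hmu
  have h5 : (sl G m : ℝ) ≤ 2 * (s : ℝ) := by exact_mod_cast hs2
  have h6 : (sl G m : ℝ) ^ 3 ≤ (2 * (s : ℝ)) ^ 3 :=
    pow_le_pow_left₀ (Nat.cast_nonneg _) h5 3
  have h7 : (2 * (s : ℝ)) ^ 3 = 8 * (s : ℝ) ^ 3 := by ring
  rw [h7] at h6
  calc (sl G m : ℝ) ^ 3 ≤ 8 * (s : ℝ) ^ 3 := h6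
    _ ≤ 8 * (96 * (C0 / T) ^ 3 * (∏ i, l i) ^ 2 * u ^ 2) :=
        mul_le_mul_of_nonneg_left (h3.trans h4) (by norm_num)
    _ = 768 * (C0 / T) ^ 3 * (∏ i, l i) ^ 2 * u ^ 2 := by ring

end Pool.Agent.PP5Q
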