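import Pool.Agent.PP5Q.La
import Pool.Agent.PP5Q.Lr
import Pool.Agent.PP5Q.Ls
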