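import Pool.Agent.PP5Q.Nb

set_option autoImplicit false

namespace Pool.Agent.PP5Q

open Matrix Finset Pool.Agent.PP5B Pool.Agent.PP5P Pool.Agent.PP5

private theorem Nx_mi2 {G : Matrix (Fin 4) (Fin 4) ℤ} {i j k k' : Fin 4} (h : mr G i j k k' ≠ 0)
    (n : ℕ) (hn : ∀ i j k k', (n : ℤ) ∣ mr G i j k k') : (n : ℝ) ≤ (PP5N.mi2 G : ℝ) := by
  have h0 : PP5N.mi2 G ≠ 0 := by
    intro h0
    unfold PP5N.mi2 at h0
    rw [Finset.gcd_eq_zero_iff] at h0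
    have h1 := h0 ((i, j), (k, k')) (Finset.mem_univ _)
    apply h
    rw [Int.natAbs_eq_zero] at h1
    exact h1
  have h1 : n ∣ PP5N.mi2 G := by
    unfold PP5N.mi2
    refine Finset.dvd_gcd (fun q _ => ?_)
    have h2 := hn q.1.1 q.1.2 q.2.1 q.2.2
    exact Int.natCast_dvd.mp h2
  exact_mod_cast Nat.le_of_dvd (Nat.pos_of_ne_zero h0) h1

/-- the finite set of the primitive `m` with `|m i| ≤ r i` -/
private theorem Nx_box (r : Fin 4 → ℝ) (hr : ∀ i, 0 ≤ r i) : ∃ M : Finset (Fin 4 → ℤ),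
    (∀ m, m ∈ M ↔ Pr4 m ∧ ∀ i, |(m i : ℝ)| ≤ r i) ∧ (M.card : ℝ) ≤ ∏ i, (1 + 2 * r i) := by
  classical
  refine ⟨(Fintype.piFinset (fun i => Finset.Icc (-⌊r i⌋) ⌊r i⌋)).filter (fun m => Pr4 m), ?_, ?_⟩
  · intro m
    rw [Finset.mem_filter, Fintype.mem_piFinset]
    constructor
    · rintro ⟨h1, h2⟩
      refine ⟨h2, fun i => ?_⟩
      have h3 := Finset.mem_Icc.mp (h1 i)
      rw [abs_le]
      constructor
      · have h4 : -(⌊r i⌋ : ℝ) ≤ (m i : ℝ) := by exact_mod_cast h3.1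
        have h5 := Int.floor_le (r i)
        linarith
      · have h4 : (m i : ℝ) ≤ (⌊r i⌋ : ℝ) := by exact_mod_cast h3.2
        have h5 := Int.floor_le (r i)
        linarith
    · rintro ⟨h1, h2⟩
      refine ⟨fun i => ?_, h1⟩
      have h3 := abs_le.mp (h2 i)
      rw [Finset.mem_Icc]
      constructor
      · have h4 : -(m i) ≤ ⌊r i⌋ := by
          rw [Int.le_floor]
          push_cast
          linarith [h3.1]
        linarith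
      · rw [Int.le_floor]
        exact h3.2
  · refine le_trans (b := ((Fintype.piFinset (fun i => Finset.Icc (-⌊r i⌋) ⌊r i⌋)).card : ℝ)) ?_ ?_
    · exact_mod_cast Finset.card_filter_le _ _
    · rw [Fintype.card_piFinset]
      push_cast
      refine Finset.prod_le_prod (fun i _ => Nat.cast_nonneg _) (fun i _ => ?_)
      have h0 : 0 ≤ ⌊r i⌋ := Int.floor_nonneg.mpr (hr i)
      rw [Int.card_Icc]
      have h1 : (⌊r i⌋ + 1 - -⌊r i⌋).toNat = (2 * ⌊r i⌋ + 1).toNat := by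
        congr 1
        ring
      rw [h1]
      have h2 : (((2 * ⌊r i⌋ + 1).toNat : ℕ) : ℝ) = 2 * (⌊r i⌋ : ℝ) + 1 := by
        have h3 : (((2 * ⌊r i⌋ + 1).toNat : ℕ) : ℤ) = 2 * ⌊r i⌋ + 1 := Int.toNat_of_nonneg (by linarith)
        exact_mod_cast h3
      rw [h2]
      have h5 := Int.floor_le (r i)
      linarith

/-- THEOREM nx1 (size 4).  `Λ = ∏ l`, `A = mi2 G`.  Proof: `fst` with `H`, `U`: either three independent `m` of size `U` (count by `pop`, with `Y`), or a primitive `m` with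
`m . v = 0`, `|m i| ≤ C1 √(H / (Λ U)) l i`.  Let `u = C1 √(H / (Λ U))` and `M` the finite set of the primitive `m` with `|m i| ≤ u l i` (a subset of a product of `Finset.Icc`; `M.card ≤ ∏ (1 + 2 u l i) ≤ (2 C1) ^ 4 ∏ (1 + √(H / (Λ U)) l i)`).
`u ≤ C1 Y ^ 3` as `H ≤ Y`, `Λ ≥ Y ^ (-4)`, `U ≥ 1 / Y`.  `msum` with `Y1 = C1 Y ^ 3`, `Bd` from `nxb` (`Bd` in terms of `u`, constants `C1 ^ 3`).
`H / (T √|det|)` is the factor of the sum. -/
theorem nx1 (c : ℝ) (hc : 0 < c) (C0 : ℝ) (hC0 : 1 ≤ C0) : ∃ C : ℝ, 1 ≤ C ∧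
    ∀ (G : Matrix (Fin 4) (Fin 4) ℤ) (l : Fin 4 → ℝ) (T Y H U p : ℝ), GH C0 T G l →
    ¬ IsSquare G.det → 1 ≤ Y → (∀ i, l i ≤ Y) → (∀ i, 1 / Y ≤ l i) → 1 / Y ≤ T → 0 < H → H ≤ Y →
    1 / Y ≤ U → U ≤ Y → 0 < p →
    (∃ i j k k', p ≤ |((mr G i j k k' : ℤ) : ℝ)| * T ^ 2 / (l i * l j * l k * l k')) →
    ∀ V : Finset (Fin 4 → ℤ), (∀ v ∈ V, Pr4 v ∧ v ⬝ᵥ (G *ᵥ v) = 0 ∧ ∀ i, |(v i : ℝ)| * l i ≤ H) →
    (V.card : ℝ) ≤ C * Y ^ c * (1 + H * U + H ^ 2 * T * √((PP5N.mi2 G : ℝ) / p) / (∏ i, l i) +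
      ∏ i, (1 + √(H / ((∏ i, l i) * U)) * l i) +
      H / (T * √|(G.det : ℝ)|) *
        ((√(H / ((∏ i, l i) * U))) ^ 3 * (∏ i, l i) * √(PP5N.mi2 G : ℝ) +
        (√(H / ((∏ i, l i) * U))) ^ 2 * (∏ i, l i) * √(l 3 * PP5N.mi2 G / (l 0 * T)) +
        ((∏ i, l i) ^ 2 / T ^ 3) ^ (1 / 3 : ℝ) * l 3 ^ (1 / 3 : ℝ) +
        √(H / ((∏ i, l i) * U)) * l 2 * l 3 * ((PP5N.mi2 G : ℝ) * |(G.det : ℝ)|) ^ (1 / 4 : ℝ))) := by
  classical
  obtain ⟨C1, hC1, hfst⟩ := fst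
  obtain ⟨Cp, hCp1, hCp⟩ := pop c hc C0 hC0
  obtain ⟨Cb, hCb1, hCb⟩ := nxb (c / 2) (by positivity) C0 hC0
  obtain ⟨Cm, hCm1, hCm⟩ := msum (c / 6) (by positivity) C0 hC0
  have hC10 : 0 < C1 := by linarith
  have hK1 : 0 ≤ Cm * C1 ^ (c / 6) * (16 * C1 ^ 4 + Cb * C1 ^ 3) := by positivity
  refine ⟨Cp + Cm * C1 ^ (c / 6) * (16 * C1 ^ 4 + Cb * C1 ^ 3), by linarith, ?_⟩
  intro G l T Y H U p hG hsq hY hlY hlo hT hH hHY hUlo hUY hp hmr V hV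
  have hY0 : 0 < Y := by linarith
  have hU0 : 0 < U := lt_of_lt_of_le (by positivity) hUlo
  have hT0 : 0 < T := hG.T0
  have hlp := hG.lp
  have hdR : (G.det : ℝ) ≠ 0 := by exact_mod_cast hG.dn
  have hL : 0 < ∏ i, l i := Finset.prod_pos fun i _ => hlp i
  set Λ : ℝ := ∏ i, l i with hΛ
  set A : ℝ := (PP5N.mi2 G : ℝ) with hA
  have hA0 : 0 ≤ A := Nat.cast_nonneg _
  set w : ℝ := √(H / (Λ * U)) with hw
  have hw0 : 0 < w := Real.sqrt_pos.mpr (by positivity)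
  set E1 : ℝ := 1 + H * U + H ^ 2 * T * √(A / p) / Λ with hE1
  have hE10 : 0 ≤ E1 := by positivity
  set P : ℝ := ∏ i, (1 + w * l i) with hP
  have hP0 : 0 ≤ P := Finset.prod_nonneg (fun i _ => by have := hlp i; positivity)
  set F : ℝ := H / (T * √|(G.det : ℝ)|) with hF
  have hF0 : 0 ≤ F := by positivity
  have hl0 := hlp 0
  have hl2 := hlp 2
  have hl3 := hlp 3
  set B : ℝ := w ^ 3 * Λ * √A + w ^ 2 * Λ * √(l 3 * A / (l 0 * T)) +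
    (Λ ^ 2 / T ^ 3) ^ (1 / 3 : ℝ) * l 3 ^ (1 / 3 : ℝ) +
    w * l 2 * l 3 * (A * |(G.det : ℝ)|) ^ (1 / 4 : ℝ) with hB
  have hB0 : 0 ≤ B := by positivity
  have hYc : (1 : ℝ) ≤ Y ^ c := Real.one_le_rpow hY hc.le
  have hYc2 : (1 : ℝ) ≤ Y ^ (c / 2) := Real.one_le_rpow hY (by positivity)
  have hYcc : Y ^ (c / 2) * Y ^ (c / 2) = Y ^ c := by
    rw [← Real.rpow_add hY0]
    congr 1
    ring
  -- first part
  set V1 := V.filter (fun v => ∃ m : Fin 3 → Fin 4 → ℤ, LinearIndependent ℤ m ∧ (∀ a, m a ⬝ᵥ v = 0) ∧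
        ∀ a i, |(m a i : ℝ)| ≤ U * l i) with hV1
  set V2 := V.filter (fun v => ¬ ∃ m : Fin 3 → Fin 4 → ℤ, LinearIndependent ℤ m ∧ (∀ a, m a ⬝ᵥ v = 0) ∧
        ∀ a i, |(m a i : ℝ)| ≤ U * l i) with hV2
  have hsplit : V.card = V1.card + V2.card :=
    (Finset.card_filter_add_card_filter_not (s := V) _).symm
  have h1 : (V1.card : ℝ) ≤ Cp * Y ^ c * E1 := by
    refine hCp G hG.sym hG.ev hG.dn l T Y H U A p hY hlp hlY hT hH.le hU0 hUY hG.gram ?_ hp hmr V1 ?_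
    · intro n hn
      obtain ⟨i, j, k, k', hm⟩ := hmr
      refine Nx_mi2 (i := i) (j := j) (k := k) (k' := k') ?_ n hn
      intro h0
      rw [h0] at hm
      simp at hm
      linarith
    · intro v hv
      obtain ⟨hv1, hv2⟩ := Finset.mem_filter.mp hv
      exact ⟨(hV v hv1).1, (hV v hv1).2.1, (hV v hv1).2.2, hv2⟩
  -- second part
  set u : ℝ := C1 * w with hu
  have hu0 : 0 < u := by positivity
  have hLlo : 1 / Y ^ 4 ≤ Λ := by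
    have h2 : ∏ _i : Fin 4, (1 / Y) ≤ Λ :=
      Finset.prod_le_prod (fun i _ => by positivity) (fun i _ => hlo i)
    rw [Finset.prod_const, Finset.card_univ, Fintype.card_fin, _root_.one_div_pow] at h2
    exact h2
  have hw3 : w ≤ Y ^ 3 := by
    rw [hw, Real.sqrt_le_left (by positivity), div_le_iff₀ (by positivity)]
    have h2 : 1 / Y ^ 5 ≤ Λ * U := by
      calc 1 / Y ^ 5 = 1 / Y ^ 4 * (1 / Y) := by
            field_simp
        _ ≤ Λ * U := mul_le_mul hLlo hUlo (by positivity) hL.le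
    calc H ≤ Y := hHY
      _ = (Y ^ 3) ^ 2 * (1 / Y ^ 5) := by field_simp
      _ ≤ (Y ^ 3) ^ 2 * (Λ * U) := mul_le_mul_of_nonneg_left h2 (by positivity)
  obtain ⟨M, hM, hMc⟩ := Nx_box (fun i => u * l i) (fun i => by have := hlp i; positivity)
  have hMc2 : (M.card : ℝ) ≤ 16 * C1 ^ 4 * P := by
    refine hMc.trans ?_
    have h2 : ∏ i, (1 + 2 * (u * l i)) ≤ ∏ i, (2 * C1 * (1 + w * l i)) := by
      refine Finset.prod_le_prod (fun i _ => by have := hlp i; positivity) (fun i _ => ?_)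
      have h3 : 2 * C1 * (1 + w * l i) = 2 * C1 + 2 * (u * l i) := by rw [hu]; ring
      rw [h3]
      linarith
    refine h2.trans (le_of_eq ?_)
    rw [Finset.prod_mul_distrib, Finset.prod_const, Finset.card_univ, Fintype.card_fin, hP]
    ring
  have hY1 : Y ≤ C1 * Y ^ 3 := by
    have h2 : Y ≤ Y ^ 3 := by
      calc Y = Y ^ 1 := (pow_one Y).symm
        _ ≤ Y ^ 3 := pow_le_pow_right₀ hY (by norm_num)
    have h3 : 0 ≤ Y ^ 3 := by positivity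
    exact h2.trans (le_mul_of_one_le_left h3 hC1)
  have hBd0 : 0 ≤ Cb * Y ^ (c / 2) * (C1 ^ 3 * B) := by positivity
  have h2 : (V2.card : ℝ) ≤ Cm * (C1 * Y ^ 3) ^ (c / 6) * (M.card + F * (Cb * Y ^ (c / 2) * (C1 ^ 3 * B))) := by
    refine hCm G l T (C1 * Y ^ 3) H u hG hsq (hY.trans hY1) (fun i => (hlY i).trans hY1)
      (le_trans (one_div_le_one_div_of_le hY0 hY1) hT) hH hu0
      (mul_le_mul_of_nonneg_left hw3 hC10.le) M (fun m hm => (hM m).mp hm) _ hBd0 ?_ V2 ?_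
    · intro s u' X hXM hXn hs hu' huu hX
      have h3 := hCb G l T Y u hG hY hlY hT hu0 s u' hs hu' huu X hXn
        (fun m hm => ⟨((hM m).mp (hXM hm)).1, (hX m hm).1, (hX m hm).2.1, (hX m hm).2.2.1⟩)
      refine h3.trans (mul_le_mul_of_nonneg_left ?_ (by positivity))
      have e1 : 1 ≤ C1 ^ 2 := one_le_pow₀ hC1
      have e2 : C1 ^ 2 ≤ C1 ^ 3 := pow_le_pow_right₀ hC1 (by norm_num)
      have e3 : C1 ≤ C1 ^ 3 := by
        calc C1 = C1 ^ 1 := (pow_one C1).symm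
          _ ≤ C1 ^ 3 := pow_le_pow_right₀ hC1 (by norm_num)
      have e4 : 1 ≤ C1 ^ 3 := one_le_pow₀ hC1
      have t1 : u ^ 3 * Λ * √A = C1 ^ 3 * (w ^ 3 * Λ * √A) := by rw [hu]; ring
      have t2 : u ^ 2 * Λ * √(l 3 * A / (l 0 * T)) ≤ C1 ^ 3 * (w ^ 2 * Λ * √(l 3 * A / (l 0 * T))) := by
        have : u ^ 2 * Λ * √(l 3 * A / (l 0 * T)) = C1 ^ 2 * (w ^ 2 * Λ * √(l 3 * A / (l 0 * T))) := by
          rw [hu]; ring
        rw [this]
        exact mul_le_mul_of_nonneg_right e2 (by positivity)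
      have t3 : (Λ ^ 2 / T ^ 3) ^ (1 / 3 : ℝ) * l 3 ^ (1 / 3 : ℝ)
          ≤ C1 ^ 3 * ((Λ ^ 2 / T ^ 3) ^ (1 / 3 : ℝ) * l 3 ^ (1 / 3 : ℝ)) :=
        le_mul_of_one_le_left (by positivity) e4
      have t4 : u * l 2 * l 3 * (A * |(G.det : ℝ)|) ^ (1 / 4 : ℝ)
          ≤ C1 ^ 3 * (w * l 2 * l 3 * (A * |(G.det : ℝ)|) ^ (1 / 4 : ℝ)) := by
        have : u * l 2 * l 3 * (A * |(G.det : ℝ)|) ^ (1 / 4 : ℝ)
            = C1 * (w * l 2 * l 3 * (A * |(G.det : ℝ)|) ^ (1 / 4 : ℝ)) := by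
          rw [hu]; ring
        rw [this]
        exact mul_le_mul_of_nonneg_right e3 (by positivity)
      rw [t1, hB]
      linarith
    · intro v hv
      obtain ⟨hv1, hv2⟩ := Finset.mem_filter.mp hv
      obtain ⟨hv3, hv4, hv5⟩ := hV v hv1
      refine ⟨hv3, hv4, hv5, ?_⟩
      rcases hfst l hlp H U hU0 v hv3 hv5 with h3 | ⟨m, hm1, hm2, hm3⟩
      · exact absurd h3 hv2
      · exact ⟨m, (hM m).mpr ⟨hm1, hm3⟩, hm2⟩
  have hYY : (C1 * Y ^ 3) ^ (c / 6) = C1 ^ (c / 6) * Y ^ (c / 2) := by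
    rw [Real.mul_rpow hC10.le (by positivity)]
    congr 1
    rw [← Real.rpow_natCast, ← Real.rpow_mul hY0.le]
    congr 1
    push_cast
    ring
  rw [hYY] at h2
  have h3 : (V2.card : ℝ) ≤ Cm * C1 ^ (c / 6) * (16 * C1 ^ 4 + Cb * C1 ^ 3) * Y ^ c * (P + F * B) := by
    refine h2.trans ?_
    have g1 : (M.card : ℝ) ≤ Y ^ (c / 2) * (16 * C1 ^ 4 * P) :=
      hMc2.trans (le_mul_of_one_le_left (by positivity) hYc2)
    have g2 : (M.card : ℝ) + F * (Cb * Y ^ (c / 2) * (C1 ^ 3 * B))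
        ≤ Y ^ (c / 2) * ((16 * C1 ^ 4 + Cb * C1 ^ 3) * (P + F * B)) := by
      have g3 : Y ^ (c / 2) * ((16 * C1 ^ 4 + Cb * C1 ^ 3) * (P + F * B))
          = Y ^ (c / 2) * (16 * C1 ^ 4 * P) + F * (Cb * Y ^ (c / 2) * (C1 ^ 3 * B))
            + Y ^ (c / 2) * (16 * C1 ^ 4 * (F * B) + Cb * C1 ^ 3 * P) := by ring
      have g4 : 0 ≤ Y ^ (c / 2) * (16 * C1 ^ 4 * (F * B) + Cb * C1 ^ 3 * P) := by positivity
      rw [g3]
      linarith
    calc Cm * (C1 ^ (c / 6) * Y ^ (c / 2)) * (M.card + F * (Cb * Y ^ (c / 2) * (C1 ^ 3 * B)))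
        ≤ Cm * (C1 ^ (c / 6) * Y ^ (c / 2))
          * (Y ^ (c / 2) * ((16 * C1 ^ 4 + Cb * C1 ^ 3) * (P + F * B))) :=
          mul_le_mul_of_nonneg_left g2 (by positivity)
      _ = Cm * C1 ^ (c / 6) * (16 * C1 ^ 4 + Cb * C1 ^ 3) * (Y ^ (c / 2) * Y ^ (c / 2)) * (P + F * B) := by
          ring
      _ = _ := by rw [hYcc]
  rw [hsplit]
  push_cast
  set K : ℝ := Cm * C1 ^ (c / 6) * (16 * C1 ^ 4 + Cb * C1 ^ 3) with hK
  have hPB : 0 ≤ P + F * B := by positivity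
  have g5 : (Cp + K) * Y ^ c * (E1 + P + F * B)
      = Cp * Y ^ c * E1 + K * Y ^ c * (P + F * B) + (Cp * Y ^ c * (P + F * B) + K * Y ^ c * E1) := by
    ring
  have g6 : 0 ≤ Cp * Y ^ c * (P + F * B) + K * Y ^ c * E1 := by positivity
  rw [g5]
  linarith

end Pool.Agent.PP5Q
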