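import Pool.Agent.PP5Q.Rl
import Pool.Agent.PP5Q.Vx

set_option autoImplicit false

namespace Pool.Agent.PP5Q

open Matrix Finset Pool.Agent.PP5B Pool.Agent.PP5P Pool.Agent.PP5

private lemma pm_ne {m : Fin 4 → ℤ} (h : Pr4 m) : m ≠ 0 := by
  intro h0
  apply h 2 Nat.prime_two
  intro i
  rw [h0]
  exact dvd_zero _

/-- THE ZEROS ORTHOGONAL TO ONE `m` (size 2).  `D2 G m = 0`: `vx` (and `C Y ^ c ≥ 2`).  `D2 G m ≠ 0`: `zb` with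
`b = |det G| T ^ 2 (nw l m) ^ 2 / (48 C0 ^ 2)` (`real_loss`; `sqrt b = sqrt |det G| T nw l m / (sqrt 48 C0)`). -/
theorem perm (c : ℝ) (hc : 0 < c) (C0 : ℝ) (hC0 : 1 ≤ C0) : ∃ C : ℝ, 1 ≤ C ∧
    ∀ (G : Matrix (Fin 4) (Fin 4) ℤ) (l : Fin 4 → ℝ) (T Y H : ℝ), GH C0 T G l → ¬ IsSquare G.det →
    1 ≤ Y → (∀ i, l i ≤ Y) → 1 / Y ≤ T → 0 < H → ∀ m : Fin 4 → ℤ, Pr4 m → (∀ i, |(m i : ℝ)| ≤ Y) →
    ∀ S : Finset (Fin 4 → ℤ), (∀ v ∈ S, Pr4 v ∧ v ⬝ᵥ (G *ᵥ v) = 0 ∧ m ⬝ᵥ v = 0 ∧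
      ∀ i, |(v i : ℝ)| * l i ≤ H) →
    (S.card : ℝ) ≤ C * Y ^ c * (1 + (if D2 G m = 0 then 0 else
      H * (sl G m : ℝ) / (T * √|(G.det : ℝ)| * nw l m))) := by
  obtain ⟨C1, hC1, h1⟩ := zb c hc C0 hC0
  refine ⟨7 * C0 * C1, ?_, ?_⟩
  · nlinarith
  intro G l T Y H hG hsq hY hlY hTY hH m hm hmY S hS
  have hYc : 1 ≤ Y ^ c := Real.one_le_rpow hY hc.le
  have hCC : 7 ≤ 7 * C0 * C1 := by nlinarith
  have hm0 : m ≠ 0 := pm_ne hm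
  by_cases hD : D2 G m = 0
  · rw [if_pos hD, add_zero, mul_one]
    have h2 : S.card ≤ 2 := vx hG.sym hG.dn hsq hm0 hD S
      (fun v hv => ⟨(hS v hv).1, (hS v hv).2.1, (hS v hv).2.2.1⟩)
    have h3 : (S.card : ℝ) ≤ 2 := by exact_mod_cast h2
    nlinarith
  · rw [if_neg hD]
    have hn : 0 < nw l m := nw_pos hG.lp hm0
    have hd : 0 < |(G.det : ℝ)| := abs_pos.mpr (by exact_mod_cast hG.dn)
    have hT := hG.T0
    have hC0p : 0 < C0 := by linarith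
    have hb : 0 < |(G.det : ℝ)| * T ^ 2 * (nw l m) ^ 2 / (48 * C0 ^ 2) := by positivity
    have h2 := h1 G hG.sym hG.ev hG.dn m hm hD l T Y H
      (|(G.det : ℝ)| * T ^ 2 * (nw l m) ^ 2 / (48 * C0 ^ 2)) hY hG.lp hlY hTY hH hb hG.gram hmY
      (real_loss hC0p hG m hm0) S hS
    have hsd : 0 < √|(G.det : ℝ)| := Real.sqrt_pos.mpr hd
    have hP : 0 < T * √|(G.det : ℝ)| * nw l m := by positivity
    have hsb : T * √|(G.det : ℝ)| * nw l m / (7 * C0) ≤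
        √(|(G.det : ℝ)| * T ^ 2 * (nw l m) ^ 2 / (48 * C0 ^ 2)) := by
      apply Real.le_sqrt_of_sq_le
      rw [div_pow, mul_pow, mul_pow, Real.sq_sqrt hd.le]
      rw [div_le_div_iff₀ (by positivity) (by positivity)]
      have h5 : 0 ≤ T ^ 2 * |(G.det : ℝ)| * nw l m ^ 2 * C0 ^ 2 := by positivity
      nlinarith
    have hs0 : 0 ≤ (sl G m : ℝ) := Nat.cast_nonneg _
    have h6 : H * (sl G m : ℝ) / √(|(G.det : ℝ)| * T ^ 2 * (nw l m) ^ 2 / (48 * C0 ^ 2)) ≤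
        7 * C0 * (H * (sl G m : ℝ) / (T * √|(G.det : ℝ)| * nw l m)) := by
      have h7 : H * (sl G m : ℝ) / √(|(G.det : ℝ)| * T ^ 2 * (nw l m) ^ 2 / (48 * C0 ^ 2)) ≤
          H * (sl G m : ℝ) / (T * √|(G.det : ℝ)| * nw l m / (7 * C0)) :=
        div_le_div_of_nonneg_left (by positivity) (by positivity) hsb
      have h8 : H * (sl G m : ℝ) / (T * √|(G.det : ℝ)| * nw l m / (7 * C0)) =
          7 * C0 * (H * (sl G m : ℝ) / (T * √|(G.det : ℝ)| * nw l m)) := by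
        field_simp
      linarith
    have h9 : 0 ≤ H * (sl G m : ℝ) / (T * √|(G.det : ℝ)| * nw l m) := by positivity
    calc (S.card : ℝ) ≤ C1 * Y ^ c * (1 + H * (sl G m : ℝ) /
          √(|(G.det : ℝ)| * T ^ 2 * (nw l m) ^ 2 / (48 * C0 ^ 2))) := h2
      _ ≤ C1 * Y ^ c * (7 * C0 * (1 + H * (sl G m : ℝ) / (T * √|(G.det : ℝ)| * nw l m))) := by
          apply mul_le_mul_of_nonneg_left _ (by positivity)
          nlinarith
      _ = 7 * C0 * C1 * Y ^ c * (1 + H * (sl G m : ℝ) / (T * √|(G.det : ℝ)| * nw l m)) := by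
          ring

end Pool.Agent.PP5Q
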