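import Pool.Agent.PP5Q.Defs

set_option autoImplicit false

namespace Pool.Agent.PP5Q

open Matrix Finset Pool.Agent.PP5B Pool.Agent.PP5P Pool.Agent.PP5

private def Rl_P (G : Matrix (Fin 4) (Fin 4) ℝ) (m : Fin 4 → ℝ) (i j : Fin 4) : ℝ :=
  Ph G m (Pi.single i 1) m (Pi.single j 1)

private def Rl_R (G : Matrix (Fin 4) (Fin 4) ℝ) (m : Fin 4 → ℝ) (k i j : Fin 4) : ℝ :=
  m k ^ 2 * G i j - m k * m i * G k j - m k * m j * G i k + m i * m j * G k k

private def Rl_r (G : Matrix (Fin 4) (Fin 4) ℝ) (m : Fin 4 → ℝ) (k i : Fin 4) : ℝ :=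
  m k * G i k - m i * G k k

private theorem Rl_det (G : Matrix (Fin 4) (Fin 4) ℝ) (hG : ∀ i j, G i j = G j i) :
    G.det = G 0 0 * (G 1 1 * (G 2 2 * G 3 3 - G 2 3 ^ 2) - G 1 2 * (G 1 2 * G 3 3 - G 2 3 * G 1 3)
        + G 1 3 * (G 1 2 * G 2 3 - G 2 2 * G 1 3))
      - G 0 1 * (G 0 1 * (G 2 2 * G 3 3 - G 2 3 ^ 2) - G 1 2 * (G 0 2 * G 3 3 - G 2 3 * G 0 3)
        + G 1 3 * (G 0 2 * G 2 3 - G 2 2 * G 0 3))
      + G 0 2 * (G 0 1 * (G 1 2 * G 3 3 - G 2 3 * G 1 3) - G 1 1 * (G 0 2 * G 3 3 - G 2 3 * G 0 3)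
        + G 1 3 * (G 0 2 * G 1 3 - G 1 2 * G 0 3))
      - G 0 3 * (G 0 1 * (G 1 2 * G 2 3 - G 2 2 * G 1 3) - G 1 1 * (G 0 2 * G 2 3 - G 2 2 * G 0 3)
        + G 1 2 * (G 0 2 * G 1 3 - G 1 2 * G 0 3)) := by
  rw [Matrix.det_succ_row_zero, Fin.sum_univ_four]
  simp only [Matrix.det_fin_three, Matrix.submatrix_apply, Fin.succAbove, Fin.succ]
  simp [Fin.lt_def, -Fin.val_fin_lt]
  simp only [hG 1 0, hG 2 0, hG 3 0, hG 2 1, hG 3 1, hG 3 2]
  ring

private def Rl_q (G : Matrix (Fin 4) (Fin 4) ℝ) (m : Fin 4 → ℝ) : ℝ :=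
  (m 0 * m 0 * (G 1 1 * (G 2 2 * G 3 3 - G 2 3 * G 2 3) - G 1 2 * (G 1 2 * G 3 3 - G 2 3 * G 1 3) + G 1 3 * (G 1 2 * G 2 3 - G 2 2 * G 1 3)))
    + -(2 * m 0 * m 1 * (G 0 1 * (G 2 2 * G 3 3 - G 2 3 * G 2 3) - G 1 2 * (G 0 2 * G 3 3 - G 2 3 * G 0 3) + G 1 3 * (G 0 2 * G 2 3 - G 2 2 * G 0 3)))
    + (2 * m 0 * m 2 * (G 0 1 * (G 1 2 * G 3 3 - G 2 3 * G 1 3) - G 1 1 * (G 0 2 * G 3 3 - G 2 3 * G 0 3) + G 1 3 * (G 0 2 * G 1 3 - G 1 2 * G 0 3)))
    + -(2 * m 0 * m 3 * (G 0 1 * (G 1 2 * G 2 3 - G 2 2 * G 1 3) - G 1 1 * (G 0 2 * G 2 3 - G 2 2 * G 0 3) + G 1 2 * (G 0 2 * G 1 3 - G 1 2 * G 0 3)))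
    + (m 1 * m 1 * (G 0 0 * (G 2 2 * G 3 3 - G 2 3 * G 2 3) - G 0 2 * (G 0 2 * G 3 3 - G 2 3 * G 0 3) + G 0 3 * (G 0 2 * G 2 3 - G 2 2 * G 0 3)))
    + -(2 * m 1 * m 2 * (G 0 0 * (G 1 2 * G 3 3 - G 2 3 * G 1 3) - G 0 1 * (G 0 2 * G 3 3 - G 2 3 * G 0 3) + G 0 3 * (G 0 2 * G 1 3 - G 1 2 * G 0 3)))
    + (2 * m 1 * m 3 * (G 0 0 * (G 1 2 * G 2 3 - G 2 2 * G 1 3) - G 0 1 * (G 0 2 * G 2 3 - G 2 2 * G 0 3) + G 0 2 * (G 0 2 * G 1 3 - G 1 2 * G 0 3)))
    + (m 2 * m 2 * (G 0 0 * (G 1 1 * G 3 3 - G 1 3 * G 1 3) - G 0 1 * (G 0 1 * G 3 3 - G 1 3 * G 0 3) + G 0 3 * (G 0 1 * G 1 3 - G 1 1 * G 0 3)))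
    + -(2 * m 2 * m 3 * (G 0 0 * (G 1 1 * G 2 3 - G 1 2 * G 1 3) - G 0 1 * (G 0 1 * G 2 3 - G 1 2 * G 0 3) + G 0 2 * (G 0 1 * G 1 3 - G 1 1 * G 0 3)))
    + (m 3 * m 3 * (G 0 0 * (G 1 1 * G 2 2 - G 1 2 * G 1 2) - G 0 1 * (G 0 1 * G 2 2 - G 1 2 * G 0 2) + G 0 2 * (G 0 1 * G 1 2 - G 1 1 * G 0 2)))

private theorem Rl_K (G : Matrix (Fin 4) (Fin 4) ℝ) (hG : ∀ i j, G i j = G j i) (m : Fin 4 → ℝ)
    (k : Fin 4) : Ph G m (fun i => G i k) m (fun i => G i k)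
      = Rl_q G m * G k k - m k ^ 2 * G.det := by
  rw [Rl_det G hG]
  fin_cases k <;>
  · simp only [Rl_q, Ph, pv, MM, mr, dotProduct, mulVec, Fin.sum_univ_six, Matrix.of_apply,
      Matrix.cons_val, Matrix.cons_val_zero, Matrix.cons_val_one]
    simp only [Fin.zero_eta, Fin.mk_one, Fin.reduceFinMk, hG 1 0, hG 2 0, hG 3 0, hG 2 1, hG 3 1, hG 3 2]
    ring

private theorem Rl_Q (G : Matrix (Fin 4) (Fin 4) ℝ) (hG : ∀ i j, G i j = G j i) (m : Fin 4 → ℝ) :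
    Ph G m (Pi.single 0 1) m (fun i => G i 0) + Ph G m (Pi.single 1 1) m (fun i => G i 1)
      + Ph G m (Pi.single 2 1) m (fun i => G i 2) + Ph G m (Pi.single 3 1) m (fun i => G i 3)
      = 3 * Rl_q G m := by
  simp only [Rl_q, Ph, pv, MM, mr, dotProduct, mulVec, Fin.sum_univ_six, Matrix.of_apply,
      Matrix.cons_val, Matrix.cons_val_zero, Matrix.cons_val_one]
  simp only [Pi.single_apply, Fin.reduceEq, if_true, if_false, hG 1 0, hG 2 0, hG 3 0, hG 2 1, hG 3 1, hG 3 2]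
  ring

private theorem Rl_vec (w : Fin 4 → ℝ) : w = w 0 • Pi.single 0 1 + w 1 • Pi.single 1 1
    + w 2 • Pi.single 2 1 + w 3 • Pi.single 3 1 := by
  ext i
  fin_cases i <;> simp

private theorem Rl_r4 (G : Matrix (Fin 4) (Fin 4) ℝ) (m v w : Fin 4 → ℝ) :
    Ph G m v m w = w 0 * Ph G m v m (Pi.single 0 1) + w 1 * Ph G m v m (Pi.single 1 1)
      + w 2 * Ph G m v m (Pi.single 2 1) + w 3 * Ph G m v m (Pi.single 3 1) := by
  conv_lhs => rw [Rl_vec w]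
  simp only [Ph_add4, Ph_smul4]

private theorem Rl_r2 (G : Matrix (Fin 4) (Fin 4) ℝ) (m v w : Fin 4 → ℝ) :
    Ph G m v m w = v 0 * Ph G m (Pi.single 0 1) m w + v 1 * Ph G m (Pi.single 1 1) m w
      + v 2 * Ph G m (Pi.single 2 1) m w + v 3 * Ph G m (Pi.single 3 1) m w := by
  conv_lhs => rw [Rl_vec v]
  simp only [Ph_add2, Ph_smul2]

private theorem Rl_id (G : Matrix (Fin 4) (Fin 4) ℝ) (hG : ∀ i j, G i j = G j i) (m : Fin 4 → ℝ)
    (k : Fin 4) : 3 * m k ^ 4 * G.det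
      = ∑ i, ∑ j, (G k k * Rl_R G m k i j - 3 * Rl_r G m k i * Rl_r G m k j) * Rl_P G m i j := by
  have hrow : ∀ j, m 0 * Rl_P G m 0 j + m 1 * Rl_P G m 1 j + m 2 * Rl_P G m 2 j
      + m 3 * Rl_P G m 3 j = 0 := fun j =>
    (Rl_r2 G m m (Pi.single j 1)).symm.trans (Ph_self1 G m m _)
  have hcol : ∀ i, m 0 * Rl_P G m i 0 + m 1 * Rl_P G m i 1 + m 2 * Rl_P G m i 2
      + m 3 * Rl_P G m i 3 = 0 := fun i =>
    (Rl_r4 G m (Pi.single i 1) m).symm.trans (Ph_self2 G m _ m)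
  have hQ := Rl_Q G hG m
  rw [Rl_r4 G m (Pi.single 0 1), Rl_r4 G m (Pi.single 1 1), Rl_r4 G m (Pi.single 2 1),
    Rl_r4 G m (Pi.single 3 1)] at hQ
  have hK := Rl_K G hG m k
  rw [Rl_r2 G m (fun i => G i k), Rl_r4 G m (Pi.single 0 1), Rl_r4 G m (Pi.single 1 1),
    Rl_r4 G m (Pi.single 2 1), Rl_r4 G m (Pi.single 3 1)] at hK
  have e : ∀ i j, Ph G m (Pi.single i 1) m (Pi.single j 1) = Rl_P G m i j := fun _ _ => rfl
  simp only [e] at hQ hK
  rw [hG 1 0, hG 2 0, hG 3 0, hG 2 1, hG 3 1, hG 3 2] at hQ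
  simp only [Fin.sum_univ_four]
  simp only [Rl_R, Rl_r]
  rw [hG 1 0, hG 2 0, hG 3 0, hG 2 1, hG 3 1, hG 3 2]
  linear_combination (-(G k k * m k ^ 2)) * hQ + (3 * m k ^ 2) * hK
    - ((- G k k * m k * G k 0 + 3 * G k k * m k * G 0 k - 2 * G k k ^ 2 * m 0) * hrow 0
      + (- G k k * m k * G k 1 + 3 * G k k * m k * G 1 k - 2 * G k k ^ 2 * m 1) * hrow 1
      + (- G k k * m k * G k 2 + 3 * G k k * m k * G 2 k - 2 * G k k ^ 2 * m 2) * hrow 2
      + (- G k k * m k * G k 3 + 3 * G k k * m k * G 3 k - 2 * G k k ^ 2 * m 3) * hrow 3)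
    - ((- G k k * m k * G 0 k + 3 * m k * G 0 k * G k k) * hcol 0
      + (- G k k * m k * G 1 k + 3 * m k * G 1 k * G k k) * hcol 1
      + (- G k k * m k * G 2 k + 3 * m k * G 2 k * G k k) * hcol 2
      + (- G k k * m k * G 3 k + 3 * m k * G 3 k * G k k) * hcol 3)

private theorem Rl_id' (G : Matrix (Fin 4) (Fin 4) ℝ) (hG : ∀ i j, G i j = G j i)
    (m : Fin 4 → ℝ) (k : Fin 4) : 3 * m k ^ 4 * G.det
      = ∑ i ∈ Finset.univ.erase k, ∑ j ∈ Finset.univ.erase k,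
        (G k k * Rl_R G m k i j - 3 * Rl_r G m k i * Rl_r G m k j) * Rl_P G m i j := by
  rw [Rl_id G hG m k]
  have h1 : ∀ i, Rl_R G m k i k = 0 := by
    intro i
    unfold Rl_R
    rw [hG k k]
    ring
  have h2 : ∀ j, Rl_R G m k k j = 0 := by
    intro j
    unfold Rl_R
    ring
  have h3 : Rl_r G m k k = 0 := by
    unfold Rl_r
    ring
  rw [Finset.sum_erase]
  · refine Finset.sum_congr rfl fun i _ => ?_
    rw [Finset.sum_erase]
    rw [h1, h3]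
    ring
  · refine Finset.sum_eq_zero fun j _ => ?_
    rw [h2, h3]
    ring

private theorem Rl_bound {c ν : ℝ} (hc : 0 ≤ c) (hν : 0 ≤ ν) {G : Matrix (Fin 4) (Fin 4) ℝ}
    {l : Fin 4 → ℝ} (hl : ∀ i, 0 < l i) (hG : ∀ i j, |G i j| ≤ c * (l i * l j))
    {m : Fin 4 → ℝ} (hm : ∀ i, |m i| ≤ ν * l i) (k i j : Fin 4) :
    |G k k * Rl_R G m k i j - 3 * Rl_r G m k i * Rl_r G m k j|
      ≤ 16 * c ^ 2 * ν ^ 2 * l k ^ 4 * (l i * l j) := by
  have hk := (hl k).le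
  have hi := (hl i).le
  have hj := (hl j).le
  have hR : |Rl_R G m k i j| ≤ 4 * (c * ν ^ 2 * l k ^ 2 * (l i * l j)) := by
    have t1 : |m k ^ 2 * G i j| ≤ c * ν ^ 2 * l k ^ 2 * (l i * l j) := by
      rw [abs_mul, abs_pow]
      calc |m k| ^ 2 * |G i j| ≤ (ν * l k) ^ 2 * (c * (l i * l j)) :=
            mul_le_mul (pow_le_pow_left₀ (abs_nonneg _) (hm k) 2) (hG i j) (abs_nonneg _)
              (by positivity)
        _ = _ := by ring
    have t2 : |m k * m i * G k j| ≤ c * ν ^ 2 * l k ^ 2 * (l i * l j) := by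
      rw [abs_mul, abs_mul]
      calc |m k| * |m i| * |G k j| ≤ (ν * l k) * (ν * l i) * (c * (l k * l j)) :=
            mul_le_mul (mul_le_mul (hm k) (hm i) (abs_nonneg _) (by positivity)) (hG k j)
              (abs_nonneg _) (by positivity)
        _ = _ := by ring
    have t3 : |m k * m j * G i k| ≤ c * ν ^ 2 * l k ^ 2 * (l i * l j) := by
      rw [abs_mul, abs_mul]
      calc |m k| * |m j| * |G i k| ≤ (ν * l k) * (ν * l j) * (c * (l i * l k)) :=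
            mul_le_mul (mul_le_mul (hm k) (hm j) (abs_nonneg _) (by positivity)) (hG i k)
              (abs_nonneg _) (by positivity)
        _ = _ := by ring
    have t4 : |m i * m j * G k k| ≤ c * ν ^ 2 * l k ^ 2 * (l i * l j) := by
      rw [abs_mul, abs_mul]
      calc |m i| * |m j| * |G k k| ≤ (ν * l i) * (ν * l j) * (c * (l k * l k)) :=
            mul_le_mul (mul_le_mul (hm i) (hm j) (abs_nonneg _) (by positivity)) (hG k k)
              (abs_nonneg _) (by positivity)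
        _ = _ := by ring
    have e : Rl_R G m k i j
        = m k ^ 2 * G i j - m k * m i * G k j - m k * m j * G i k + m i * m j * G k k := rfl
    rw [e]
    rw [abs_le] at t1 t2 t3 t4 ⊢
    constructor <;> linarith [t1.1, t1.2, t2.1, t2.2, t3.1, t3.2, t4.1, t4.2]
  have hr : ∀ i, |Rl_r G m k i| ≤ 2 * (c * ν * l k ^ 2 * l i) := by
    intro i
    have hi := (hl i).le
    have t1 : |m k * G i k| ≤ c * ν * l k ^ 2 * l i := by
      rw [abs_mul]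
      calc |m k| * |G i k| ≤ (ν * l k) * (c * (l i * l k)) :=
            mul_le_mul (hm k) (hG i k) (abs_nonneg _) (by positivity)
        _ = _ := by ring
    have t2 : |m i * G k k| ≤ c * ν * l k ^ 2 * l i := by
      rw [abs_mul]
      calc |m i| * |G k k| ≤ (ν * l i) * (c * (l k * l k)) :=
            mul_le_mul (hm i) (hG k k) (abs_nonneg _) (by positivity)
        _ = _ := by ring
    have e : Rl_r G m k i = m k * G i k - m i * G k k := rfl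
    rw [e]
    rw [abs_le] at t1 t2 ⊢
    constructor <;> linarith [t1.1, t1.2, t2.1, t2.2]
  have s1 : |G k k * Rl_R G m k i j| ≤ 4 * c ^ 2 * ν ^ 2 * l k ^ 4 * (l i * l j) := by
    rw [abs_mul]
    calc |G k k| * |Rl_R G m k i j|
        ≤ (c * (l k * l k)) * (4 * (c * ν ^ 2 * l k ^ 2 * (l i * l j))) :=
          mul_le_mul (hG k k) hR (abs_nonneg _) (by positivity)
      _ = _ := by ring
  have s2 : |3 * Rl_r G m k i * Rl_r G m k j| ≤ 12 * c ^ 2 * ν ^ 2 * l k ^ 4 * (l i * l j) := by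
    rw [abs_mul, abs_mul, abs_of_pos (by norm_num : (0 : ℝ) < 3)]
    calc 3 * |Rl_r G m k i| * |Rl_r G m k j|
        ≤ 3 * (2 * (c * ν * l k ^ 2 * l i)) * (2 * (c * ν * l k ^ 2 * l j)) :=
          mul_le_mul (mul_le_mul_of_nonneg_left (hr i) (by norm_num)) (hr j) (abs_nonneg _)
            (by positivity)
      _ = _ := by ring
  rw [abs_le] at s1 s2 ⊢
  constructor <;> linarith [s1.1, s1.2, s2.1, s2.2]

/-- REAL LOSS (size 3).  Proof: for every `k` the polynomial identity (checked numerically)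
`3 m_k ^ 4 det G = ∑_{i, j ≠ k} (G_kk R_ij - 3 r_i r_j) P_ij`, where `P_ij = Ph G m e_i m e_j`,
`R_ij = m_k ^ 2 G_ij - m_k m_i G_kj - m_k m_j G_ik + m_i m_j G_kk`, `r_i = m_k G_ik - m_i G_kk`
(first make it a lemma over a commutative ring for symmetric `G`, four cases `k`, by `ring`).
Take `k` with `|m_k| / l_k = nw l m =: ν` maximal (`nw l m = ‖m / l‖`, finite sup): `|m_i| ≤ ν l_i`.  Then
`|G_kk| ≤ C0 l_k ^ 2 / T`, `|R_ij| ≤ 4 (C0 / T) ν ^ 2 l_k ^ 2 l_i l_j`, `|r_i| ≤ 2 ν (C0 / T) l_k ^ 2 l_i`;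
`Ph G m (Ev i) m (Ev j) = l_i l_j P_ij` (`Ev_eq`, `Ph_smul2`, `Ph_smul4`).  If all these are `≤ β` in absolute value:
`3 ν ^ 4 l_k ^ 4 |det G| ≤ 9 (4 + 12) (C0 / T) ^ 2 ν ^ 2 l_k ^ 4 β`, i.e. `|det G| T ^ 2 ν ^ 2 / (48 C0 ^ 2) ≤ β`. -/
theorem real_loss {C0 T : ℝ} (hC0 : 0 < C0) {G : Matrix (Fin 4) (Fin 4) ℤ} {l : Fin 4 → ℝ}
    (h : GH C0 T G l) (m : Fin 4 → ℤ) (hm : m ≠ 0) :
    ∃ i j, |(G.det : ℝ)| * T ^ 2 * (nw l m) ^ 2 / (48 * C0 ^ 2)
      ≤ |Ph (toR G) (cvR m) (Ev l i) (cvR m) (Ev l j)| := by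
  by_contra hcon
  push Not at hcon
  have hl := h.lp
  have hT := h.T0
  have hνpos : 0 < nw l m := nw_pos hl hm
  set ν := nw l m with hν
  set β := |(G.det : ℝ)| * T ^ 2 * ν ^ 2 / (48 * C0 ^ 2) with hβ
  set c := C0 / T with hc
  have hcpos : 0 < c := div_pos hC0 hT
  -- the maximal coordinate
  obtain ⟨k, hk⟩ : ∃ k, |(m k : ℝ)| = ν * l k := by
    have h1 : ∃ k, ‖(fun i => (m i : ℝ) / l i)‖ = ‖(m k : ℝ) / l k‖ := by
      obtain ⟨k, -, hk⟩ := Finset.exists_max_image Finset.univ (fun i => ‖(m i : ℝ) / l i‖)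
        Finset.univ_nonempty
      refine ⟨k, le_antisymm ?_ (norm_le_pi_norm (fun i => (m i : ℝ) / l i) k)⟩
      exact (pi_norm_le_iff_of_nonneg (norm_nonneg _)).mpr fun i => hk i (Finset.mem_univ i)
    obtain ⟨k, hk⟩ := h1
    refine ⟨k, ?_⟩
    have h2 : ν = |(m k : ℝ) / l k| := by
      rw [hν]
      unfold nw
      rw [hk, Real.norm_eq_abs]
    rw [h2, abs_div, abs_of_pos (hl k), div_mul_cancel₀ _ (hl k).ne']
  have hmb : ∀ i, |cvR m i| ≤ ν * l i := fun i => le_nw hl m i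
  have hGs : ∀ i j, toR G i j = toR G j i := by
    intro i j
    show ((G i j : ℤ) : ℝ) = ((G j i : ℤ) : ℝ)
    rw [h.sym i j]
  have hGb : ∀ i j, |toR G i j| ≤ c * (l i * l j) := by
    intro i j
    have h1 := h.gram i j
    show |((G i j : ℤ) : ℝ)| ≤ c * (l i * l j)
    refine h1.trans (le_of_eq ?_)
    rw [hc]
    ring
  have hdet : (toR G).det = (G.det : ℝ) := by
    have h1 := RingHom.map_det (Int.castRingHom ℝ) G
    rw [show ((G.det : ℤ) : ℝ) = (Int.castRingHom ℝ) G.det from rfl, h1]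
    rfl
  have hP : ∀ i j, l i * l j * |Rl_P (toR G) (cvR m) i j| < β := by
    intro i j
    have h1 := hcon i j
    rw [Ev_eq, Ev_eq, Ph_smul2, Ph_smul4, abs_mul, abs_mul, abs_of_pos (hl i),
      abs_of_pos (hl j)] at h1
    have h2 : l i * l j * |Rl_P (toR G) (cvR m) i j|
        = l i * (l j * |Ph (toR G) (cvR m) (Pi.single i 1) (cvR m) (Pi.single j 1)|) := by
      rw [mul_assoc]
      rfl
    rw [h2]
    exact h1
  have hid := Rl_id' (toR G) hGs (cvR m) k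
  set A := 16 * c ^ 2 * ν ^ 2 * l k ^ 4 with hA
  have hApos : 0 < A := by
    have := hl k
    rw [hA]
    positivity
  have hterm : ∀ i j, |(toR G k k * Rl_R (toR G) (cvR m) k i j
      - 3 * Rl_r (toR G) (cvR m) k i * Rl_r (toR G) (cvR m) k j) * Rl_P (toR G) (cvR m) i j|
      < A * β := by
    intro i j
    rw [abs_mul]
    have h1 := Rl_bound hcpos.le hνpos.le hl hGb hmb k i j
    calc _ ≤ A * (l i * l j) * |Rl_P (toR G) (cvR m) i j| :=
          mul_le_mul_of_nonneg_right h1 (abs_nonneg _)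
      _ = A * (l i * l j * |Rl_P (toR G) (cvR m) i j|) := by ring
      _ < A * β := mul_lt_mul_of_pos_left (hP i j) hApos
  have hcard : (Finset.univ.erase k : Finset (Fin 4)).card = 3 := by
    rw [Finset.card_erase_of_mem (Finset.mem_univ k)]
    simp
  have hne : (Finset.univ.erase k : Finset (Fin 4)).Nonempty := by
    rw [← Finset.card_pos, hcard]
    norm_num
  have hsum : |3 * cvR m k ^ 4 * (toR G).det| < 9 * (A * β) := by
    rw [hid]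
    refine (Finset.abs_sum_le_sum_abs _ _).trans_lt ?_
    calc _ < ∑ i ∈ (Finset.univ.erase k : Finset (Fin 4)), 3 * (A * β) := by
          refine Finset.sum_lt_sum_of_nonempty hne fun i _ => ?_
          refine (Finset.abs_sum_le_sum_abs _ _).trans_lt ?_
          calc _ < ∑ j ∈ (Finset.univ.erase k : Finset (Fin 4)), A * β :=
                Finset.sum_lt_sum_of_nonempty hne fun j _ => hterm i j
            _ = 3 * (A * β) := by
                rw [Finset.sum_const, hcard, nsmul_eq_mul]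
                norm_num
      _ = 9 * (A * β) := by
          rw [Finset.sum_const, hcard, nsmul_eq_mul]
          push_cast
          ring
  have hlk := hl k
  have hleft : |3 * cvR m k ^ 4 * (toR G).det| = 3 * (ν * l k) ^ 4 * |(G.det : ℝ)| := by
    rw [abs_mul, abs_mul, abs_pow, hdet, abs_of_pos (by norm_num : (0 : ℝ) < 3)]
    rw [show |cvR m k| = ν * l k from hk]
  have hright : 9 * (A * β) = 3 * (ν * l k) ^ 4 * |(G.det : ℝ)| := by
    rw [hA, hβ, hc]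
    have h1 := hC0.ne'
    have h2 := hT.ne'
    field_simp
    ring
  rw [hleft, hright] at hsum
  exact lt_irrefl _ hsum

end Pool.Agent.PP5Q
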